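import Pool.Agent.BBX.Defs

/-!
# Centrality of a minimal normal subgroup, complements, nilpotency of `P` (difficulty 2)

`central_min`. PROOF. `Y = {z ∈ Z | z commutes with all u ∈ P}` is normal in `G`
(`P` is normal), so `Y = ⊥` or `Y = Z`. If `Y = ⊥`: the `p`-group `P` acts by conjugation on the
finite set `Z` with exactly one fixed point, so `card Z ≡ 1 mod p`
(`IsPGroup.card_modEq_card_fixedPoints`), but `card Z` is a power of `p` different from `1`
(`IsPGroup.iff_card`), contradiction.

`comp_pp`. PROOF. Schur and Zassenhaus (`Subgroup.exists_right_complement'_of_coprime`) in the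
group `R` for the normal subgroup `P.subgroupOf R`, whose order is a power of `p`; map the
complement to `G`.

`nil_pp`. PROOF. `P.lowerCentralSeries (d+1) = ⁅P.lowerCentralSeries d, P⁆ ≤ ⁅Z, P⁆ = ⊥`; then
`Pool.Agent.BBN.nil_of_lcs`-type argument (it is in `Pool/Agent/BBN/Coset.lean`, copy it: a
subgroup whose lower central series computed in the ambient group vanishes satisfies `Nil`).
-/

namespace Pool.Agent.BBX

open scoped commutatorElement
open Pool.Agent.BBN

universe u v

theorem central_min {G : Type u} [Group G] [Finite G] (p : ℕ) [Fact p.Prime]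
    (P Z : Subgroup G) (hPn : P.Normal) (hZn : Z.Normal) (hP : IsPGroup p P)
    (hZ : IsPGroup p Z) (hne : Z ≠ ⊥)
    (hmin : ∀ Y : Subgroup G, Y.Normal → Y ≤ Z → Y = ⊥ ∨ Y = Z) :
    ∀ z ∈ Z, ∀ u ∈ P, z * u = u * z := by
  let Y : Subgroup G :=
    { carrier := {z | z ∈ Z ∧ ∀ u ∈ P, z * u = u * z}
      one_mem' := ⟨Z.one_mem, fun u _ => by rw [one_mul, mul_one]⟩
      mul_mem' := by
        rintro a b ⟨ha, ha'⟩ ⟨hb, hb'⟩
        refine ⟨Z.mul_mem ha hb, fun u hu => ?_⟩
        rw [mul_assoc, hb' u hu, ← mul_assoc, ha' u hu, mul_assoc]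
      inv_mem' := by
        rintro a ⟨ha, ha'⟩
        refine ⟨Z.inv_mem ha, fun u hu => ?_⟩
        have h1 := ha' u hu
        rw [inv_mul_eq_iff_eq_mul, ← mul_assoc, h1, mul_assoc, mul_inv_cancel, mul_one] }
  have hYmem : ∀ z, z ∈ Y ↔ z ∈ Z ∧ ∀ u ∈ P, z * u = u * z := fun z => Iff.rfl
  have hYn : Y.Normal := by
    refine ⟨fun z hz g => ?_⟩
    rw [hYmem] at hz ⊢
    refine ⟨hZn.conj_mem _ hz.1 _, fun u hu => ?_⟩
    have h1 := hz.2 _ (hPn.conj_mem u hu g⁻¹)
    rw [inv_inv] at h1
    have h2 : g * (z * (g⁻¹ * u * g)) * g⁻¹ = g * (g⁻¹ * u * g * z) * g⁻¹ := by rw [h1]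
    have e1 : g * z * g⁻¹ * u = g * (z * (g⁻¹ * u * g)) * g⁻¹ := by group
    have e2 : u * (g * z * g⁻¹) = g * (g⁻¹ * u * g * z) * g⁻¹ := by group
    rw [e1, e2, h2]
  rcases hmin Y hYn (fun z hz => hz.1) with h | h
  · exfalso
    letI act : MulAction P Z :=
      { smul := fun u z => ⟨u * z * (u : G)⁻¹, hZn.conj_mem _ z.2 _⟩
        one_smul := fun z => by
          apply Subtype.ext
          show ((1 : P) : G) * z * ((1 : P) : G)⁻¹ = z
          simp
        mul_smul := fun u v z => by
          apply Subtype.ext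
          show ((u * v : P) : G) * z * ((u * v : P) : G)⁻¹ = u * (v * z * (v : G)⁻¹) * (u : G)⁻¹
          push_cast
          group }
    have hact : ∀ (u : P) (z : Z), ((u • z : Z) : G) = u * z * (u : G)⁻¹ := fun u z => rfl
    have hcard := hP.card_modEq_card_fixedPoints (α := Z)
    have hfix : MulAction.fixedPoints P Z = {1} := by
      ext z
      rw [MulAction.mem_fixedPoints, Set.mem_singleton_iff]
      constructor
      · intro hz
        have hzY : (z : G) ∈ Y := by
          rw [hYmem]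
          refine ⟨z.2, fun u hu => ?_⟩
          have h1 := congrArg (fun w : Z => (w : G)) (hz ⟨u, hu⟩)
          simp only [hact] at h1
          rw [mul_inv_eq_iff_eq_mul] at h1
          exact h1.symm
        rw [h, Subgroup.mem_bot] at hzY
        exact Subtype.ext hzY
      · rintro rfl u
        apply Subtype.ext
        rw [hact]
        simp
    rw [hfix] at hcard
    simp only [Nat.card_eq_fintype_card, Fintype.card_unique] at hcard
    obtain ⟨n, hn⟩ := (IsPGroup.iff_card (p := p) (G := Z)).1 hZ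
    have hpp : p.Prime := Fact.out
    have hn0 : n ≠ 0 := by
      rintro rfl
      rw [pow_zero, Subgroup.card_eq_one] at hn
      exact hne hn
    have hdvd : p ∣ Nat.card Z := by
      rw [hn]
      exact dvd_pow_self p hn0
    have h3 : Nat.card Z ≡ 1 [MOD p] := by
      simpa using hcard
    have h4 : p ∣ 1 := (h3.dvd_iff dvd_rfl).1 hdvd
    exact hpp.one_lt.ne' (Nat.dvd_one.1 h4)
  · intro z hz u hu
    rw [← h, hYmem] at hz
    exact hz.2 u hu

theorem comp_pp {G : Type u} [Group G] [Finite G] (p : ℕ) [Fact p.Prime] (P R : Subgroup G)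
    (hPn : P.Normal) (hPR : P ≤ R) (hP : IsPGroup p P) (hR : (P.relIndex R).Coprime p) :
    ∃ D : Subgroup G, D ≤ R ∧ (Nat.card D).Coprime p ∧ Nat.card D = P.relIndex R ∧
      ∀ x ∈ R, ∃ u ∈ P, ∃ y ∈ D, x = u * y := by
  have hNn : (P.subgroupOf R).Normal := Subgroup.normal_subgroupOf
  have hcN : Nat.card (P.subgroupOf R) = Nat.card P := Nat.card_congr (Subgroup.subgroupOfEquivOfLe hPR).toEquiv
  obtain ⟨n, hn⟩ := (IsPGroup.iff_card (p := p) (G := P)).1 hP
  have hcop : (Nat.card (P.subgroupOf R)).Coprime (P.subgroupOf R).index := by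
    rw [hcN, hn]
    exact Nat.Coprime.pow_left n (Nat.Coprime.symm hR)
  obtain ⟨H, hH⟩ := Subgroup.exists_right_complement'_of_coprime hcop
  have hcH : Nat.card H = P.relIndex R := by
    have h1 := hH.card_mul_card
    rw [← Subgroup.card_mul_index (P.subgroupOf R)] at h1
    exact Nat.eq_of_mul_eq_mul_left Nat.card_pos h1
  have hcD : Nat.card (H.map R.subtype) = P.relIndex R := by
    rw [← hcH]
    exact Nat.card_congr (H.equivMapOfInjective R.subtype R.subtype_injective).toEquiv.symm
  refine ⟨H.map R.subtype, Subgroup.map_subtype_le H, ?_, hcD, ?_⟩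
  · rw [hcD]
    exact hR
  · intro x hx
    obtain ⟨⟨u, y⟩, h1, -⟩ := Subgroup.IsComplement.existsUnique hH ⟨x, hx⟩
    refine ⟨u, ?_, y, ?_, ?_⟩
    · exact Subgroup.mem_subgroupOf.1 u.2
    · exact ⟨y, y.2, rfl⟩
    · have := congrArg (fun w : R => (w : G)) h1
      exact this.symm

theorem Cent_nil {d : ℕ} {G : Type*} [Group G] (K : Subgroup G)
    (h : K.lowerCentralSeries d = ⊥) : Nil d K := by
  unfold Nil
  have h1 : ((⊤ : Subgroup K).lowerCentralSeries d).map K.subtype = ⊥ := by
    rw [Subgroup.map_lowerCentralSeries, ← MonoidHom.range_eq_map, Subgroup.range_subtype]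
    exact h
  rw [Subgroup.map_eq_bot_iff, Subgroup.ker_subtype] at h1
  exact le_bot_iff.mp h1

theorem nil_pp {G : Type u} [Group G] (P Z : Subgroup G) {d : ℕ}
    (h : P.lowerCentralSeries d ≤ Z) (hc : ∀ z ∈ Z, ∀ u ∈ P, z * u = u * z) :
    Nil (d + 1) P := by
  apply Cent_nil
  rw [Subgroup.lowerCentralSeries_succ, eq_bot_iff, Subgroup.commutator_le]
  intro g₁ h₁ g₂ h₂
  rw [Subgroup.mem_bot, commutatorElement_eq_one_iff_mul_comm]
  exact hc g₁ (h h₁) g₂ h₂

end Pool.Agent.BBX
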