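import Pool.Agent.BBX.Solv

/-!
# Largest normal subgroups (difficulty 2)

`exists_core`. PROOF. Take `P` of maximal order among the normal `p`-subgroups of `G` inside `K`
(`⊥` is one). If `T` is another one then `P ⊔ T` is a `p`-group (`IsPGroup.to_sup_of_normal_right`),
normal, inside `K`, so it equals `P`.

`exists_topp`. PROOF. Take `R` of maximal order among the normal subgroups with `P ≤ R ≤ K` and
`(P.relIndex R).Coprime p` (`P` is one). For `R'` as in the statement `R = R'` by maximality of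
the order (`Subgroup.eq_of_le_of_card_ge`).

`exists_pr`. PROOF. `C = Z`, `Q = ⊥` in `solv_step` for a prime `p` dividing `card Z`
(`Nat.exists_prime_and_dvd`): `A = Z` by minimality. In the second alternative `card Z` is coprime
to `p`, impossible; the first says that `Z` is a `p`-group.

`exists_minn`. PROOF. Take `Z` of minimal order among the nontrivial normal subgroups inside `K`.
-/

namespace Pool.Agent.BBX

open scoped commutatorElement
open Pool.Agent.BBN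

universe u v

theorem exists_core {G : Type u} [Group G] [Finite G] (p : ℕ) (K : Subgroup G) :
    ∃ P : Subgroup G, P.Normal ∧ P ≤ K ∧ IsPGroup p P ∧
      ∀ T : Subgroup G, T.Normal → T ≤ K → IsPGroup p T → T ≤ P := by
  have hne : Nonempty {T : Subgroup G // T.Normal ∧ T ≤ K ∧ IsPGroup p T} :=
    ⟨⟨⊥, inferInstance, bot_le, IsPGroup.of_bot⟩⟩
  obtain ⟨⟨P, hPn, hPK, hPp⟩, hmax⟩ :=
    Finite.exists_max (fun T : {T : Subgroup G // T.Normal ∧ T ≤ K ∧ IsPGroup p T} =>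
      Nat.card T.1)
  refine ⟨P, hPn, hPK, hPp, fun T hTn hTK hTp => ?_⟩
  have h1 := hmax ⟨P ⊔ T, Subgroup.sup_normal P T, sup_le hPK hTK,
    hPp.to_sup_of_normal_right hTp⟩
  have h2 : P = P ⊔ T := Subgroup.eq_of_le_of_card_ge le_sup_left h1
  rw [h2]
  exact le_sup_right

theorem exists_topp {G : Type u} [Group G] [Finite G] (p : ℕ) (K P : Subgroup G)
    (hP : P.Normal) (hPK : P ≤ K) :
    ∃ R : Subgroup G, R.Normal ∧ P ≤ R ∧ R ≤ K ∧ (P.relIndex R).Coprime p ∧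
      ∀ R' : Subgroup G, R'.Normal → R ≤ R' → R' ≤ K → (P.relIndex R').Coprime p → R' = R := by
  have hne : Nonempty {R : Subgroup G // R.Normal ∧ P ≤ R ∧ R ≤ K ∧ (P.relIndex R).Coprime p} :=
    ⟨⟨P, hP, le_rfl, hPK, by rw [Subgroup.relIndex_self]; exact Nat.coprime_one_left p⟩⟩
  obtain ⟨⟨R, hRn, hPR, hRK, hRp⟩, hmax⟩ :=
    Finite.exists_max (fun R : {R : Subgroup G // R.Normal ∧ P ≤ R ∧ R ≤ K ∧
      (P.relIndex R).Coprime p} => Nat.card R.1)
  refine ⟨R, hRn, hPR, hRK, hRp, fun R' hn hR hK hp => ?_⟩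
  have h1 := hmax ⟨R', hn, hPR.trans hR, hK, hp⟩
  exact (Subgroup.eq_of_le_of_card_ge hR h1).symm

theorem exists_pr {G : Type u} [Group G] [Finite G] [Group.IsSolvable G] (Z : Subgroup G)
    (hZn : Z.Normal) (hZ : Z ≠ ⊥)
    (hmin : ∀ Y : Subgroup G, Y.Normal → Y ≤ Z → Y = ⊥ ∨ Y = Z) :
    ∃ p : ℕ, p.Prime ∧ IsPGroup p Z := by
  have h1 : Nat.card Z ≠ 1 := fun h => hZ (Subgroup.card_eq_one.1 h)
  obtain ⟨p, hp, hpd⟩ := Nat.exists_prime_and_dvd h1
  have : Fact p.Prime := ⟨hp⟩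
  refine ⟨p, hp, ?_⟩
  have := hZn
  obtain ⟨A, hAn, hA, hAZ, h2⟩ := solv_step p ⊥ Z (bot_lt_iff_ne_bot.2 hZ)
  have hAZ' : A = Z := (hmin A hAn hAZ).resolve_left hA.ne'
  subst hAZ'
  rcases h2 with h2 | h2
  · intro g
    obtain ⟨k, hk⟩ := h2 g.1 g.2
    refine ⟨k, Subtype.ext ?_⟩
    exact Subgroup.mem_bot.1 hk
  · exfalso
    rw [Subgroup.relIndex_bot_left] at h2
    exact (Nat.Prime.coprime_iff_not_dvd hp).1 h2.symm hpd

theorem exists_minn {G : Type u} [Group G] [Finite G] (K : Subgroup G) (hKn : K.Normal)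
    (hK : K ≠ ⊥) : ∃ Z : Subgroup G, Z.Normal ∧ Z ≠ ⊥ ∧ Z ≤ K ∧
      ∀ Y : Subgroup G, Y.Normal → Y ≤ Z → Y = ⊥ ∨ Y = Z := by
  have hne : Nonempty {Z : Subgroup G // Z.Normal ∧ Z ≠ ⊥ ∧ Z ≤ K} := ⟨⟨K, hKn, hK, le_rfl⟩⟩
  obtain ⟨⟨Z, hZn, hZ, hZK⟩, hmin⟩ :=
    Finite.exists_min (fun Z : {Z : Subgroup G // Z.Normal ∧ Z ≠ ⊥ ∧ Z ≤ K} => Nat.card Z.1)
  refine ⟨Z, hZn, hZ, hZK, fun Y hYn hYZ => ?_⟩
  by_cases hY : Y = ⊥
  · exact Or.inl hY
  · right
    have h1 := hmin ⟨Y, hYn, hY, hYZ.trans hZK⟩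
    exact Subgroup.eq_of_le_of_card_ge hYZ h1

end Pool.Agent.BBX
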