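import Pool.Agent.BBN.Small

/-!
Crossed homomorphisms from a finite group to a finite nilpotent group of coprime order are
principal.
-/

namespace Pool.Agent.BBX

open scoped commutatorElement
open Pool.Agent.BBN

lemma lcs_smul {D A : Type*} [Group D] [Group A] [MulDistribMulAction D A] (i : ℕ) (d : D)
    {x : A} (hx : x ∈ (⊤ : Subgroup A).lowerCentralSeries i) :
    d • x ∈ (⊤ : Subgroup A).lowerCentralSeries i := by
  have h1 : MulDistribMulAction.toMonoidHom A d x ∈
      ((⊤ : Subgroup A).lowerCentralSeries i).map (MulDistribMulAction.toMonoidHom A d) :=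
    Subgroup.mem_map_of_mem _ hx
  rw [Subgroup.map_lowerCentralSeries] at h1
  exact Subgroup.lowerCentralSeries_mono i
    (le_top (a := (⊤ : Subgroup A).map (MulDistribMulAction.toMonoidHom A d))) h1

theorem h1_aux {D A : Type*} [Group D] [Finite D] [Group A] [Finite A]
    [MulDistribMulAction D A] (hco : Nat.Coprime (Nat.card D) (Nat.card A)) (f : D → A)
    (hf : ∀ d d', f (d * d') = f d * d • f d') (i : ℕ) :
    ∃ v : A, ∀ d, v⁻¹ * f d * (d • v) ∈ (⊤ : Subgroup A).lowerCentralSeries i := by
  induction i with
  | zero => exact ⟨1, fun d => Subgroup.mem_top _⟩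
  | succ i ih =>
    obtain ⟨v, hv⟩ := ih
    set L := (⊤ : Subgroup A).lowerCentralSeries i with hL
    set M := (⊤ : Subgroup A).lowerCentralSeries (i + 1) with hM
    have hML : M = ⁅L, ⊤⁆ := Subgroup.lowerCentralSeries_succ _ _
    let q := QuotientGroup.mk' M
    have hker : ∀ x, q x = 1 ↔ x ∈ M := fun x => QuotientGroup.eq_one_iff x
    have hcomm : ∀ x ∈ L, ∀ y : A, Commute (q x) (q y) := by
      intro x hx y
      rw [← commutatorElement_eq_one_iff_commute, ← map_commutatorElement, hker, hML]
      exact Subgroup.commutator_mem_commutator hx (Subgroup.mem_top y)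
    let f' : D → A := fun d => v⁻¹ * f d * (d • v)
    have hf' : ∀ d d', f' (d * d') = f' d * d • f' d' := by
      intro d d'
      change v⁻¹ * f (d * d') * ((d * d') • v) =
        v⁻¹ * f d * (d • v) * d • (v⁻¹ * f d' * (d' • v))
      rw [hf, smul_mul', smul_mul', smul_inv', mul_smul]
      group
    have hfd : ∀ d d', d • f' d' = (f' d)⁻¹ * f' (d * d') := by
      intro d d'
      rw [hf', inv_mul_cancel_left]
    have hfL : ∀ d, f' d ∈ L := hv
    have claim1 : ∀ (d : D) (l : List D), q (d • (l.map f').prod) =
        (q (f' d))⁻¹ ^ l.length * q ((l.map fun d' => f' (d * d')).prod) := by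
      intro d l
      induction l with
      | nil => simp
      | cons a l ihl =>
        rw [List.map_cons, List.prod_cons, smul_mul', map_mul q (d • f' a), ihl, hfd,
          map_mul q (f' d)⁻¹, map_inv q (f' d), List.map_cons, List.prod_cons,
          map_mul q (f' (d * a)), List.length_cons, pow_succ']
        have hc : Commute (q (f' (d * a))) ((q (f' d))⁻¹ ^ l.length) :=
          ((hcomm _ (hfL _) (f' d)).inv_right).pow_right _
        calc (q (f' d))⁻¹ * q (f' (d * a)) * ((q (f' d))⁻¹ ^ l.length *
              q ((l.map fun d' => f' (d * d')).prod))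
            = (q (f' d))⁻¹ * (q (f' (d * a)) * (q (f' d))⁻¹ ^ l.length) *
              q ((l.map fun d' => f' (d * d')).prod) := by group
          _ = (q (f' d))⁻¹ * ((q (f' d))⁻¹ ^ l.length * q (f' (d * a))) *
              q ((l.map fun d' => f' (d * d')).prod) := by rw [hc.eq]
          _ = (q (f' d))⁻¹ * (q (f' d))⁻¹ ^ l.length * (q (f' (d * a)) *
              q ((l.map fun d' => f' (d * d')).prod)) := by group
    have : Fintype D := Fintype.ofFinite D
    classical
    let l : List D := (Finset.univ : Finset D).toList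
    let Y : A := (l.map f').prod
    have hlen : l.length = Nat.card D := by
      rw [Finset.length_toList, Finset.card_univ, Nat.card_eq_fintype_card]
    have hperm : ∀ d : D, (l.map fun d' => d * d').Perm l := by
      intro d
      rw [List.perm_ext_iff_of_nodup]
      · intro a
        constructor
        · intro _
          exact Finset.mem_toList.mpr (Finset.mem_univ a)
        · intro _
          rw [List.mem_map]
          exact ⟨d⁻¹ * a, Finset.mem_toList.mpr (Finset.mem_univ _), by group⟩
      · exact (Finset.nodup_toList _).map (mul_right_injective d)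
      · exact Finset.nodup_toList _
    have claim2 : ∀ d : D, q ((l.map fun d' => f' (d * d')).prod) = q Y := by
      intro d
      have e1 : (l.map fun d' => f' (d * d')) = (l.map fun d' => d * d').map f' := by
        rw [List.map_map]; rfl
      have h1 : (((l.map fun d' => d * d').map f').map q).Perm ((l.map f').map q) :=
        ((hperm d).map f').map q
      rw [e1, map_list_prod, h1.prod_eq', ← map_list_prod]
      rw [List.pairwise_map, List.pairwise_map]
      apply List.pairwise_of_forall
      intro a b
      exact hcomm _ (hfL _) _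
    have claim3 : ∀ d : D, q (d • Y) = (q (f' d))⁻¹ ^ Nat.card D * q Y := by
      intro d
      rw [claim1, claim2, hlen]
    -- Bezout
    have hbez : (1 : ℤ) = (Nat.card D : ℤ) * Nat.gcdA (Nat.card D) (Nat.card A) +
        (Nat.card A : ℤ) * Nat.gcdB (Nat.card D) (Nat.card A) := by
      rw [← Nat.gcd_eq_gcd_ab, hco.gcd_eq_one]
      rfl
    set m := Nat.gcdA (Nat.card D) (Nat.card A) with hm
    set m' := Nat.gcdB (Nat.card D) (Nat.card A) with hm'
    have hpow : ∀ x : A ⧸ M, x ^ ((Nat.card D : ℤ) * m) = x := by
      intro x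
      obtain ⟨a, rfl⟩ := QuotientGroup.mk'_surjective M x
      have h1 : (Nat.card D : ℤ) * m = 1 - (Nat.card A : ℤ) * m' := by linarith
      rw [h1, zpow_sub, zpow_one, zpow_mul, zpow_natCast, ← map_pow, pow_card_eq_one', map_one,
        one_zpow, inv_one, mul_one]
    refine ⟨v * Y ^ m, ?_⟩
    intro d
    rw [← hker]
    have e1 : (v * Y ^ m)⁻¹ * f d * (d • (v * Y ^ m)) = (Y ^ m)⁻¹ * f' d * (d • Y) ^ m := by
      rw [smul_mul', smul_zpow']
      change _ = (Y ^ m)⁻¹ * (v⁻¹ * f d * (d • v)) * (d • Y) ^ m
      group
    have hc : Commute ((q (f' d))⁻¹ ^ Nat.card D) (q Y) :=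
      ((hcomm _ (hfL _) Y).inv_left).pow_left _
    rw [e1, map_mul, map_mul, map_inv, map_zpow, map_zpow, claim3, hc.mul_zpow,
      ← zpow_natCast, ← zpow_mul, hpow]
    have hc2 : Commute (q (f' d)) ((q Y) ^ m) := ((hcomm _ (hfL _) Y)).zpow_right m
    group

/-- Crossed homomorphisms from a finite group to a finite nilpotent group of coprime order are
principal. -/
theorem h1_trivial {D A : Type*} [Group D] [Finite D] [Group A] [Finite A]
    [MulDistribMulAction D A] {c : ℕ} (hA : Nil c A)
    (hco : Nat.Coprime (Nat.card D) (Nat.card A)) (f : D → A)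
    (hf : ∀ d d', f (d * d') = f d * d • f d') : ∃ v : A, ∀ d, f d = v * (d • v)⁻¹ := by
  obtain ⟨v, hv⟩ := h1_aux hco f hf c
  refine ⟨v, fun d => ?_⟩
  have h1 := hv d
  rw [hA, Subgroup.mem_bot] at h1
  have h2 : f d = v * 1 * (d • v)⁻¹ := by
    rw [← h1]
    group
  rw [h2, mul_one]

end Pool.Agent.BBX
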