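import Pool.Agent.BBX.Poly
import Pool.Agent.BBX.H1
import Pool.Agent.BBN.Reduce
import Mathlib.GroupTheory.PGroup

/-!
The filtration by the repeated lower central series, and detection of an element of a group by a
nilpotent group with operators and a crossed homomorphism.
-/

namespace Pool.Agent.BBX

open scoped commutatorElement
open Pool.Agent.BBN

universe u v

/-- The three subgroups lemma modulo a normal subgroup. -/
lemma three_mod {G : Type u} [Group G] (N : Subgroup G) [N.Normal] {H₁ H₂ H₃ : Subgroup G}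
    (h1 : ⁅⁅H₂, H₃⁆, H₁⁆ ≤ N) (h2 : ⁅⁅H₃, H₁⁆, H₂⁆ ≤ N) : ⁅⁅H₁, H₂⁆, H₃⁆ ≤ N := by
  let q := QuotientGroup.mk' N
  have hker : q.ker = N := QuotientGroup.ker_mk' N
  rw [← hker, ← Subgroup.map_eq_bot_iff] at h1 h2 ⊢
  simp only [Subgroup.map_commutator] at h1 h2 ⊢
  exact Subgroup.commutator_commutator_eq_bot_of_rotate h1 h2

lemma lcs_comm {G : Type u} [Group G] (a b : ℕ) :
    ⁅(⊤ : Subgroup G).lowerCentralSeries a, (⊤ : Subgroup G).lowerCentralSeries b⁆ ≤
      (⊤ : Subgroup G).lowerCentralSeries (a + b + 1) := by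
  induction b generalizing a with
  | zero =>
    rw [Subgroup.lowerCentralSeries_zero, Nat.add_zero, Subgroup.lowerCentralSeries_succ]
  | succ b ih =>
    rw [Subgroup.commutator_comm, Subgroup.lowerCentralSeries_succ]
    apply three_mod
    · rw [Subgroup.commutator_comm ⊤]
      have h1 := ih (a + 1)
      rw [Subgroup.lowerCentralSeries_succ (⊤ : Subgroup G) a] at h1
      have e : a + 1 + b + 1 = a + (b + 1) + 1 := by omega
      rwa [e] at h1
    · have h1 := Subgroup.commutator_mono (ih a) (le_refl (⊤ : Subgroup G))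
      rw [← Subgroup.lowerCentralSeries_succ] at h1
      exact h1

/-- The filtration of a group by the lower central series, every term being repeated `m`
times. -/
def lcsFil (m : ℕ) (P : Type u) [Group P] : Fil P where
  B i := (⊤ : Subgroup P).lowerCentralSeries ((i - 1) / m)
  anti i := (⊤ : Subgroup P).lowerCentralSeries_antitone (Nat.div_le_div_right (by omega))
  comm i j := by
    have hn : ∀ k, ⁅(⊤ : Subgroup P), (⊤ : Subgroup P).lowerCentralSeries k⁆ ≤
        (⊤ : Subgroup P).lowerCentralSeries k := by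
      intro k
      rw [Subgroup.commutator_comm, ← Subgroup.lowerCentralSeries_succ]
      exact (⊤ : Subgroup P).lowerCentralSeries_antitone (Nat.le_succ k)
    rcases Nat.eq_zero_or_pos m with rfl | hm
    · simp only [Nat.div_zero]
      exact hn 0
    rcases Nat.eq_zero_or_pos i with rfl | hi
    · rw [Nat.zero_add, Nat.zero_sub, Nat.zero_div]
      exact hn _
    rcases Nat.eq_zero_or_pos j with rfl | hj
    · rw [Nat.add_zero, Nat.zero_sub, Nat.zero_div, Subgroup.commutator_comm]
      exact hn _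
    refine (lcs_comm _ _).trans ((⊤ : Subgroup P).lowerCentralSeries_antitone ?_)
    have h1 : i - 1 < m * ((i - 1) / m + 1) := Nat.lt_mul_div_succ _ hm
    have h2 : j - 1 < m * ((j - 1) / m + 1) := Nat.lt_mul_div_succ _ hm
    rw [← Nat.lt_succ_iff, Nat.div_lt_iff_lt_mul hm]
    have e : ((i - 1) / m + (j - 1) / m + 1).succ * m =
        m * ((i - 1) / m + 1) + m * ((j - 1) / m + 1) := by
      rw [Nat.succ_eq_add_one]; ring
    rw [e]
    omega

lemma lcsFil_B (m : ℕ) (P : Type u) [Group P] (i : ℕ) :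
    (lcsFil m P).B i = (⊤ : Subgroup P).lowerCentralSeries ((i - 1) / m) := rfl

/-- The first terms are the whole group. -/
lemma lcsFil_top {m : ℕ} (hm : 1 ≤ m) (P : Type u) [Group P] {i : ℕ} (hi : i ≤ m) :
    (lcsFil m P).B i = ⊤ := by
  rw [lcsFil_B, Nat.div_eq_of_lt (by omega)]
  rfl

lemma lcsFil_bot {m c : ℕ} (hm : 1 ≤ m) {P : Type u} [Group P] (hP : Nil c P) :
    (lcsFil m P).B (m * c + 1) = ⊥ := by
  rw [lcsFil_B, Nat.add_sub_cancel, Nat.mul_div_cancel_left c (by omega)]
  exact hP

lemma lcsFil_smul (m : ℕ) {G P : Type u} [Group G] [Group P] [MulDistribMulAction G P] (i : ℕ)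
    (g : G) {x : P} (hx : x ∈ (lcsFil m P).B i) : g • x ∈ (lcsFil m P).B i :=
  lcs_smul _ g hx

/-- Homomorphisms preserve the filtration, if the source has length at most `m`. -/
lemma lcsFil_hom {m : ℕ} (hm : 1 ≤ m) {X P : Type u} [Group X] [Group P] {FX : Fil X}
    (hX : FX.B (m + 1) = ⊥) (φ : X →* P) (i : ℕ) {x : X} (hx : x ∈ FX.B i) :
    φ x ∈ (lcsFil m P).B i := by
  by_cases hi : i ≤ m
  · rw [lcsFil_top hm P hi]
    exact Subgroup.mem_top _
  · have h1 := FX.anti' (show m + 1 ≤ i by omega) hx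
    rw [hX, Subgroup.mem_bot] at h1
    rw [h1, map_one]
    exact Subgroup.one_mem _

/-- The element `z` of `G` is detected by a finite nilpotent group `N` of class at most `c` and
order at most `2 ^ e` on which `G` acts, together with a crossed homomorphism `K → N`; moreover
`N` has an invariant filtration of length at most `s` such that the action of normal
`p`-subgroups of `G` inside `K` is polynomial (the parameter `m` bounds the length of the
filtrations of the sources). -/
def Det (G : Type u) [Group G] (K : Subgroup G) (p m s e c : ℕ) (z : G) : Prop :=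
  ∃ (N : Type u) (_ : Group N) (_ : Finite N) (_ : MulDistribMulAction G N) (δ : Z1 K N)
    (E : Fil N), Nil c N ∧ Nat.card N ≤ 2 ^ e ∧ E.B 0 = ⊤ ∧ E.B (s + 1) = ⊥ ∧
    (∀ (g : G) (i : ℕ), ∀ x ∈ E.B i, g • x ∈ E.B i) ∧
    (∀ (X : Type u) [Group X] (FX : Fil X) (φ : X →* G) (T : Subgroup G), T.Normal → T ≤ K →
      IsPGroup p T → (∀ x, φ x ∈ T) → FX.B (m + 1) = ⊥ →
      (∀ ν : N, IsPoly FX E (fun x => φ x • ν)) ∧ IsPoly FX E (fun x => δ.val (φ x))) ∧
    ((∃ ν : N, z • ν ≠ ν) ∨ δ.val z ≠ 1)

lemma Det.mono {G : Type u} [Group G] {K : Subgroup G} {p m s s' e e' c : ℕ} {z : G}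
    (h : Det G K p m s e c z) (hs : s ≤ s') (he : e ≤ e') : Det G K p m s' e' c z := by
  obtain ⟨N, i1, i2, i3, δ, E, h1, h2, h3, h4, h5⟩ := h
  refine ⟨N, i1, i2, i3, δ, E, h1, h2.trans (Nat.pow_le_pow_right (by norm_num) he), h3, ?_, h5⟩
  rw [eq_bot_iff, ← h4]
  exact E.anti' (by omega)

/-- Every `p`-subgroup of `K` is contained in, respectively has its term number `j - 1` of the
lower central series contained in, a normal `p`-subgroup of the group. For `j = 0`: the subgroup
`K` is a `p`-group. -/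
def HH {G : Type u} [Group G] (K : Subgroup G) (p : ℕ) : ℕ → Prop
  | 0 => IsPGroup p K
  | j + 1 => ∃ T : Subgroup G, T.Normal ∧ T ≤ K ∧ IsPGroup p T ∧
      ∀ X : Subgroup G, X ≤ K → IsPGroup p X → X.lowerCentralSeries j ≤ T

end Pool.Agent.BBX
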