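import Pool.Agent.BBN.Small

/-!
Filtered groups and polynomial maps between them.
-/

namespace Pool.Agent.BBX

open scoped commutatorElement
open Pool.Agent.BBN

universe u v

/-- A filtration of a group by subgroups. -/
structure Fil (A : Type u) [Group A] where
  /-- the subgroups -/
  B : ℕ → Subgroup A
  anti : ∀ i, B (i + 1) ≤ B i
  comm : ∀ i j, ⁅B i, B j⁆ ≤ B (i + j)

namespace Fil
variable {A : Type u} [Group A] (E : Fil A)

lemma anti' {i j : ℕ} (h : i ≤ j) : E.B j ≤ E.B i := by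
  induction h with
  | refl => exact le_rfl
  | step _ ih => exact (E.anti _).trans ih

lemma conj_mem {i : ℕ} {a x : A} (ha : a ∈ E.B 0) (hx : x ∈ E.B i) : a * x * a⁻¹ ∈ E.B i := by
  have h1 : ⁅a, x⁆ ∈ E.B (0 + i) := E.comm 0 i (Subgroup.commutator_mem_commutator ha hx)
  rw [Nat.zero_add] at h1
  have h2 := (E.B i).mul_mem h1 hx
  rwa [commutatorElement_def, inv_mul_cancel_right] at h2

lemma conj_mem' {i : ℕ} {a x : A} (ha : a ∈ E.B 0) (hx : x ∈ E.B i) : a⁻¹ * x * a ∈ E.B i := by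
  have := E.conj_mem ((E.B 0).inv_mem ha) hx
  rwa [inv_inv] at this

/-- The shifted filtration. -/
def shift (k : ℕ) : Fil A where
  B i := E.B (k + i)
  anti i := E.anti _
  comm i j := (E.comm _ _).trans (E.anti' (by omega))

lemma shift_B (k i : ℕ) : (E.shift k).B i = E.B (k + i) := rfl

/-- The filtration of the square: pairs of elements that are close to each other. -/
def sq : Fil (A × A) where
  B i :=
    { carrier := {x | x.1 ∈ E.B i ∧ x.1⁻¹ * x.2 ∈ E.B (i + 1)}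
      one_mem' := ⟨(E.B i).one_mem, by simp⟩
      mul_mem' := by
        rintro ⟨a, b⟩ ⟨a', b'⟩ ⟨h1, h2⟩ ⟨h3, h4⟩
        refine ⟨(E.B i).mul_mem h1 h3, ?_⟩
        change (a * a')⁻¹ * (b * b') ∈ E.B (i + 1)
        have e : (a * a')⁻¹ * (b * b') = a'⁻¹ * (a⁻¹ * b) * a' * (a'⁻¹ * b') := by group
        rw [e]
        exact (E.B (i + 1)).mul_mem (E.conj_mem' (E.anti' (Nat.zero_le i) h3) h2) h4
      inv_mem' := by
        rintro ⟨a, b⟩ ⟨h1, h2⟩
        refine ⟨(E.B i).inv_mem h1, ?_⟩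
        change (a⁻¹)⁻¹ * b⁻¹ ∈ E.B (i + 1)
        have e : (a⁻¹)⁻¹ * b⁻¹ = a * (a⁻¹ * b)⁻¹ * a⁻¹ := by group
        rw [e]
        exact E.conj_mem (E.anti' (Nat.zero_le i) h1) ((E.B (i + 1)).inv_mem h2) }
  anti i := by
    rintro ⟨a, b⟩ ⟨h1, h2⟩
    exact ⟨E.anti _ h1, E.anti _ h2⟩
  comm i j := by
    rw [Subgroup.commutator_le]
    rintro ⟨a, a'⟩ ⟨h1, h2⟩ ⟨b, b'⟩ ⟨h3, h4⟩
    have ha : a ∈ E.B i := h1
    have hb : b ∈ E.B j := h3
    have ha0 : a ∈ E.B 0 := E.anti' (Nat.zero_le i) ha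
    have hb0 : b ∈ E.B 0 := E.anti' (Nat.zero_le j) hb
    set α := a⁻¹ * a' with hα
    set β := b⁻¹ * b' with hβ
    have hα1 : α ∈ E.B (i + 1) := h2
    have hβ1 : β ∈ E.B (j + 1) := h4
    have hβ0 : β ∈ E.B j := E.anti _ hβ1
    have hab : ⁅a, b⁆ ∈ E.B (i + j) := E.comm i j (Subgroup.commutator_mem_commutator ha hb)
    refine ⟨hab, ?_⟩
    change ⁅a, b⁆⁻¹ * ⁅a', b'⁆ ∈ E.B (i + j + 1)
    have ea : a' = a * α := by rw [hα]; group
    have eb : b' = b * β := by rw [hβ]; group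
    have e : ⁅a, b⁆⁻¹ * ⁅a', b'⁆ =
        (⁅a, b⁆⁻¹ * (a * ⁅α, b * β⁆ * a⁻¹) * ⁅a, b⁆) * (b * ⁅a, β⁆ * b⁻¹) := by
      rw [ea, eb]
      simp only [commutatorElement_def]
      group
    rw [e]
    refine (E.B _).mul_mem ?_ ?_
    · refine E.conj_mem' (E.anti' (Nat.zero_le _) hab) (E.conj_mem ha0 ?_)
      have h5 := E.comm (i + 1) j (Subgroup.commutator_mem_commutator hα1
        ((E.B j).mul_mem hb hβ0))
      have h6 : i + 1 + j = i + j + 1 := by omega
      rwa [h6] at h5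
    · refine E.conj_mem hb0 ?_
      have h5 := E.comm i (j + 1) (Subgroup.commutator_mem_commutator ha hβ1)
      exact h5

lemma mem_sq (i : ℕ) (x : A × A) : x ∈ E.sq.B i ↔ x.1 ∈ E.B i ∧ x.1⁻¹ * x.2 ∈ E.B (i + 1) :=
  Iff.rfl

/-- The product filtration. -/
def prod {A' : Type v} [Group A'] (E : Fil A) (E' : Fil A') : Fil (A × A') where
  B i := (E.B i).prod (E'.B i)
  anti i := Subgroup.prod_mono (E.anti i) (E'.anti i)
  comm i j := by
    rw [Subgroup.commutator_le]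
    rintro ⟨a, a'⟩ ⟨h1, h2⟩ ⟨b, b'⟩ ⟨h3, h4⟩
    exact ⟨E.comm i j (Subgroup.commutator_mem_commutator h1 h3),
      E'.comm i j (Subgroup.commutator_mem_commutator h2 h4)⟩

lemma mem_prod {A' : Type v} [Group A'] (E : Fil A) (E' : Fil A') (i : ℕ) (x : A × A') :
    x ∈ (E.prod E').B i ↔ x.1 ∈ E.B i ∧ x.2 ∈ E'.B i := Iff.rfl

/-- The filtration induced by a homomorphism. -/
def comap {A' : Type v} [Group A'] (φ : A' →* A) (E : Fil A) : Fil A' where
  B i := (E.B i).comap φ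
  anti i := Subgroup.comap_mono (E.anti i)
  comm i j := by
    rw [Subgroup.commutator_le]
    intro x hx y hy
    rw [Subgroup.mem_comap, map_commutatorElement]
    exact E.comm i j (Subgroup.commutator_mem_commutator hx hy)

end Fil

/-- Polynomial maps, level by level. -/
def Pol : (n : ℕ) → (Γ : Type u) → (A : Type v) → [Group Γ] → [Group A] → Fil Γ → Fil A →
    (Γ → A) → Prop
  | 0, _, _, _, _, F, E, f => ∀ x ∈ F.B 0, f x ∈ E.B 0
  | n + 1, Γ, A, _, _, F, E, f => Pol n (Γ × Γ) (A × A) F.sq E.sq (Prod.map f f)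

/-- Polynomial maps. -/
def IsPoly {Γ : Type u} {A : Type v} [Group Γ] [Group A] (F : Fil Γ) (E : Fil A)
    (f : Γ → A) : Prop := ∀ n, Pol n Γ A F E f

section Basic

universe w

lemma Pol.comp {n : ℕ} {Γ : Type u} {Γ' : Type v} {A : Type w} [Group Γ] [Group Γ'] [Group A]
    {F : Fil Γ} {F' : Fil Γ'} {E : Fil A} {f : Γ' → A} {g : Γ → Γ'} (hf : Pol n Γ' A F' E f)
    (hg : Pol n Γ Γ' F F' g) : Pol n Γ A F E (fun x => f (g x)) := by
  induction n generalizing Γ Γ' A with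
  | zero => exact fun x hx => hf _ (hg x hx)
  | succ n ih =>
    have := ih (Γ := Γ × Γ) (Γ' := Γ' × Γ') (A := A × A) (f := Prod.map f f)
      (g := Prod.map g g) hf hg
    exact this

lemma Pol.mul {n : ℕ} {Γ : Type u} {A : Type v} [Group Γ] [Group A] {F : Fil Γ} {E : Fil A}
    {f g : Γ → A} (hf : Pol n Γ A F E f) (hg : Pol n Γ A F E g) :
    Pol n Γ A F E (fun x => f x * g x) := by
  induction n generalizing Γ A with
  | zero => exact fun x hx => (E.B 0).mul_mem (hf x hx) (hg x hx)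
  | succ n ih =>
    have := ih (Γ := Γ × Γ) (A := A × A) (f := Prod.map f f) (g := Prod.map g g) hf hg
    exact this

lemma Pol.inv {n : ℕ} {Γ : Type u} {A : Type v} [Group Γ] [Group A] {F : Fil Γ} {E : Fil A}
    {f : Γ → A} (hf : Pol n Γ A F E f) : Pol n Γ A F E (fun x => (f x)⁻¹) := by
  induction n generalizing Γ A with
  | zero => exact fun x hx => (E.B 0).inv_mem (hf x hx)
  | succ n ih =>
    have := ih (Γ := Γ × Γ) (A := A × A) (f := Prod.map f f) hf
    exact this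

lemma Pol.const (n : ℕ) {Γ : Type u} {A : Type v} [Group Γ] [Group A] (F : Fil Γ) {E : Fil A}
    {c : A} (hc : c ∈ E.B 0) : Pol n Γ A F E (fun _ => c) := by
  induction n generalizing Γ A with
  | zero => exact fun _ _ => hc
  | succ n ih =>
    have := ih (Γ := Γ × Γ) (A := A × A) F.sq (E := E.sq) (c := (c, c)) ⟨hc, by simp⟩
    exact this

/-- Homomorphisms preserving the filtrations are polynomial. -/
lemma Pol.hom (n : ℕ) {Γ : Type u} {A : Type v} [Group Γ] [Group A] {F : Fil Γ} {E : Fil A}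
    (φ : Γ →* A) (hφ : ∀ i, ∀ x ∈ F.B i, φ x ∈ E.B i) : Pol n Γ A F E φ := by
  induction n generalizing Γ A with
  | zero => exact hφ 0
  | succ n ih =>
    have := ih (Γ := Γ × Γ) (A := A × A) (F := F.sq) (E := E.sq) (φ.prodMap φ) (by
      rintro i ⟨x, y⟩ ⟨h1, h2⟩
      refine ⟨hφ i x h1, ?_⟩
      change (φ x)⁻¹ * φ y ∈ _
      rw [← map_inv, ← map_mul]
      exact hφ (i + 1) _ h2)
    exact this

/-- Transfer along a homomorphism that induces the filtration. -/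
lemma pol_comap {n : ℕ} {Γ : Type u} {A : Type v} {A' : Type w} [Group Γ] [Group A] [Group A']
    {F : Fil Γ} {E : Fil A} {E' : Fil A'} (φ : A' →* A)
    (hφ : ∀ i x, x ∈ E'.B i ↔ φ x ∈ E.B i) {f : Γ → A'} :
    Pol n Γ A' F E' f ↔ Pol n Γ A F E (fun x => φ (f x)) := by
  induction n generalizing Γ A A' with
  | zero =>
    constructor
    · exact fun h x hx => (hφ 0 _).mp (h x hx)
    · exact fun h x hx => (hφ 0 _).mpr (h x hx)
  | succ n ih =>
    have := ih (Γ := Γ × Γ) (A := A × A) (A' := A' × A') (F := F.sq) (E := E.sq) (E' := E'.sq)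
      (φ.prodMap φ) (by
        rintro i ⟨x, y⟩
        change (x ∈ E'.B i ∧ x⁻¹ * y ∈ E'.B (i + 1)) ↔
          (φ x ∈ E.B i ∧ (φ x)⁻¹ * φ y ∈ E.B (i + 1))
        rw [hφ, hφ, map_mul, map_inv]) (f := Prod.map f f)
    exact this

/-- The interchange of coordinates. -/
def swapH (A : Type u) [Group A] : (A × A) × (A × A) →* (A × A) × (A × A) where
  toFun x := ((x.1.1, x.2.1), (x.1.2, x.2.2))
  map_one' := rfl
  map_mul' _ _ := rfl

lemma swapH_mem {A : Type u} [Group A] (E : Fil A) (i : ℕ) (x : (A × A) × (A × A))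
    (hx : x ∈ E.sq.sq.B i) : swapH A x ∈ E.sq.sq.B i := by
  obtain ⟨⟨a, b⟩, ⟨a', b'⟩⟩ := x
  obtain ⟨⟨h1, h2⟩, ⟨h3, h4⟩⟩ := hx
  change a ∈ E.B i at h1
  change a⁻¹ * b ∈ E.B (i + 1) at h2
  change a⁻¹ * a' ∈ E.B (i + 1) at h3
  change (a⁻¹ * a')⁻¹ * (b⁻¹ * b') ∈ E.B (i + 1 + 1) at h4
  refine ⟨⟨h1, h3⟩, ⟨h2, ?_⟩⟩
  change (a⁻¹ * b)⁻¹ * (a'⁻¹ * b') ∈ E.B (i + 1 + 1)
  have e : (a⁻¹ * b)⁻¹ * (a'⁻¹ * b') =
      ⁅(a⁻¹ * b)⁻¹, (a⁻¹ * a')⁻¹⁆ * ((a⁻¹ * a')⁻¹ * (b⁻¹ * b')) := by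
    simp only [commutatorElement_def]
    group
  rw [e]
  refine (E.B _).mul_mem ?_ h4
  have h5 := E.comm (i + 1) (i + 1) (Subgroup.commutator_mem_commutator
    ((E.B (i + 1)).inv_mem h2) ((E.B (i + 1)).inv_mem h3))
  exact E.anti' (by omega) h5

lemma pol_swap {n : ℕ} {Γ : Type u} {A : Type v} [Group Γ] [Group A] {F : Fil Γ} {E : Fil A}
    {f : Γ → (A × A) × (A × A)} :
    Pol n Γ _ F E.sq.sq f ↔ Pol n Γ _ F E.sq.sq (fun x => swapH A (f x)) := by
  constructor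
  · intro h
    exact Pol.comp (Pol.hom n (swapH A) (swapH_mem E)) h
  · intro h
    have := Pol.comp (Pol.hom n (swapH A) (swapH_mem E)) h
    exact this

/-- Pairs of close polynomial maps. -/
lemma pol_pair {n : ℕ} {Γ : Type u} {A : Type v} [Group Γ] [Group A] {F : Fil Γ} {E : Fil A}
    {f g : Γ → A} : Pol n Γ (A × A) F E.sq (fun x => (f x, g x)) ↔
      Pol n Γ A F E f ∧ Pol n Γ A F (E.shift 1) (fun x => (f x)⁻¹ * g x) := by
  induction n generalizing Γ A with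
  | zero =>
    constructor
    · intro h
      refine ⟨fun x hx => (h x hx).1, fun x hx => ?_⟩
      have := (h x hx).2
      rw [Fil.shift_B]
      exact this
    · intro h x hx
      refine ⟨h.1 x hx, ?_⟩
      have := h.2 x hx
      rw [Fil.shift_B] at this
      exact this
  | succ n ih =>
    have h1 : Pol (n + 1) Γ (A × A) F E.sq (fun x => (f x, g x)) ↔
        Pol n (Γ × Γ) _ F.sq E.sq.sq (fun x => ((f x.1, g x.1), (f x.2, g x.2))) := Iff.rfl
    have h2 := pol_swap (n := n) (F := F.sq) (E := E)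
      (f := fun x : Γ × Γ => ((f x.1, g x.1), (f x.2, g x.2)))
    have h3 := ih (Γ := Γ × Γ) (A := A × A) (F := F.sq) (E := E.sq) (f := Prod.map f f)
      (g := Prod.map g g)
    rw [h1, h2]
    refine h3.trans (and_congr Iff.rfl ?_)
    have h4 : (E.sq.shift 1) = (E.shift 1).sq := by
      unfold Fil.shift Fil.sq
      congr 1
    rw [h4]
    exact Iff.rfl

end Basic

end Pool.Agent.BBX
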