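import Pool.Agent.BBX.Mono
import Pool.Agent.BBN.Coset

/-!
The density theorem for finite sets of words on cosets.
-/

namespace Pool.Agent.BBX

open scoped commutatorElement
open Pool.Agent.BBG
open Pool.Agent.BBN

universe u

lemma mShape_sub (c : ℕ) (G : Type u) [Group G] : (mShape c).sub G =
    ⁅(⊤ : Subgroup G).lowerCentralSeries c, (⊤ : Subgroup G).lowerCentralSeries c⁆ := by
  change ⁅(lcsShape c).sub G, (lcsShape c).sub G⁆ = _
  rw [lcsShape_sub]

theorem coset_fam (d c k : ℕ) (W : Finset (FreeGroup (Fin k))) :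
    ∃ C : ℕ, ∀ (G : Type u) [Group G] (H : Subgroup G) [H.Normal] [Finite H]
      [Group.IsSolvable H] (n : ℕ), Nat.card H ≤ 2 ^ n →
      ∀ (Y : Subgroup (Fin k → H)) (g : Fin k → G),
      (∀ (M : Subgroup H) [M.Normal],
        (∀ w ∈ W, ∀ h ∈ Y, FreeGroup.lift (fun i => g i * (h i : G)) w ∈ M.map H.subtype) →
        ∀ X : Subgroup (H ⧸ M), X ≤ ⁅(⊤ : Subgroup (H ⧸ M)).lowerCentralSeries c,
          (⊤ : Subgroup (H ⧸ M)).lowerCentralSeries c⁆ → Group.IsNilpotent X →
            X.lowerCentralSeries d = ⊥) →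
        (∀ w ∈ W, ∀ h ∈ Y, FreeGroup.lift (fun i => g i * (h i : G)) w = 1) ∨
          ∃ w ∈ W, Nat.card Y ≤ (n + 2) ^ C * Nat.card {h : Fin k → H //
              h ∈ Y ∧ FreeGroup.lift (fun i => g i * (h i : G)) w ≠ 1} := by
  classical
  let κ : Type := {w // w ∈ W}
  have hcw := fun w : κ => coset_word.{u} (w : FreeGroup (Fin k))
  choose ι hι V j hV using hcw
  obtain ⟨r, ⟨e⟩⟩ := Finite.exists_equiv_fin κ
  -- the words
  let I : Type := Σ w : κ, ι w
  have hI : Finite I := by
    have : ∀ w, Finite (ι w) := hι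
    exact inferInstance
  let emb : ∀ w : κ, ι w → I ⊕ ℕ := fun w i => Sum.inl ⟨w, i⟩
  let v : κ → FreeGroup (I ⊕ ℕ) := fun w =>
    FreeGroup.map (emb w) (V w) * FreeGroup.of (Sum.inr (e w : ℕ))
  obtain ⟨C, hC⟩ := mono_fam.{u} (ι := I) (κ := κ) d c v
  refine ⟨C, ?_⟩
  intro G _ H _ _ _ n hn Y g hyp
  have hP := fun w : κ => hV w G g
  choose P hP using hP
  by_cases hg : ∀ w : κ, FreeGroup.lift g (w : FreeGroup (Fin k)) ∈ H
  · -- the constants lie in the subgroup
    let p : I → Y →* H := fun i =>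
      ((MulAut.conjNormal (P i.1 i.2)).toMonoidHom : H →* H).comp
        ((Pi.evalMonoidHom (fun _ : Fin k => H) (j i.1 i.2)).comp Y.subtype)
    let a : ℕ → H := fun m => if h : m < r then
      (⟨FreeGroup.lift g ((e.symm ⟨m, h⟩ : κ) : FreeGroup (Fin k)), hg _⟩ : H) else 1
    have ha : ∀ w : κ, a (e w : ℕ) = ⟨FreeGroup.lift g (w : FreeGroup (Fin k)), hg w⟩ := by
      intro w
      have h1 : a (e w : ℕ) = (⟨FreeGroup.lift g
          ((e.symm ⟨(e w : ℕ), (e w).2⟩ : κ) : FreeGroup (Fin k)), hg _⟩ : H) :=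
        dif_pos (e w).2
      rw [h1]
      apply Subtype.ext
      have h2 : e.symm ⟨(e w : ℕ), (e w).2⟩ = w := e.symm_apply_apply w
      change FreeGroup.lift g ((e.symm ⟨(e w : ℕ), (e w).2⟩ : κ) : FreeGroup (Fin k)) =
        FreeGroup.lift g (w : FreeGroup (Fin k))
      rw [h2]
    have hval : ∀ (w : κ) (h : Y), ((wv p h a (v w) : H) : G) =
        FreeGroup.lift (fun i => g i * (h.1 i : G)) (w : FreeGroup (Fin k)) := by
      intro w h
      rw [hP w (fun i => (h.1 i : G)), map_mul, wv_inr, Subgroup.coe_mul, ha]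
      congr 1
      have : (H.subtype.comp (wv p h a)).comp (FreeGroup.map (emb w)) =
          FreeGroup.lift (fun i => P w i * (h.1 (j w i) : G) * (P w i)⁻¹) := by
        apply FreeGroup.ext_hom
        intro i
        simp [p, emb]
      exact DFunLike.congr_fun this (V w)
    have hiff : ∀ (w : κ) (h : Y), wv p h a (v w) = 1 ↔
        FreeGroup.lift (fun i => g i * (h.1 i : G)) (w : FreeGroup (Fin k)) = 1 := by
      intro w h
      rw [← hval w h, OneMemClass.coe_eq_one]
    rcases hC H Y p n a hn (by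
      intro M _ hM X hX hXn
      rw [mShape_sub] at hX
      refine hyp M ?_ X hX hXn
      intro w hw h hh
      rw [← hval ⟨w, hw⟩ ⟨h, hh⟩]
      exact Subgroup.mem_map_of_mem H.subtype (hM ⟨w, hw⟩ ⟨h, hh⟩)) with h1 | ⟨w, h1⟩
    · left
      intro w hw h hh
      exact (hiff ⟨w, hw⟩ ⟨h, hh⟩).mp (h1 ⟨w, hw⟩ ⟨h, hh⟩)
    · right
      refine ⟨w, w.2, h1.trans (Nat.mul_le_mul_left _ ?_)⟩
      refine Nat.card_le_card_of_injective (fun x => ⟨x.1.1, x.1.2, ?_⟩) ?_
      · intro hx
        exact x.2 ((hiff w x.1).mpr hx)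
      · intro x y hxy
        apply Subtype.ext
        apply Subtype.ext
        have := congrArg Subtype.val hxy
        exact this
  · -- some constant does not lie in the subgroup: its word has no trivial value
    right
    push Not at hg
    obtain ⟨w, hw⟩ := hg
    refine ⟨w, w.2, ?_⟩
    have hne : ∀ h : Fin k → H,
        FreeGroup.lift (fun i => g i * (h i : G)) (w : FreeGroup (Fin k)) ≠ 1 := by
      intro h h1
      apply hw
      rw [hP w (fun i => (h i : G))] at h1
      have h2 : FreeGroup.lift (fun i => P w i * (h (j w i) : G) * (P w i)⁻¹) (V w) ∈ H := by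
        have : (⊤ : Subgroup (FreeGroup (ι w))) ≤
            H.comap (FreeGroup.lift (fun i => P w i * (h (j w i) : G) * (P w i)⁻¹)) := by
          rw [← FreeGroup.closure_range_of, Subgroup.closure_le]
          rintro _ ⟨i, rfl⟩
          change FreeGroup.lift _ (FreeGroup.of i) ∈ H
          rw [FreeGroup.lift_apply_of]
          exact (inferInstance : H.Normal).conj_mem _ (h (j w i)).2 _
        exact this (Subgroup.mem_top _)
      rw [eq_inv_of_mul_eq_one_right h1]
      exact H.inv_mem h2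
    calc Nat.card Y ≤ Nat.card
          {h : Fin k → H // h ∈ Y ∧
            FreeGroup.lift (fun i => g i * (h i : G)) (w : FreeGroup (Fin k)) ≠ 1} :=
          Nat.card_le_card_of_injective (fun h => ⟨h.1, h.2, hne h.1⟩) (fun x y hxy => by
            have := congrArg Subtype.val hxy
            exact Subtype.ext this)
      _ ≤ _ := Nat.le_mul_of_pos_left _ (by positivity)

end Pool.Agent.BBX
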