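import Pool.Agent.BBX.Defs

/-!
# The Frattini argument (difficulty 2)

`frattini`: `P`, `R` normal in the finite group `G`, `P` nilpotent, `D` a complement of `P` in `R`
of coprime order. Then `G = P * N_G(D)`.

PROOF. Let `g ∈ G`, `D' = g D g⁻¹`. Again `D' ≤ R`, every element of `R` is a product `u * y`
with `u ∈ P`, `y ∈ D'` (conjugate the given decomposition of `g⁻¹ x g`), uniquely, because
`P ∩ D' = 1` (the orders are coprime: an element of `P ∩ D'` has order dividing
`card P` and `card D' = card D`). For `d ∈ D` write `d = x * y` with `x ∈ P`, `y ∈ D'` and put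
`f d = x⁻¹ ∈ P`, so that `f d * d ∈ D'`. `D` acts on `P` by conjugation (use e.g. `MulAut.conjNormal`
restricted to `D`; `MulDistribMulAction.compHom` or a `let` instance as in
`Pool.Agent.BBN.exists_conj`), and
`(f d * d) * (f d' * d') = f d * (d * f d' * d⁻¹) * (d * d') ∈ D'`, hence
`f (d * d') = f d * d • f d'` by uniqueness. By `h1_trivial` (applied to the groups `D` and `P`)
there is `v ∈ P` with `f d = v * (d * v * d⁻¹)⁻¹`, i.e. `f d * d = v * d * v⁻¹ ∈ D'` for all
`d ∈ D`. So `v D v⁻¹ ≤ g D g⁻¹` and, both being finite of the same order, `v D v⁻¹ = g D g⁻¹`: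
`v⁻¹ * g` normalizes `D`. Take `u = v`, `n = v⁻¹ * g`. (`Nil c P` for a subgroup `P` means that the
group `↥P` is nilpotent of class `≤ c`.)
-/

namespace Pool.Agent.BBX

open scoped commutatorElement
open Pool.Agent.BBN

universe u

/-- an element of `P ∩ D` is trivial -/
lemma frat_inter {G : Type u} [Group G] [Finite G] {P D : Subgroup G}
    (hco : Nat.Coprime (Nat.card D) (Nat.card P)) {w : G} (hP : w ∈ P) (hD : w ∈ D) : w = 1 := by
  have h1 : orderOf w ∣ Nat.card P := Subgroup.orderOf_dvd_natCard P hP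
  have h2 : orderOf w ∣ Nat.card D := Subgroup.orderOf_dvd_natCard D hD
  have h3 : orderOf w ∣ 1 := by
    have := Nat.dvd_gcd h2 h1
    rwa [hco.gcd_eq_one] at this
  exact orderOf_eq_one_iff.1 (Nat.dvd_one.1 h3)

theorem frattini {G : Type u} [Group G] [Finite G] (P R D : Subgroup G) [P.Normal] [R.Normal]
    {c : ℕ} (hP : Nil c P) (hDR : D ≤ R)
    (hR : ∀ x ∈ R, ∃ u ∈ P, ∃ y ∈ D, x = u * y)
    (hco : Nat.Coprime (Nat.card D) (Nat.card P)) :
    ∀ g : G, ∃ u ∈ P, ∃ n ∈ Subgroup.normalizer (D : Set G), g = u * n := by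
  intro g
  let inst : MulDistribMulAction D P :=
    MulDistribMulAction.compHom P ((MulAut.conjNormal (H := P)).comp D.subtype)
  have hact : ∀ (d : D) (v : P), ((d • v : P) : G) = d * v * (d : G)⁻¹ := fun d v =>
    MulAut.conjNormal_apply (H := P) (d : G) v
  have hex : ∀ d : D, ∃ (x : P) (y : D), (x : G) * d = g * y * g⁻¹ := by
    intro d
    have h1 : g⁻¹ * (d : G) * g ∈ R := by
      have := (inferInstance : R.Normal).conj_mem (d : G) (hDR d.2) g⁻¹
      rwa [inv_inv] at this
    obtain ⟨u, hu, y, hy, he⟩ := hR _ h1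
    have hgu : g * u * g⁻¹ ∈ P := (inferInstance : P.Normal).conj_mem u hu g
    refine ⟨⟨(g * u * g⁻¹)⁻¹, P.inv_mem hgu⟩, ⟨y, hy⟩, ?_⟩
    show (g * u * g⁻¹)⁻¹ * (d : G) = g * y * g⁻¹
    have h2 : (d : G) = g * (u * y) * g⁻¹ := by rw [← he]; group
    rw [h2]
    group
  choose f y hf using hex
  have hcr : ∀ d d' : D, f (d * d') = f d * d • f d' := by
    intro d d'
    have h1 : ((f d * d • f d' : P) : G) * ((d * d' : D) : G) = g * ((y d * y d' : D) : G) * g⁻¹ := by
      have e1 : ((f d * d • f d' : P) : G) = (f d : G) * ((d : G) * (f d' : G) * (d : G)⁻¹) := by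
        rw [Subgroup.coe_mul, hact]
      rw [e1, Subgroup.coe_mul, Subgroup.coe_mul]
      calc (f d : G) * ((d : G) * (f d' : G) * (d : G)⁻¹) * ((d : G) * (d' : G))
          = ((f d : G) * d) * ((f d' : G) * d') := by group
        _ = (g * y d * g⁻¹) * (g * y d' * g⁻¹) := by rw [hf, hf]
        _ = g * ((y d : G) * (y d' : G)) * g⁻¹ := by group
    have h2 := hf (d * d')
    -- the quotient
    set a : G := ((f d * d • f d' : P) : G) with ha
    set b : G := (f (d * d') : G) with hb
    have h3 : b * a⁻¹ = g * ((y (d * d') : G) * ((y d * y d' : D) : G)⁻¹) * g⁻¹ := by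
      have e1 : b = g * (y (d * d') : G) * g⁻¹ * ((d * d' : D) : G)⁻¹ := by rw [← h2]; group
      have e2 : a = g * ((y d * y d' : D) : G) * g⁻¹ * ((d * d' : D) : G)⁻¹ := by rw [← h1]; group
      rw [e1, e2]
      group
    have h4 : (y (d * d') : G) * ((y d * y d' : D) : G)⁻¹ ∈ P := by
      have e1 : (y (d * d') : G) * ((y d * y d' : D) : G)⁻¹ = g⁻¹ * (b * a⁻¹) * g⁻¹⁻¹ := by
        rw [h3]; group
      rw [e1]
      exact (inferInstance : P.Normal).conj_mem _ (P.mul_mem (f (d * d')).2 (P.inv_mem (f d * d • f d' : P).2)) _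
    have h5 : (y (d * d') : G) * ((y d * y d' : D) : G)⁻¹ = 1 :=
      frat_inter hco h4 (D.mul_mem (y (d * d')).2 (D.inv_mem (y d * y d' : D).2))
    rw [h5, mul_one, mul_inv_cancel] at h3
    exact Subtype.ext (mul_inv_eq_one.1 h3)
  obtain ⟨v, hv⟩ := h1_trivial hP hco f hcr
  have hconj : ∀ d : D, (v : G) * d * (v : G)⁻¹ = g * y d * g⁻¹ := by
    intro d
    rw [← hf d, hv d, Subgroup.coe_mul, Subgroup.coe_inv, hact]
    group
  set n : G := (v : G)⁻¹ * g with hn
  have hmap : ∀ d : D, n⁻¹ * (d : G) * n = y d := by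
    intro d
    have h1 := hconj d
    have e1 : n⁻¹ * (d : G) * n = g⁻¹ * ((v : G) * d * (v : G)⁻¹) * g := by rw [hn]; group
    rw [e1, h1]
    group
  have hyinj : Function.Injective y := by
    intro d d' h
    have h1 := hmap d
    rw [h, ← hmap d'] at h1
    exact Subtype.ext (mul_left_cancel (mul_right_cancel h1))
  have hysurj : Function.Surjective y := Finite.surjective_of_injective hyinj
  refine ⟨v, v.2, n, ?_, by rw [hn]; group⟩
  rw [Subgroup.mem_normalizer_iff]
  intro h
  constructor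
  · intro hh
    obtain ⟨d, hd⟩ := hysurj ⟨h, hh⟩
    have h1 := hmap d
    rw [hd] at h1
    have h2 : n * h * n⁻¹ = (d : G) := by
      have : h = n⁻¹ * (d : G) * n := h1.symm
      rw [this]; group
    rw [h2]
    exact d.2
  · intro hh
    have h1 := hmap ⟨n * h * n⁻¹, hh⟩
    have h2 : n⁻¹ * (n * h * n⁻¹) * n = h := by group
    have h3 : h = ((y ⟨n * h * n⁻¹, hh⟩ : D) : G) := by rw [← h1]; exact h2.symm
    rw [h3]
    exact (y _).2

end Pool.Agent.BBX
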