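import Pool.Agent.BBX.Core

/-!
# The lemma of Hall and Higman (difficulty 3)

`hall_higman`. PROOF. Let `C = {x ∈ K | x commutes with all elements of Q}` (`K ⊓ centralizer Q`),
normal in `G`. Suppose `C ≰ Q`. Apply `solv_step` to `Q < Q ⊔ C`: there is a normal `A` with
`Q < A ≤ Q ⊔ C`. First alternative: every `x ∈ A` has a power `x ^ p ^ k ∈ Q`, so `A` is a `p`-group
(`Q` is one), normal, inside `K` (`Q ≤ K`, `C ≤ K`), hence `A ≤ Q` by `hQ`, contradiction.
Second alternative: `Q.relIndex A` is coprime to `p`. Let `B = A ⊓ C`, normal in `G`. Since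
`Q ≤ A ≤ Q ⊔ C` one has `A = Q ⊔ B` (Dedekind). `B ⊓ Q` is a central `p`-subgroup of `B`, and
its index in `B` equals `Q.relIndex A` (or: divides it), which is coprime to `p`. Let
`E = {x ∈ B | (orderOf x).Coprime p}`. CLAIM: `E` is a subgroup. By Schur and Zassenhaus
(`Subgroup.exists_right_complement'_of_coprime` in the group `B`) there is a complement `E'` of
`B ⊓ Q` in `B`, of order coprime to `p`; `E' ⊆ E`; and every `x ∈ B` is `q * y` with
`q ∈ B ⊓ Q` central in `B`, `y ∈ E'`; if `orderOf x` is coprime to `p`, then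
`1 = x ^ (orderOf x * card E') = q ^ (orderOf x * card E')` and `q` has order a power of `p`, so
`q = 1`. Thus `E = E'` is a subgroup; it is invariant under conjugation by `G` because the order of
an element is; its order is coprime to `p`, it is inside `K`, so `E = ⊥` by `h1`. Therefore
`B ≤ Q` and `A = Q ⊔ B = Q`, contradiction.
-/

namespace Pool.Agent.BBX

open scoped commutatorElement
open Pool.Agent.BBN

universe u v

/-- A `p`-element whose order divides a number prime to `p` is trivial. -/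
theorem HallH_one {G : Type u} [Group G] (p : ℕ) [hp : Fact p.Prime] {n : G} {m : ℕ}
    (h1 : ∃ k : ℕ, n ^ p ^ k = 1) (h2 : n ^ m = 1) (h3 : m.Coprime p) : n = 1 := by
  obtain ⟨k, hk⟩ := h1
  have h4 : orderOf n ∣ p ^ k := orderOf_dvd_of_pow_eq_one hk
  have h5 : orderOf n ∣ m := orderOf_dvd_of_pow_eq_one h2
  have h6 : m.Coprime (p ^ k) := h3.pow_right k
  have h7 : orderOf n = 1 := Nat.eq_one_of_dvd_coprimes h6 h5 h4
  exact orderOf_eq_one_iff.1 h7

/-- A central normal `p`-subgroup of index prime to `p` has a complement consisting of the elements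
of order prime to `p`. -/
theorem HallH_compl {B : Type u} [Group B] [Finite B] (p : ℕ) [hp : Fact p.Prime]
    (N : Subgroup B) [N.Normal] (hN : IsPGroup p N) (hc : ∀ n ∈ N, ∀ b : B, Commute n b)
    (hi : N.index.Coprime p) :
    ∃ E : Subgroup B, Subgroup.IsComplement' N E ∧ (Nat.card E).Coprime p ∧
      ∀ x : B, x ∈ E ↔ (orderOf x).Coprime p := by
  have h1 : Nat.Coprime (Nat.card N) N.index := by
    obtain ⟨k, hk⟩ := IsPGroup.iff_card.1 hN
    rw [hk]
    exact hi.symm.pow_left k
  obtain ⟨E, hE⟩ := Subgroup.exists_right_complement'_of_coprime h1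
  have hcard : (Nat.card E).Coprime p := by
    rw [← hE.symm.index_eq_card]
    exact hi
  refine ⟨E, hE, hcard, fun x => ⟨fun hx => ?_, fun hx => ?_⟩⟩
  · have h2 : orderOf x ∣ Nat.card E := by
      have h3 : (⟨x, hx⟩ : E) ^ Nat.card E = 1 := pow_card_eq_one'
      exact orderOf_dvd_of_pow_eq_one (congrArg Subtype.val h3)
    exact Nat.Coprime.coprime_dvd_left h2 hcard
  · obtain ⟨⟨n, y⟩, hxy⟩ := hE.2 x
    change (n : B) * (y : B) = x at hxy
    have h2 : (y : B) ^ Nat.card E = 1 := by
      have h3 : y ^ Nat.card E = 1 := pow_card_eq_one'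
      exact congrArg Subtype.val h3
    have h4 : (n : B) ^ (orderOf x * Nat.card E) = 1 := by
      have h5 : x ^ (orderOf x * Nat.card E) = 1 := by
        rw [pow_mul, pow_orderOf_eq_one, one_pow]
      rw [← hxy, (hc n n.2 y).mul_pow] at h5
      have h6 : (y : B) ^ (orderOf ((n : B) * y) * Nat.card E) = 1 := by
        rw [mul_comm, pow_mul, h2, one_pow]
      rw [h6, mul_one, hxy] at h5
      exact h5
    have h7 : (n : B) = 1 := by
      refine HallH_one p ?_ h4 (Nat.Coprime.mul_left hx hcard)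
      obtain ⟨k, hk⟩ := hN n
      exact ⟨k, congrArg Subtype.val hk⟩
    rw [← hxy, h7, one_mul]
    exact y.2

theorem hall_higman {G : Type u} [Group G] [Finite G] [Group.IsSolvable G] (p : ℕ)
    [Fact p.Prime] (K Q : Subgroup G) (hK : K.Normal) (hQn : Q.Normal)
    (h1 : ∀ Y : Subgroup G, Y.Normal → Y ≤ K → (Nat.card Y).Coprime p → Y = ⊥)
    (hQK : Q ≤ K) (hQp : IsPGroup p Q)
    (hQ : ∀ T : Subgroup G, T.Normal → T ≤ K → IsPGroup p T → T ≤ Q) {x : G} (hx : x ∈ K)
    (hc : ∀ u ∈ Q, x * u = u * x) : x ∈ Q := by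
  have := hK
  have := hQn
  let C : Subgroup G := K ⊓ Subgroup.centralizer (Q : Set G)
  have hCn : C.Normal := inferInstanceAs (K ⊓ Subgroup.centralizer (Q : Set G)).Normal
  have hCK : C ≤ K := inf_le_left
  have hCc : ∀ c ∈ C, ∀ u ∈ Q, u * c = c * u := by
    intro c hcC u hu
    exact Subgroup.mem_centralizer_iff.1 hcC.2 u hu
  suffices hCQ : C ≤ Q by
    exact hCQ ⟨hx, Subgroup.mem_centralizer_iff.2 fun u hu => (hc u hu).symm⟩
  by_contra hCQ
  have hlt : Q < Q ⊔ C := lt_of_le_of_ne le_sup_left fun h => hCQ (by rw [h]; exact le_sup_right)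
  have hQCn : (Q ⊔ C).Normal := Subgroup.sup_normal Q C
  obtain ⟨A, hAn, hQA, hAQC, hA⟩ := solv_step p Q (Q ⊔ C) hlt
  have hAK : A ≤ K := hAQC.trans (sup_le hQK hCK)
  rcases hA with hA | hA
  · have hAp : IsPGroup p A := by
      intro g
      obtain ⟨k, hk⟩ := hA g.1 g.2
      obtain ⟨l, hl⟩ := hQp ⟨g.1 ^ p ^ k, hk⟩
      refine ⟨k + l, Subtype.ext ?_⟩
      have h2 : (g.1 ^ p ^ k) ^ p ^ l = 1 := congrArg Subtype.val hl
      change g.1 ^ p ^ (k + l) = 1
      rw [pow_add, pow_mul]
      exact h2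
    exact hQA.not_ge (hQ A hAn hAK hAp)
  · let B : Subgroup G := A ⊓ C
    have hBn : B.Normal := inferInstanceAs (A ⊓ C).Normal
    have hBA : B ≤ A := inf_le_left
    have hBC : B ≤ C := inf_le_right
    have hAB : A = Q ⊔ B := by
      apply le_antisymm
      · intro a ha
        obtain ⟨q, hq, c, hcC, hqc⟩ := Subgroup.mem_sup_of_normal_left.1 (hAQC ha)
        have hcA : c ∈ A := by
          have e1 : c = q⁻¹ * a := by rw [← hqc, inv_mul_cancel_left]
          rw [e1]
          exact A.mul_mem (A.inv_mem (hQA.le hq)) ha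
        rw [← hqc]
        exact Subgroup.mul_mem_sup hq ⟨hcA, hcC⟩
      · exact sup_le hQA.le hBA
    have hrel : (Q.subgroupOf B).index.Coprime p := by
      change (Q.relIndex B).Coprime p
      rw [hAB, Subgroup.relIndex_sup_left] at hA
      exact hA
    have hNp : IsPGroup p (Q.subgroupOf B) := by
      intro g
      obtain ⟨k, hk⟩ := hQp ⟨g.1.1, g.2⟩
      refine ⟨k, Subtype.ext (Subtype.ext ?_)⟩
      have h2 : g.1.1 ^ p ^ k = 1 := congrArg Subtype.val hk
      exact h2
    have hNc : ∀ n ∈ Q.subgroupOf B, ∀ b : B, Commute n b := by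
      intro n hn b
      exact Subtype.ext (hCc b.1 (hBC b.2) n.1 hn)
    obtain ⟨E, hE, hEcard, hEmem⟩ := HallH_compl p (Q.subgroupOf B) hNp hNc hrel
    have hEn : (E.map B.subtype).Normal := by
      refine ⟨?_⟩
      rintro _ ⟨y, hy, rfl⟩ g
      have h2 : g * (y : G) * g⁻¹ ∈ B := hBn.conj_mem y.1 y.2 g
      refine ⟨⟨g * (y : G) * g⁻¹, h2⟩, ?_, rfl⟩
      have h3 : orderOf (⟨g * (y : G) * g⁻¹, h2⟩ : B) = orderOf y := by
        rw [← Subgroup.orderOf_coe, ← Subgroup.orderOf_coe]
        exact orderOf_injective (MulAut.conj g).toMonoidHom (MulAut.conj g).injective y.1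
      change (⟨g * (y : G) * g⁻¹, h2⟩ : B) ∈ E
      rw [hEmem, h3, ← hEmem]
      exact hy
    have hEK : E.map B.subtype ≤ K := by
      rintro _ ⟨y, -, rfl⟩
      exact hCK (hBC y.2)
    have hEc : (Nat.card (E.map B.subtype)).Coprime p := by
      rw [Subgroup.card_map_of_injective (Subgroup.subtype_injective B)]
      exact hEcard
    have hE0 := h1 _ hEn hEK hEc
    have hE1 : E = ⊥ := by
      rw [Subgroup.map_eq_bot_iff_of_injective E (Subgroup.subtype_injective B)] at hE0
      exact hE0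
    rw [hE1, Subgroup.isComplement'_bot_right, Subgroup.subgroupOf_eq_top] at hE
    rw [hAB, sup_eq_left.2 hE] at hQA
    exact lt_irrefl _ hQA

end Pool.Agent.BBX
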