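import Pool.Agent.BBN.Coset

/-!
Words on subgroups of the holomorph of a nilpotent group.
-/

namespace Pool.Agent.BBX

open Pool.Agent.BBG
open Pool.Agent.BBN

universe u

/-- The holomorph. -/
abbrev Hol (N : Type u) [Group N] : Type u := N ⋊[MonoidHom.id (MulAut N)] MulAut N

lemma card_mulAut {N : Type u} [Group N] [Finite N] {e : ℕ} (he : Nat.card N ≤ 2 ^ e) :
    Nat.card (MulAut N) ≤ 2 ^ (e * e) := by
  obtain ⟨b, hb⟩ := exists_gen_top he
  have hinj : Function.Injective (fun (φ : MulAut N) (i : Fin e) => φ (b i)) := by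
    intro φ ψ h
    have h1 : (φ.toMonoidHom : N →* N) = ψ.toMonoidHom := by
      apply MonoidHom.eq_of_eqOn_dense hb
      rintro _ ⟨i, rfl⟩
      exact congrFun h i
    ext x
    exact DFunLike.congr_fun h1 x
  refine (Nat.card_le_card_of_injective _ hinj).trans ?_
  rw [Nat.card_pi, Finset.prod_const, Finset.card_univ, Fintype.card_fin, pow_mul]
  exact Nat.pow_le_pow_left he e

instance (N : Type u) [Group N] [Finite N] : Finite (Hol N) := by
  have : Finite (MulAut N) := Finite.of_injective (fun φ : MulAut N => (φ : N → N))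
    DFunLike.coe_injective
  exact Finite.of_equiv (N × MulAut N) (SemidirectProduct.equivProd).symm

theorem hol_density (d k : ℕ) (w : FreeGroup (Fin k)) :
    ∃ C : ℕ, ∀ (N : Type u) [Group N] [Finite N] (e : ℕ), Nil d N → Nat.card N ≤ 2 ^ e →
      ∀ (Y : Subgroup (Fin k → Hol N)) (g : Fin k → Hol N),
        (∀ h ∈ Y, FreeGroup.lift (fun i => g i * h i) w = 1) ∨
          Nat.card Y ≤ (e + 2) ^ C *
            Nat.card {h : Fin k → Hol N // h ∈ Y ∧ FreeGroup.lift (fun i => g i * h i) w ≠ 1} := by
  let θ : FreeGroup (Fin k) →* FreeGroup (Fin k ⊕ Fin k) :=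
    FreeGroup.lift fun i => FreeGroup.of (Sum.inr i) * FreeGroup.of (Sum.inl i)
  obtain ⟨C, hC⟩ := dens_U.{u} (ι := Fin k) (κ := Fin k) d Shape.leaf (θ w) (Subgroup.mem_top _)
  refine ⟨2 * C, ?_⟩
  intro N _ _ e hN he Y g
  letI : MulDistribMulAction (Hol N) N :=
    MulDistribMulAction.compHom N (SemidirectProduct.rightHom : Hol N →* MulAut N)
  let δ : Z1 (Shape.leaf.sub (Hol N)) N := ⟨fun g => g.left, by
    refine ⟨fun g _ g' _ => rfl, fun g hg => absurd (Subgroup.mem_top g) hg⟩⟩
  have hcard : Nat.card (Hol N) ≤ 2 ^ (e * e + e) := by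
    rw [SemidirectProduct.card, pow_add, mul_comm]
    exact Nat.mul_le_mul (card_mulAut he) he
  let p : Fin k → Y →* Hol N := fun i =>
    (Pi.evalMonoidHom (fun _ : Fin k => Hol N) i).comp Y.subtype
  have hval : ∀ h : Y, wv p h g (θ w) = FreeGroup.lift (fun i => g i * h.1 i) w := by
    intro h
    have : (wv p h g).comp θ = FreeGroup.lift (fun i => g i * h.1 i) := by
      apply FreeGroup.ext_hom
      intro i
      simp [θ, p]
    exact DFunLike.congr_fun this w
  rcases hC (Hol N) Y p N δ (e * e + e) e hN (by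
    intro k _ h1 h2
    apply SemidirectProduct.ext
    · exact h2
    · ext v
      exact h1 v) hcard he g with h | h
  · left
    intro x hx
    rw [← hval ⟨x, hx⟩]
    exact h ⟨x, hx⟩
  · right
    refine h.trans (Nat.mul_le_mul ?_ ?_)
    · rw [pow_mul]
      apply Nat.pow_le_pow_left
      nlinarith
    · refine Nat.card_le_card_of_injective (fun x => ⟨x.1.1, x.1.2, ?_⟩) ?_
      · rw [← hval x.1]
        exact x.2
      · intro x y hxy
        apply Subtype.ext
        apply Subtype.ext
        have := congrArg Subtype.val hxy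
        exact this

end Pool.Agent.BBX
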