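import Pool.Agent.BBX.Sit

/-!
# Inheritance, part A (difficulty 3)

See `Sit` in `Sit.lean`: think of `P = O_p(K)`, `R/P = O_{p'}(K/P)`, `R = P D`, `G = P U`,
`U = N_G(D)`, `π : U → G₁ = U/D`. Write `K₁ = π(K ∩ U)`, `Z₁ = π(Z)`.

`inh_comap`. PROOF. If `π n = π k` with `k ∈ K ∩ U` then `n = k y` with `y ∈ D ≤ R ≤ K`.

`inh_h1`. PROOF. Let `S = Y.comap π` (a normal subgroup of `U` with `D ≤ S ≤ K`, by `inh_comap`),
`S' = S.map U.subtype`. Its order is `card Y * card D` (surjectivity; e.g. the surjection `S → Y`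
with kernel `D.subgroupOf U`), coprime to `p`. Let `R' = P ⊔ S'`. `R'` is normal in `G`: `U`
normalizes `P` and `S'`, `P ≤ R'` normalizes `R'`, and `G = P U`. `R ≤ R'` because `R = P D` and
`D ≤ S'`. `R' ≤ K`. `P.relIndex R'` divides `card S'` (`P.relIndex (P ⊔ S') = P.relIndex S'`-type
lemma, `Subgroup.relIndex_sup_left` or similar, and `Subgroup.relIndex_dvd_card`), so it is
coprime to `p` and `R' = R` by `hRmax`. Now let `y ∈ Y`, `y = π s`, `s ∈ S`. `s ∈ R' = R`, so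
`s = u * t`, `u ∈ P`, `t ∈ D ≤ S'`, hence `u ∈ S' ∩ P`, whose order divides `card S'` (coprime to
`p`) and is a power of `p`: `u = 1`. So `s ∈ D` and `y = π s = 1`.
-/

namespace Pool.Agent.BBX

open scoped commutatorElement
open Pool.Agent.BBN

universe u v

variable {G : Type u} [Group G] {G₁ : Type u} [Group G₁] {p : ℕ}
  {K P R D Z U : Subgroup G} {π : U →* G₁}

theorem inh_comap (S : Sit p K P R D Z U π) :
    ((K.subgroupOf U).map π).comap π = K.subgroupOf U := by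
  apply le_antisymm
  · intro n hn
    rw [Subgroup.mem_comap, Subgroup.mem_map] at hn
    obtain ⟨k, hk, he⟩ := hn
    have h1 : π (k⁻¹ * n) = 1 := by rw [map_mul, map_inv, he, inv_mul_cancel]
    have h2 := (S.hker _).1 h1
    have h3 : ((k⁻¹ * n : U) : G) ∈ K := S.hRK (S.hDR h2)
    rw [Subgroup.mem_subgroupOf] at hk ⊢
    have h4 : (n : G) = (k : G) * ((k⁻¹ * n : U) : G) := by simp
    rw [h4]
    exact K.mul_mem hk h3
  · exact Subgroup.le_comap_map _ _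

/-- an element of a `p`-subgroup whose order is coprime to `p` is trivial -/
theorem InhA_one [Fact p.Prime] {u : G} {k : ℕ} (h : u ^ p ^ k = 1) {m : ℕ} (hm : m.Coprime p)
    (h' : u ^ m = 1) : u = 1 := by
  have h1 : orderOf u ∣ p ^ k := orderOf_dvd_of_pow_eq_one h
  have h2 : orderOf u ∣ m := orderOf_dvd_of_pow_eq_one h'
  have h3 : (p ^ k).Coprime m := Nat.Coprime.pow_left k hm.symm
  have h4 := Nat.Coprime.eq_one_of_dvd (h3.coprime_dvd_left h1) h2
  exact orderOf_eq_one_iff.1 h4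

theorem inh_h1 [Finite G] [Fact p.Prime] (S : Sit p K P R D Z U π) (Y : Subgroup G₁)
    (hY : Y.Normal) (hYK : Y ≤ (K.subgroupOf U).map π) (hYp : (Nat.card Y).Coprime p) :
    Y = ⊥ := by
  haveI := S.hP
  haveI : Finite G₁ := Finite.of_surjective π S.hπ
  have hTK : Y.comap π ≤ K.subgroupOf U := by
    rw [← inh_comap S]
    exact Subgroup.comap_mono hYK
  have hTn : (Y.comap π).Normal := hY.comap π
  -- membership
  have hmem : ∀ x : G, x ∈ (Y.comap π).map U.subtype ↔ ∃ h : x ∈ U, π ⟨x, h⟩ ∈ Y := by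
    intro x
    constructor
    · rintro ⟨t, ht, rfl⟩
      exact ⟨t.2, ht⟩
    · rintro ⟨h, h'⟩
      exact ⟨⟨x, h⟩, h', rfl⟩
  set S' : Subgroup G := (Y.comap π).map U.subtype with hS'
  have hDS : D ≤ S' := by
    intro y hy
    refine (hmem y).2 ⟨S.hDU hy, ?_⟩
    have h1 : π ⟨y, S.hDU hy⟩ = 1 := (S.hker _).2 hy
    rw [h1]
    exact Y.one_mem
  have hSK : S' ≤ K := by
    intro x hx
    obtain ⟨h, h'⟩ := (hmem x).1 hx
    exact hTK (show (⟨x, h⟩ : U) ∈ Y.comap π from h')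
  have hSn : ∀ n ∈ U, ∀ s ∈ S', n * s * n⁻¹ ∈ S' := by
    intro n hn s hs
    obtain ⟨h, h'⟩ := (hmem s).1 hs
    have h1 := hTn.conj_mem ⟨s, h⟩ h' ⟨n, hn⟩
    exact (hmem _).2 ⟨U.mul_mem (U.mul_mem hn h) (U.inv_mem hn), h1⟩
  have hpr : p.Prime := Fact.out
  have hSc : (Nat.card S').Coprime p := by
    rw [Nat.coprime_comm, Nat.Prime.coprime_iff_not_dvd hpr]
    intro hd
    obtain ⟨s, hs⟩ := exists_prime_orderOf_dvd_card' p hd
    have hsp : (s : G) ^ p = 1 := by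
      have h1 : s ^ p = 1 := by rw [← hs]; exact pow_orderOf_eq_one s
      have h2 := congrArg (fun x : S' => (x : G)) h1
      exact h2
    obtain ⟨h, h'⟩ := (hmem s).1 s.2
    have h3 : (π ⟨(s : G), h⟩) ^ p ^ 1 = 1 := by
      rw [pow_one, ← map_pow]
      have : (⟨(s : G), h⟩ : U) ^ p = 1 := Subtype.ext hsp
      rw [this, map_one]
    have h4 : (π ⟨(s : G), h⟩) ^ Nat.card Y = 1 := by
      have h5 : (⟨π ⟨(s : G), h⟩, h'⟩ : Y) ^ Nat.card Y = 1 := pow_card_eq_one'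
      exact congrArg (fun x : Y => (x : G₁)) h5
    have h6 := InhA_one h3 hYp h4
    have h7 : (s : G) ∈ D := (S.hker _).1 h6
    have h8 : (s : G) ^ Nat.card D = 1 := by
      have h5 : (⟨(s : G), h7⟩ : D) ^ Nat.card D = 1 := pow_card_eq_one'
      exact congrArg (fun x : D => (x : G)) h5
    have h9 : (s : G) = 1 := InhA_one (k := 1) (by rw [pow_one]; exact hsp) S.hDp h8
    have h10 : s = 1 := Subtype.ext h9
    rw [h10, orderOf_one] at hs
    exact hpr.one_lt.ne hs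
  have hsup : ∀ x : G, x ∈ P ⊔ S' ↔ ∃ u ∈ P, ∃ s ∈ S', x = u * s := by
    intro x
    rw [← SetLike.mem_coe, Subgroup.normal_mul, Set.mem_mul]
    constructor
    · rintro ⟨u, hu, s, hs, rfl⟩
      exact ⟨u, hu, s, hs, rfl⟩
    · rintro ⟨u, hu, s, hs, rfl⟩
      exact ⟨u, hu, s, hs, rfl⟩
  have hPl : P ≤ P ⊔ S' := le_sup_left
  have hSl : S' ≤ P ⊔ S' := le_sup_right
  have hRn : (P ⊔ S').Normal := by
    refine ⟨fun x hx g => ?_⟩
    obtain ⟨u, hu, s, hs, rfl⟩ := (hsup x).1 hx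
    obtain ⟨a, ha, n, hn, rfl⟩ := S.hPU g
    have e : a * n * (u * s) * (a * n)⁻¹ = ((a * n) * u * (a * n)⁻¹) * (a * (n * s * n⁻¹) * a⁻¹) := by group
    rw [e]
    refine (P ⊔ S').mul_mem (hPl (S.hP.conj_mem u hu _)) ?_
    exact (P ⊔ S').mul_mem ((P ⊔ S').mul_mem (hPl ha) (hSl (hSn n hn s hs))) (hPl (P.inv_mem ha))
  have hRR : R ≤ P ⊔ S' := by
    intro x hx
    obtain ⟨u, hu, y, hy, rfl⟩ := S.hdec x hx
    exact (P ⊔ S').mul_mem (hPl hu) (hSl (hDS hy))
  have hRK' : P ⊔ S' ≤ K := sup_le (S.hPR.trans S.hRK) hSK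
  have hidx : (P.relIndex (P ⊔ S')).Coprime p := by
    have h1 : P.relIndex (P ⊔ S') = P.relIndex S' := by
      rw [sup_comm]
      exact Subgroup.relIndex_sup_right ..
    rw [h1]
    exact hSc.coprime_dvd_left (Subgroup.relIndex_dvd_card _ _)
  have hR' := S.hRmax _ hRn hRR hRK' hidx
  rw [eq_bot_iff]
  intro y hy
  obtain ⟨s, rfl⟩ := S.hπ y
  have hs : (s : G) ∈ S' := (hmem s).2 ⟨s.2, hy⟩
  have hsR : (s : G) ∈ R := by
    rw [← hR']
    exact hSl hs
  obtain ⟨u, hu, t, ht, he⟩ := S.hdec _ hsR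
  have huS : u ∈ S' := by
    have h1 : u = (s : G) * t⁻¹ := by rw [he]; group
    rw [h1]
    exact S'.mul_mem hs (S'.inv_mem (hDS ht))
  obtain ⟨k, hk⟩ := S.hPp ⟨u, hu⟩
  have h1 : u ^ p ^ k = 1 := congrArg (fun x : P => (x : G)) hk
  have h2 : u ^ Nat.card S' = 1 := by
    have h5 : (⟨u, huS⟩ : S') ^ Nat.card S' = 1 := pow_card_eq_one'
    exact congrArg (fun x : S' => (x : G)) h5
  have h3 := InhA_one h1 hSc h2
  rw [h3, one_mul] at he
  rw [Subgroup.mem_bot]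
  refine (S.hker s).2 ?_
  rw [he]
  exact ht

end Pool.Agent.BBX
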