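import Pool.Agent.BBX.Defs
import Mathlib.GroupTheory.Sylow

/-!
# Lifting `p`-subgroups (difficulty 2)

`lift_p`. PROOF. Let `α' : A →* α.range` be the surjective corestriction, `S₀` any Sylow
`p`-subgroup of `A`. `S₀.mapSurjective` is a Sylow `p`-subgroup of `α.range` with underlying
subgroup `S₀.map α'`. `X₁` (as a subgroup of `α.range`) is a `p`-group, contained in some Sylow
`p`-subgroup (`IsPGroup.exists_le_sylow`), which is conjugate to the image of `S₀` by an element
`α' a` (`MulAction.exists_smul_eq`, pretransitivity of the action on Sylow subgroups). Take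
`S = a • S₀`.

`lift_p'`. PROOF. By `lift_p`, `Q ≤ S'.map β` for some `S'`, and `S' = a • S` for some `a` by
conjugacy of Sylow subgroups, so `Q ≤ β a (S.map β) (β a)⁻¹` and, conjugating by `(β a)⁻¹`
and using the invariance of `Q`, `Q ≤ S.map β`.
-/

namespace Pool.Agent.BBX

open scoped commutatorElement
open Pool.Agent.BBN

universe u v

theorem lift_p {A : Type u} {B : Type v} [Group A] [Finite A] [Group B] (p : ℕ) [Fact p.Prime]
    (α : A →* B) (X₁ : Subgroup B) (hX : X₁ ≤ α.range) (hp : IsPGroup p X₁) :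
    ∃ S : Sylow p A, X₁ ≤ (S : Subgroup A).map α := by
  classical
  have : Finite α.range := Finite.of_surjective _ α.rangeRestrict_surjective
  obtain ⟨S₀⟩ := (inferInstance : Nonempty (Sylow p A))
  have hX' : IsPGroup p (X₁.subgroupOf α.range) := by
    exact IsPGroup.of_injective hp (Subgroup.subgroupOfEquivOfLe hX).toMonoidHom
      (Subgroup.subgroupOfEquivOfLe hX).injective
  obtain ⟨T, hT⟩ := hX'.exists_le_sylow
  let S₁ : Sylow p α.range := S₀.mapSurjective α.rangeRestrict_surjective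
  obtain ⟨b, hb⟩ := MulAction.exists_smul_eq α.range S₁ T
  obtain ⟨a, rfl⟩ := α.rangeRestrict_surjective b
  refine ⟨a • S₀, ?_⟩
  intro x hx
  have h1 : (⟨x, hX hx⟩ : α.range) ∈ X₁.subgroupOf α.range := by
    rw [Subgroup.mem_subgroupOf]; exact hx
  have h2 := hT h1
  have h2' : (⟨x, hX hx⟩ : α.range) ∈ (T : Subgroup α.range) := h2
  rw [← hb] at h2'
  rw [Sylow.coe_subgroup_smul, Subgroup.mem_pointwise_smul_iff_inv_smul_mem] at h2'
  rw [Subgroup.mem_map]
  have h3 : ((MulAut.conj (α.rangeRestrict a))⁻¹ • (⟨x, hX hx⟩ : α.range)) ∈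
      (S₀ : Subgroup A).map α.rangeRestrict := h2'
  rw [Subgroup.mem_map] at h3
  obtain ⟨s, hs, hs'⟩ := h3
  refine ⟨a * s * a⁻¹, ?_, ?_⟩
  · rw [Sylow.coe_subgroup_smul, Subgroup.mem_pointwise_smul_iff_inv_smul_mem]
    rw [← map_inv, MulAut.smul_def, MulAut.conj_apply]
    convert hs using 1
    group
  · have h4 := congrArg Subtype.val hs'
    rw [← map_inv, MulAut.smul_def, MulAut.conj_apply] at h4
    simp only [MonoidHom.coe_rangeRestrict, inv_inv, Subgroup.coe_mul, Subgroup.coe_inv] at h4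
    rw [map_mul, map_mul, map_inv, h4]
    group

theorem lift_p' {A : Type u} {B : Type v} [Group A] [Finite A] [Group B] (p : ℕ) [Fact p.Prime]
    (β : A →* B) (Q : Subgroup B) (hQ : Q ≤ β.range) (hp : IsPGroup p Q)
    (hn : ∀ a : A, ∀ q ∈ Q, (β a)⁻¹ * q * β a ∈ Q) (S : Sylow p A) :
    Q ≤ (S : Subgroup A).map β := by
  classical
  obtain ⟨S', hS'⟩ := lift_p p β Q hQ hp
  obtain ⟨a, rfl⟩ := MulAction.exists_smul_eq A S S'
  intro x hx
  have h1 := hn a⁻¹ x hx
  rw [map_inv, inv_inv] at h1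
  have h2 := hS' h1
  rw [Subgroup.mem_map] at h2
  obtain ⟨s, hs, hs'⟩ := h2
  rw [Sylow.coe_subgroup_smul, Subgroup.mem_pointwise_smul_iff_inv_smul_mem,
    ← map_inv, MulAut.smul_def, MulAut.conj_apply] at hs
  rw [Subgroup.mem_map]
  refine ⟨_, hs, ?_⟩
  rw [map_mul, map_mul, hs', map_inv, map_inv, map_inv]
  group

end Pool.Agent.BBX
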