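import Pool.Agent.BBX.Sit
import Pool.Agent.BBX.Lift
import Pool.Agent.BBX.HallH

/-!
# Inheritance, part B (difficulty 3)

See `Sit` in `Sit.lean`: think of `P = O_p(K)`, `R/P = O_{p'}(K/P)`, `R = P D`, `G = P U`,
`U = N_G(D)`, `π : U → G₁ = U/D`. Write `K₁ = π(K ∩ U)`, `Z₁ = π(Z)`.

`inh_HHs`. PROOF. By hypothesis there is a normal `p`-subgroup `T ≤ K` with
`X.lowerCentralSeries (j+1) ≤ T` for all `p`-subgroups `X ≤ K`; `T ≤ P` by `hPmax`.
Let `q : G →* G ⧸ R`, `K' = K.map q` (normal). There is no nontrivial normal subgroup `Y ≤ K'` of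
`G ⧸ R` of order coprime to `p`: its preimage `Y'` satisfies `R ≤ Y' ≤ K`,
`P.relIndex Y' = P.relIndex R * R.relIndex Y'` (`Subgroup.relIndex_mul_relIndex`),
`R.relIndex Y' = card Y`, so `Y' = R` by `hRmax` and `Y = ⊥`. Take `Q` from `exists_core p K'`
(largest normal `p`-subgroup of `G ⧸ R` inside `K'`); by `hall_higman` an element of `K'` that
commutes with `Q` lies in `Q`. (`G ⧸ R` is solvable.)

Let `T₁ = π({n ∈ U | q n ∈ Q})` (`((Q.comap q).subgroupOf U).map π`). It is normal in `G₁`,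
inside `K₁` (`q n ∈ Q ≤ K'` implies `n ∈ K` because `R ≤ K`). It is a `p`-group: if `q n ∈ Q` then
`n ^ p ^ k ∈ R` for some `k`, `n ^ p ^ k = u * y` with `u ∈ P`, `y ∈ D ≤ U`, so `u ∈ P ∩ U`,
`π (n ^ p ^ k) = π u`, and `u ^ p ^ l = 1` for some `l`.

Let `X₁ ≤ K₁` be a `p`-subgroup. Let `A = ↥(K ⊓ U)`, `α : A →* G₁` the restriction of `π`
(range `K₁`), `β : A →* G ⧸ R` the restriction of `q` (range `K'`, since `G = P U`, `P ≤ K`,
`P ≤ R`). By `lift_p`, `X₁ ≤ S.map α` for a Sylow `p`-subgroup `S` of `A`. By `lift_p'`,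
`Q ≤ S.map β`. The image of `S` in `G` is a `p`-subgroup of `K`, so `S.lowerCentralSeries (j+1)`
is mapped into `P`: for `y ∈ S.lowerCentralSeries j` and `x ∈ S` the commutator `⁅y, x⁆` lies in
`S.lowerCentralSeries (j+1)`, so in `P ≤ R`, i.e. `β y` and `β x` commute. Hence `β y` commutes
with `Q ≤ S.map β` and `β y ∈ K'`, so `β y ∈ Q`, so `α y ∈ T₁`. Therefore
`X₁.lowerCentralSeries j ≤ (S.lowerCentralSeries j).map α ≤ T₁`.
-/

namespace Pool.Agent.BBX

open scoped commutatorElement
open Pool.Agent.BBN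

universe u v

variable {G : Type u} [Group G] {G₁ : Type u} [Group G₁] {p : ℕ}
  {K P R D Z U : Subgroup G} {π : U →* G₁}

theorem inh_HHs [Finite G] [Group.IsSolvable G] [Fact p.Prime]
    (S : Sit p K P R D Z U π) {j : ℕ} (h : HH K p (j + 2)) :
    HH ((K.subgroupOf U).map π) p (j + 1) := by
  classical
  obtain ⟨T, hTn, hTK, hTp, hX⟩ := h
  have hTP : T ≤ P := S.hPmax T hTn hTK hTp
  have hRn : R.Normal := S.hR
  have hKn : K.Normal := S.hK
  let q : G →* G ⧸ R := QuotientGroup.mk' R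
  have hq : Function.Surjective q := QuotientGroup.mk'_surjective R
  have hker : q.ker = R := QuotientGroup.ker_mk' R
  have hq1 : ∀ g : G, q g = 1 ↔ g ∈ R := fun g => by
    rw [← MonoidHom.mem_ker, hker]
  have hqK : (K.map q).comap q = K := Subgroup.comap_map_eq_self (by rw [hker]; exact S.hRK)
  have hK' : (K.map q).Normal := hKn.map q hq
  have hmemK : ∀ g : G, q g ∈ K.map q → g ∈ K := fun g hg => by
    rw [← hqK]; exact hg
  -- no normal `p'`-subgroup
  have h1 : ∀ Y : Subgroup (G ⧸ R), Y.Normal → Y ≤ K.map q → (Nat.card Y).Coprime p →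
      Y = ⊥ := by
    intro Y hYn hYK hYp
    have hmap : (Y.comap q).map q = Y := Subgroup.map_comap_eq_self_of_surjective hq Y
    have e1 : R ≤ Y.comap q := by
      intro r hr
      rw [Subgroup.mem_comap, (hq1 r).2 hr]
      exact Y.one_mem
    have e2 : Y.comap q ≤ K := by
      rw [← hqK]; exact Subgroup.comap_mono hYK
    have e3 : R.relIndex (Y.comap q) = Nat.card Y := by
      have hR' : R = (⊥ : Subgroup (G ⧸ R)).comap q := by
        rw [MonoidHom.comap_bot, hker]
      have e4 : ((⊥ : Subgroup (G ⧸ R)).comap q).relIndex (Y.comap q) = Nat.card Y := by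
        rw [Subgroup.relIndex_comap, hmap, Subgroup.relIndex_bot_left]
      rw [← hR'] at e4
      exact e4
    have e5 : P.relIndex R * R.relIndex (Y.comap q) = P.relIndex (Y.comap q) :=
      Subgroup.relIndex_mul_relIndex P R (Y.comap q) S.hPR e1
    have e6 : (P.relIndex (Y.comap q)).Coprime p := by
      rw [← e5, e3]
      exact Nat.Coprime.mul_left S.hRp hYp
    have e7 : Y.comap q = R := S.hRmax (Y.comap q) (hYn.comap q) e1 e2 e6
    rw [← hmap, e7, eq_bot_iff]
    rintro x hx
    obtain ⟨r, hr, rfl⟩ := Subgroup.mem_map.1 hx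
    rw [Subgroup.mem_bot]
    exact (hq1 r).2 hr
  obtain ⟨Q, hQn, hQK, hQp, hQ⟩ := exists_core p (K.map q)
  have hsol : Group.IsSolvable (G ⧸ R) := inferInstance
  -- elements of `U` mapped into `Q`
  have hK1 : ∀ n : U, q (n : G) ∈ Q → (n : G) ∈ K := fun n hn => hmemK _ (hQK hn)
  refine ⟨((Q.comap q).subgroupOf U).map π, ?_, ?_, ?_, ?_⟩
  · have : (Q.comap q).Normal := hQn.comap q
    have h2 : ((Q.comap q).subgroupOf U).Normal := this.subgroupOf U
    exact h2.map π S.hπ
  · apply Subgroup.map_mono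
    intro n hn
    rw [Subgroup.mem_subgroupOf] at hn ⊢
    exact hK1 n hn
  · rintro ⟨t, ht⟩
    rw [Subgroup.mem_map] at ht
    obtain ⟨n, hn, rfl⟩ := ht
    rw [Subgroup.mem_subgroupOf, Subgroup.mem_comap] at hn
    obtain ⟨k, hk⟩ := hQp ⟨q n, hn⟩
    have hk' : q ((n : G) ^ p ^ k) = 1 := by
      have := congrArg Subtype.val hk
      simpa using this
    rw [hq1] at hk'
    obtain ⟨u, hu, y, hy, huy⟩ := S.hdec _ hk'
    have hyU : y ∈ U := S.hDU hy
    have huU : u ∈ U := by
      have : u = (n : G) ^ p ^ k * y⁻¹ := by rw [huy]; group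
      rw [this]
      exact U.mul_mem (U.pow_mem n.2 _) (U.inv_mem hyU)
    have h3 : n ^ p ^ k = (⟨u, huU⟩ : U) * ⟨y, hyU⟩ := by
      apply Subtype.ext
      simpa using huy
    have h4 : π ⟨y, hyU⟩ = 1 := (S.hker ⟨y, hyU⟩).2 hy
    obtain ⟨l, hl⟩ := S.hPp ⟨u, hu⟩
    have hl' : (⟨u, huU⟩ : U) ^ p ^ l = 1 := by
      have := congrArg Subtype.val hl
      apply Subtype.ext
      simpa using this
    refine ⟨k + l, ?_⟩
    apply Subtype.ext
    have h5 : (π n) ^ p ^ (k + l) = 1 := by
      rw [pow_add, pow_mul, ← map_pow, h3, map_mul, h4, mul_one, ← map_pow, hl', map_one]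
    simpa using h5
  · intro X₁ hX₁ hX₁p
    let A : Subgroup G := K ⊓ U
    let ι : A →* U := Subgroup.inclusion inf_le_right
    let α : A →* G₁ := π.comp ι
    let β : A →* G ⧸ R := q.comp A.subtype
    have hα : X₁ ≤ α.range := by
      intro x hx
      have h2 := hX₁ hx
      rw [Subgroup.mem_map] at h2
      obtain ⟨n, hn, rfl⟩ := h2
      rw [Subgroup.mem_subgroupOf] at hn
      exact ⟨⟨(n : G), hn, n.2⟩, rfl⟩
    have hβ : Q ≤ β.range := by
      intro y hy
      have h2 := hQK hy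
      rw [Subgroup.mem_map] at h2
      obtain ⟨g, hg, rfl⟩ := h2
      obtain ⟨u, hu, n, hn, rfl⟩ := S.hPU g
      have huR : u ∈ R := S.hPR hu
      have hnK : n ∈ K := by
        have : n = u⁻¹ * (u * n) := by group
        rw [this]
        exact K.mul_mem (K.inv_mem (S.hRK huR)) hg
      refine ⟨⟨n, hnK, hn⟩, ?_⟩
      change q n = q (u * n)
      rw [map_mul, (hq1 u).2 huR, one_mul]
    have hn : ∀ a : A, ∀ y ∈ Q, (β a)⁻¹ * y * β a ∈ Q := by
      intro a y hy
      have := hQn.conj_mem y hy (β a)⁻¹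
      simpa using this
    obtain ⟨W, hW⟩ := lift_p p α X₁ hα hX₁p
    have hWQ := lift_p' p β Q hβ hQp hn W
    let Xg : Subgroup G := (W : Subgroup A).map A.subtype
    have hXgK : Xg ≤ K := by
      intro x hx
      obtain ⟨a, -, rfl⟩ := Subgroup.mem_map.1 hx
      exact a.2.1
    have hXgp : IsPGroup p Xg := W.isPGroup'.map A.subtype
    have hXg := hX Xg hXgK hXgp
    have key : (W : Subgroup A).lowerCentralSeries j ≤
        (((Q.comap q).subgroupOf U).map π).comap α := by
      intro y hy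
      rw [Subgroup.mem_comap]
      have hy' : (y : G) ∈ Xg.lowerCentralSeries j := by
        have : (y : G) ∈ ((W : Subgroup A).lowerCentralSeries j).map A.subtype :=
          Subgroup.mem_map_of_mem A.subtype hy
        rwa [Subgroup.map_lowerCentralSeries] at this
      have hyQ : q (y : G) ∈ Q := by
        apply hall_higman p (K.map q) Q hK' hQn h1 hQK hQp hQ
        · exact Subgroup.mem_map_of_mem q y.2.1
        · intro u hu
          obtain ⟨x, hx, rfl⟩ := Subgroup.mem_map.1 (hWQ hu)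
          have hx' : (x : G) ∈ Xg := Subgroup.mem_map_of_mem A.subtype hx
          have h6 : ⁅(y : G), (x : G)⁆ ∈ Xg.lowerCentralSeries (j + 1) := by
            rw [Subgroup.lowerCentralSeries_succ]
            exact Subgroup.commutator_mem_commutator hy' hx'
          have h7 : ⁅(y : G), (x : G)⁆ ∈ R := S.hPR (hTP (hXg h6))
          rw [← hq1, map_commutatorElement, commutatorElement_eq_one_iff_mul_comm] at h7
          exact h7
      refine Subgroup.mem_map.2 ⟨ι y, ?_, rfl⟩
      rw [Subgroup.mem_subgroupOf, Subgroup.mem_comap]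
      exact hyQ
    calc X₁.lowerCentralSeries j ≤ ((W : Subgroup A).map α).lowerCentralSeries j :=
          Subgroup.lowerCentralSeries_mono j hW
      _ = ((W : Subgroup A).lowerCentralSeries j).map α :=
          (Subgroup.map_lowerCentralSeries _ α j).symm
      _ ≤ ((Q.comap q).subgroupOf U).map π := Subgroup.map_le_iff_le_comap.2 key

end Pool.Agent.BBX
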