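import Pool.Agent.BBX.Sit
import Pool.Agent.BBX.Lift

/-!
# Inheritance, part M (difficulty 2)

See `Sit` in `Sit.lean`: think of `P = O_p(K)`, `R/P = O_{p'}(K/P)`, `R = P D`, `G = P U`,
`U = N_G(D)`, `π : U → G₁ = U/D`. Write `K₁ = π(K ∩ U)`, `Z₁ = π(Z)`.

`inh_min`. PROOF. `W = {z ∈ Z | π z ∈ Y}` (using `Z ≤ U`) is a normal subgroup of `G`: `P`
centralizes `Z` (`hcen`), for `n ∈ U` use the normality of `Y` and `Z`, and `G = P U`. So `W = ⊥`
or `W = Z` by `hmin`; since `Y ≤ π(Z)`, `Y = π(W)`.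

`inh_h3`. PROOF. Apply `lift_p` to the group `A = ↥(K ⊓ U)` and the homomorphism
`α = π ∘ inclusion : A →* G₁`, whose range is `K₁`: `X₁ ≤ π(S)` for a Sylow `p`-subgroup `S` of
`A`. Its image `X` in `G` is a `p`-subgroup of `K`, so `X.lowerCentralSeries d ≤ Z`, and
`X₁.lowerCentralSeries d ≤ (S.map α).lowerCentralSeries d = (S.lowerCentralSeries d).map α ≤ π(Z)`
(`Subgroup.lowerCentralSeries_mono`, `Subgroup.map_lowerCentralSeries`).
-/

namespace Pool.Agent.BBX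

open scoped commutatorElement
open Pool.Agent.BBN

universe u v

variable {G : Type u} [Group G] {G₁ : Type u} [Group G₁] {p : ℕ}
  {K P R D Z U : Subgroup G} {π : U →* G₁}

theorem inh_min (S : Sit p K P R D Z U π)
    (hmin : ∀ Y : Subgroup G, Y.Normal → Y ≤ Z → Y = ⊥ ∨ Y = Z) (Y : Subgroup G₁)
    (hY : Y.Normal) (hYZ : Y ≤ (Z.subgroupOf U).map π) :
    Y = ⊥ ∨ Y = (Z.subgroupOf U).map π := by
  have hWn : ((Y.comap π ⊓ Z.subgroupOf U).map U.subtype).Normal := by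
    constructor
    rintro _ ⟨w, ⟨hw1, hw2⟩, rfl⟩ g
    obtain ⟨u, hu, n, hn, rfl⟩ := S.hPU g
    have hw3 : (w : G) ∈ Z := hw2
    have hw4 : n * (w : G) * n⁻¹ ∈ Z := S.hZ.conj_mem _ hw3 n
    refine ⟨⟨n, hn⟩ * w * ⟨n, hn⟩⁻¹, ⟨?_, ?_⟩, ?_⟩
    · show π (⟨n, hn⟩ * w * ⟨n, hn⟩⁻¹) ∈ Y
      rw [map_mul, map_mul, map_inv]
      exact hY.conj_mem _ hw1 _
    · show n * (w : G) * n⁻¹ ∈ Z
      exact hw4
    · show n * (w : G) * n⁻¹ = u * n * (w : G) * (u * n)⁻¹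
      have e : u * n * (w : G) * (u * n)⁻¹ = u * (n * (w : G) * n⁻¹) * u⁻¹ := by group
      rw [e, ← S.hcen _ hw4 u hu]
      group
  have hWZ : (Y.comap π ⊓ Z.subgroupOf U).map U.subtype ≤ Z := by
    rintro _ ⟨w, ⟨_, hw2⟩, rfl⟩
    exact hw2
  rcases hmin _ hWn hWZ with h | h
  · left
    rw [eq_bot_iff]
    intro y hy
    obtain ⟨z, hz, rfl⟩ := hYZ hy
    have h1 : (z : G) ∈ (Y.comap π ⊓ Z.subgroupOf U).map U.subtype := ⟨z, ⟨hy, hz⟩, rfl⟩
    rw [h, Subgroup.mem_bot] at h1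
    have h2 : z = 1 := Subtype.ext h1
    rw [h2, map_one]
    exact Subgroup.one_mem _
  · right
    refine le_antisymm hYZ ?_
    rintro _ ⟨z, hz, rfl⟩
    have h1 : (z : G) ∈ (Y.comap π ⊓ Z.subgroupOf U).map U.subtype := by
      rw [h]
      exact hz
    obtain ⟨w, ⟨hw1, _⟩, hw3⟩ := h1
    have h2 : w = z := Subtype.ext hw3
    rw [← h2]
    exact hw1

theorem inh_h3 [Finite G] [Fact p.Prime] (S : Sit p K P R D Z U π) {d : ℕ}
    (h3 : ∀ X : Subgroup G, X ≤ K → IsPGroup p X → X.lowerCentralSeries d ≤ Z)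
    (X₁ : Subgroup G₁) (hX : X₁ ≤ (K.subgroupOf U).map π) (hXp : IsPGroup p X₁) :
    X₁.lowerCentralSeries d ≤ (Z.subgroupOf U).map π := by
  let A := K.subgroupOf U
  let α : A →* G₁ := π.comp A.subtype
  let ι : A →* G := U.subtype.comp A.subtype
  have hr : α.range = A.map π := by
    rw [MonoidHom.range_comp, Subgroup.range_subtype]
  obtain ⟨T, hT⟩ := lift_p p α X₁ (by rw [hr]; exact hX) hXp
  have h4 : ((T : Subgroup A).map ι).lowerCentralSeries d ≤ Z := by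
    apply h3
    · rintro _ ⟨a, _, rfl⟩
      exact a.2
    · exact T.isPGroup'.map ι
  refine (Subgroup.lowerCentralSeries_mono d hT).trans ?_
  show ((T : Subgroup A).map α).lowerCentralSeries d ≤ _
  rw [← Subgroup.map_lowerCentralSeries]
  rintro _ ⟨a, ha, rfl⟩
  refine ⟨(a : U), ?_, rfl⟩
  show ((a : U) : G) ∈ Z
  apply h4
  rw [← Subgroup.map_lowerCentralSeries]
  exact ⟨a, ha, rfl⟩

end Pool.Agent.BBX
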