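import Pool.Agent.BBX.Sit
import Pool.Agent.BBX.Lift

/-!
# Inheritance, part Z (difficulty 2)

See `Sit` in `Sit.lean`: think of `P = O_p(K)`, `R/P = O_{p'}(K/P)`, `R = P D`, `G = P U`,
`U = N_G(D)`, `π : U → G₁ = U/D`. Write `K₁ = π(K ∩ U)`, `Z₁ = π(Z)`.

`inh_HH0`. PROOF. `HH K p 1` says that there is a normal `p`-subgroup `T ≤ K` that contains all
`p`-subgroups of `K`; `T ≤ P` by `hPmax`. So `P` contains all `p`-subgroups of `K`. Hence
`P.relIndex K` is coprime to `p` (a Sylow `p`-subgroup of the group `K` has index prime to `p`,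
`Sylow.not_dvd_index`, and is contained in `P.subgroupOf K`). By `hRmax` (with `R' = K`) `K = R`.
Let `x ∈ K₁`, `x = π k`, `k ∈ K ∩ U = R ∩ U`, `k = u * y` with `u ∈ P`, `y ∈ D ≤ U`; so
`u ∈ P ∩ U` and `π k = π u * π y = π u`, which has order a power of `p` as `u ∈ P`.
-/

namespace Pool.Agent.BBX

open scoped commutatorElement
open Pool.Agent.BBN

universe u v

variable {G : Type u} [Group G] {G₁ : Type u} [Group G₁] {p : ℕ}
  {K P R D Z U : Subgroup G} {π : U →* G₁}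

theorem inh_HH0 [Finite G] [Fact p.Prime] (S : Sit p K P R D Z U π) (h : HH K p 1) :
    HH ((K.subgroupOf U).map π) p 0 := by
  obtain ⟨T, hT1, hT2, hT3, hT4⟩ := h
  have hTP : T ≤ P := S.hPmax T hT1 hT2 hT3
  have hcop : (P.relIndex K).Coprime p := by
    obtain ⟨Q⟩ : Nonempty (Sylow p K) := inferInstance
    have h1 : (Q : Subgroup K).map K.subtype ≤ P := by
      have h2 := hT4 ((Q : Subgroup K).map K.subtype) (Subgroup.map_subtype_le _)
        (Q.isPGroup'.map K.subtype)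
      rw [Subgroup.lowerCentralSeries_zero] at h2
      exact h2.trans hTP
    have h3 : (Q : Subgroup K) ≤ P.subgroupOf K := by
      rwa [Subgroup.map_le_iff_le_comap] at h1
    have h4 : P.relIndex K ∣ (Q : Subgroup K).index := Subgroup.index_dvd_of_le h3
    have h5 : ¬ p ∣ (Q : Subgroup K).index := Q.not_dvd_index
    have h6 : ¬ p ∣ P.relIndex K := fun h7 => h5 (h7.trans h4)
    exact (((Fact.out : p.Prime).coprime_iff_not_dvd).mpr h6).symm
  have hKR : K = R := S.hRmax K S.hK S.hRK le_rfl hcop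
  change IsPGroup p ((K.subgroupOf U).map π)
  rintro ⟨x, hx⟩
  obtain ⟨k, hk, rfl⟩ := hx
  have hk' : (k : G) ∈ R := by
    rw [← hKR]
    exact hk
  obtain ⟨u, hu, y, hy, huy⟩ := S.hdec _ hk'
  have hyU : y ∈ U := S.hDU hy
  have huU : u ∈ U := by
    have : u = (k : G) * y⁻¹ := by
      rw [huy, mul_inv_cancel_right]
    rw [this]
    exact U.mul_mem k.2 (U.inv_mem hyU)
  have h1 : k = (⟨u, huU⟩ : U) * ⟨y, hyU⟩ := Subtype.ext huy
  have h2 : π k = π ⟨u, huU⟩ := by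
    rw [h1, map_mul, (S.hker ⟨y, hyU⟩).mpr hy, mul_one]
  obtain ⟨n, hn⟩ := S.hPp ⟨u, hu⟩
  have h3 : u ^ p ^ n = 1 := congrArg Subtype.val hn
  refine ⟨n, Subtype.ext ?_⟩
  change (π k) ^ p ^ n = 1
  rw [h2, ← map_pow]
  have h4 : (⟨u, huU⟩ : U) ^ p ^ n = 1 := Subtype.ext h3
  rw [h4, map_one]

end Pool.Agent.BBX
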