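import Pool.Agent.BBX.Defs

/-!
# Pulling back detection along a surjection (difficulty 2)

PROOF. Let `(N, δ₁, E)` be given for `G₁`, `K₁`. `G` acts on `N` through `π`
(`MulDistribMulAction.compHom N π`), and `δ g = δ₁ (π g)` is a crossed homomorphism on
`K = π⁻¹(K₁)` (it is `1` outside `K` because `δ₁` is `1` outside `K₁`). The numerical
conditions are unchanged, the filtration is invariant, detection is unchanged because
`z • ν = π z • ν`. If `φ : X →* G` has values in the normal `p`-subgroup `T ≤ K`, then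
`π ∘ φ` has values in `T.map π`, which is a normal subgroup of `G₁` (surjectivity), contained in
`K₁`, and a `p`-group (`IsPGroup.map`).
-/

namespace Pool.Agent.BBX

open scoped commutatorElement
open Pool.Agent.BBN

universe u

theorem Det.pullback {G G₁ : Type u} [Group G] [Group G₁] (π : G →* G₁)
    (hπ : Function.Surjective π) {K : Subgroup G} {K₁ : Subgroup G₁} (hK : K₁.comap π = K)
    {p m s e c : ℕ} {z : G} (h : Det G₁ K₁ p m s e c (π z)) : Det G K p m s e c z := by
  obtain ⟨N, i1, i2, i3, δ₁, E, h1, h2, h3, h4, h5, h6, h7⟩ := h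
  have hmem : ∀ g, g ∈ K ↔ π g ∈ K₁ := fun g => by rw [← hK]; rfl
  letI i4 : MulDistribMulAction G N := MulDistribMulAction.compHom N π
  have hs : ∀ (g : G) (ν : N), g • ν = π g • ν := fun _ _ => rfl
  let δ : Z1 K N := ⟨fun g => δ₁.val (π g), fun k hk k' hk' => by
      show δ₁.val (π (k * k')) = δ₁.val (π k) * π k • δ₁.val (π k')
      rw [map_mul, δ₁.mul ((hmem k).1 hk) ((hmem k').1 hk')],
    fun g hg => δ₁.out fun h8 => hg ((hmem g).2 h8)⟩
  have hδ : ∀ g, δ.val g = δ₁.val (π g) := fun _ => rfl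
  refine ⟨N, i1, i2, i4, δ, E, h1, h2, h3, h4, fun g i x hx => h5 (π g) i x hx, ?_, ?_⟩
  · intro X _ FX φ T hTn hTK hTp hφ hFX
    have h8 := h6 X FX (π.comp φ) (T.map π) (Subgroup.Normal.map hTn π hπ)
      (by
        rw [Subgroup.map_le_iff_le_comap, hK]
        exact hTK) (hTp.map π) (fun x => Subgroup.mem_map_of_mem π (hφ x)) hFX
    exact h8
  · exact h7

end Pool.Agent.BBX
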