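import Pool.Agent.BBX.Defs

/-!
The induction of sections.
-/

namespace Pool.Agent.BBX

open scoped commutatorElement
open Pool.Agent.BBN

universe u v

/-- Extension of an equivariant map. -/
lemma step_ext {G : Type u} [Group G] (P V : Subgroup G) {S : Type v} (ρ : V → S → S)
    (hρ : ∀ n n' s, ρ (n * n') s = ρ n (ρ n' s)) (ψ : P → S)
    (hψ : ∀ (u p₀ : P) (h : (p₀ : G) ∈ V), ψ (u * p₀) = ρ (⟨(p₀ : G), h⟩ : V)⁻¹ (ψ u)) :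
    ∃ Ψ : G → S, ∀ (u : P) (n : V), Ψ ((u : G) * n) = ρ n⁻¹ (ψ u) := by
  classical
  refine ⟨fun g => if h : ∃ (u : P) (n : V), g = u * n then
    ρ (h.choose_spec.choose)⁻¹ (ψ h.choose) else ψ 1, ?_⟩
  intro u n
  have h : ∃ (u' : P) (n' : V), (u : G) * n = u' * n' := ⟨u, n, rfl⟩
  have h1 : (if h : ∃ (u' : P) (n' : V), (u : G) * n = u' * n' then
    ρ (h.choose_spec.choose)⁻¹ (ψ h.choose) else ψ 1) =
      ρ (h.choose_spec.choose)⁻¹ (ψ h.choose) := dif_pos h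
  refine h1.trans ?_
  have h2 := h.choose_spec.choose_spec
  generalize h.choose_spec.choose = n' at h2 ⊢
  generalize h.choose = u' at h2 ⊢
  have e : ((u'⁻¹ * u : P) : G) = (n' : G) * (n : G)⁻¹ := by
    rw [Subgroup.coe_mul, Subgroup.coe_inv]
    have : (u : G) = u' * n' * (n : G)⁻¹ := by rw [← h2]; group
    rw [this]; group
  have hm : ((u'⁻¹ * u : P) : G) ∈ V := by
    rw [e]
    exact V.mul_mem n'.2 (V.inv_mem n.2)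
  have h3 := hψ u' (u'⁻¹ * u) hm
  rw [mul_inv_cancel_left] at h3
  rw [h3, ← hρ]
  congr 1
  apply Subtype.ext
  change (n' : G)⁻¹ = (n : G)⁻¹ * (((u'⁻¹ * u : P) : G))⁻¹
  rw [e]
  group

lemma lcsFil_map (m : ℕ) {P : Type u} [Group P] (θ : P →* P) (i : ℕ) {x : P}
    (hx : x ∈ (lcsFil m P).B i) : θ x ∈ (lcsFil m P).B i := by
  rw [lcsFil_B] at *
  have h1 : θ x ∈ ((⊤ : Subgroup P).lowerCentralSeries ((i - 1) / m)).map θ :=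
    Subgroup.mem_map_of_mem _ hx
  rw [Subgroup.map_lowerCentralSeries] at h1
  exact Subgroup.lowerCentralSeries_mono _ (le_top (a := (⊤ : Subgroup P).map θ)) h1

lemma smul_poly {Γ : Type u} {N₁ : Type v} [Group Γ] [Group N₁] {F : Fil Γ} {E : Fil N₁}
    {W : Type*} [Group W] [MulDistribMulAction W N₁] (n : W)
    (hst : ∀ (i : ℕ), ∀ x ∈ E.B i, n • x ∈ E.B i) {f : Γ → N₁} (hf : IsPoly F E f) :
    IsPoly F E (fun u => n • f u) :=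
  (IsPoly.hom (MulDistribMulAction.toMonoidHom N₁ n) hst).comp hf

lemma trans_poly {G : Type u} [Group G] (P : Subgroup G) [P.Normal] {m : ℕ} (hm : 1 ≤ m)
    {N₁ : Type v} [Group N₁] {E : Fil N₁} {f : P → N₁} (hf : IsPoly (lcsFil m P) E f) (u₀ : P)
    (n₀ : G) : IsPoly (lcsFil m P) E (fun u => f (u₀ * MulAut.conjNormal n₀ u)) := by
  refine hf.comp (IsPoly.mul (IsPoly.const _ ?_) ?_)
  · rw [lcsFil_top hm P (Nat.zero_le m)]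
    exact Subgroup.mem_top _
  · exact IsPoly.hom ((MulAut.conjNormal n₀).toMonoidHom : P →* P)
      (fun i x hx => lcsFil_map m _ i hx)

section Sec
variable {G : Type u} [Group G] (P U : Subgroup G) (m : ℕ) (N₁ : Type u) [Group N₁]
  [MulDistribMulAction U N₁] (E₁ : Fil N₁)

/-- The group of polynomial sections. -/
def SecS : Subgroup (G → N₁) where
  carrier := {Ψ | (∀ (h : G) (n : U), Ψ (h * n) = n⁻¹ • Ψ h) ∧
    IsPoly (lcsFil m P) E₁ (fun u : P => Ψ u)}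
  one_mem' := by
    refine ⟨fun h n => (smul_one _).symm, ?_⟩
    exact IsPoly.const _ (E₁.B 0).one_mem
  mul_mem' := by
    rintro Ψ Ψ' ⟨h1, h2⟩ ⟨h3, h4⟩
    refine ⟨fun h n => ?_, h2.mul h4⟩
    change Ψ (h * n) * Ψ' (h * n) = n⁻¹ • (Ψ h * Ψ' h)
    rw [h1, h3, smul_mul']
  inv_mem' := by
    rintro Ψ ⟨h1, h2⟩
    refine ⟨fun h n => ?_, h2.inv⟩
    change (Ψ (h * n))⁻¹ = n⁻¹ • (Ψ h)⁻¹
    rw [h1, smul_inv']

variable {P U m N₁ E₁}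

lemma SecS.eqv {Ψ : G → N₁} (hΨ : Ψ ∈ SecS P U m N₁ E₁) (h : G) (n : U) :
    Ψ (h * n) = n⁻¹ • Ψ h := hΨ.1 h n

lemma SecS.poly {Ψ : G → N₁} (hΨ : Ψ ∈ SecS P U m N₁ E₁) :
    IsPoly (lcsFil m P) E₁ (fun u : P => Ψ u) := hΨ.2

lemma SecS.ext (hPU : ∀ g : G, ∃ u ∈ P, ∃ n ∈ U, g = u * n) {Ψ Ψ' : G → N₁}
    (hΨ : Ψ ∈ SecS P U m N₁ E₁) (hΨ' : Ψ' ∈ SecS P U m N₁ E₁) (h : ∀ u : P, Ψ u = Ψ' u) :
    Ψ = Ψ' := by
  funext g
  obtain ⟨u, hu, n, hn, rfl⟩ := hPU g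
  rw [SecS.eqv hΨ u ⟨n, hn⟩, SecS.eqv hΨ' u ⟨n, hn⟩]
  have := h ⟨u, hu⟩
  exact congrArg _ this

/-- Every polynomial equivariant map is the restriction of a section. -/
lemma SecS.exists (hPU : ∀ g : G, ∃ u ∈ P, ∃ n ∈ U, g = u * n) (ψ : P → N₁)
    (hψ : IsPoly (lcsFil m P) E₁ ψ)
    (hψ' : ∀ (u p₀ : P) (h : (p₀ : G) ∈ U), ψ (u * p₀) = (⟨(p₀ : G), h⟩ : U)⁻¹ • ψ u) :
    ∃ Ψ ∈ SecS P U m N₁ E₁, ∀ u : P, Ψ u = ψ u := by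
  obtain ⟨Ψ, hΨ⟩ := step_ext P U (fun (n : U) (s : N₁) => n • s)
    (fun n n' s => mul_smul n n' s) ψ hψ'
  have h1 : ∀ u : P, Ψ u = ψ u := by
    intro u
    have := hΨ u 1
    rwa [OneMemClass.coe_one, mul_one, inv_one, one_smul] at this
  refine ⟨Ψ, ⟨?_, hψ.congr h1⟩, h1⟩
  intro h n
  obtain ⟨u, hu, n', hn', rfl⟩ := hPU h
  have h2 := hΨ ⟨u, hu⟩ (⟨n', hn'⟩ * n)
  have h3 := hΨ ⟨u, hu⟩ ⟨n', hn'⟩
  rw [mul_inv_rev, mul_smul] at h2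
  rw [← h3] at h2
  rw [← h2]
  congr 1
  change u * n' * (n : G) = u * (n' * (n : G))
  rw [mul_assoc]

/-- Translation of sections. -/
lemma SecS.trans [P.Normal] (hm : 1 ≤ m) (hPU : ∀ g : G, ∃ u ∈ P, ∃ n ∈ U, g = u * n)
    (hst : ∀ (g : U) (i : ℕ), ∀ x ∈ E₁.B i, g • x ∈ E₁.B i) (i : ℕ) {Ψ : G → N₁}
    (h1 : ∀ (h : G) (n : U), Ψ (h * n) = n⁻¹ • Ψ h)
    (h2 : IsPoly (lcsFil m P) (E₁.shift i) (fun u : P => Ψ u)) (g : G) :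
    IsPoly (lcsFil m P) (E₁.shift i) (fun u : P => Ψ (g * u)) := by
  obtain ⟨u₀, hu₀, n₀, hn₀, rfl⟩ := hPU g
  have h3 := smul_poly ((⟨n₀, hn₀⟩ : U)⁻¹) (E := E₁.shift i)
    (fun j x hx => hst _ _ x hx) (trans_poly P hm h2 ⟨u₀, hu₀⟩ n₀)
  refine h3.congr ?_
  intro u
  rw [← h1]
  congr 1
  change u₀ * n₀ * (u : G) = u₀ * ((MulAut.conjNormal n₀ u : P) : G) * n₀
  rw [MulAut.conjNormal_apply]
  group

/-- The action of `G` on the sections. -/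
@[instance_reducible]
def SecS.act [P.Normal] (hm : 1 ≤ m) (hPU : ∀ g : G, ∃ u ∈ P, ∃ n ∈ U, g = u * n)
    (hst : ∀ (g : U) (i : ℕ), ∀ x ∈ E₁.B i, g • x ∈ E₁.B i) :
    MulDistribMulAction G (SecS P U m N₁ E₁) where
  smul g Ψ := ⟨fun h => (Ψ : G → N₁) (g⁻¹ * h), by
    refine ⟨fun h n => ?_, ?_⟩
    · have := SecS.eqv Ψ.2 (g⁻¹ * h) n
      rw [← this]
      exact congrArg _ (mul_assoc _ _ _).symm
    · have := SecS.trans hm hPU hst 0 (SecS.eqv Ψ.2) (by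
        rw [Fil.shift_zero]; exact SecS.poly Ψ.2) g⁻¹
      rwa [Fil.shift_zero] at this⟩
  one_smul Ψ := by
    apply Subtype.ext
    funext h
    change (Ψ : G → N₁) (1⁻¹ * h) = (Ψ : G → N₁) h
    rw [inv_one, one_mul]
  mul_smul g g' Ψ := by
    apply Subtype.ext
    funext h
    change (Ψ : G → N₁) ((g * g')⁻¹ * h) = (Ψ : G → N₁) (g'⁻¹ * (g⁻¹ * h))
    rw [mul_inv_rev, mul_assoc]
  smul_one _ := rfl
  smul_mul _ _ _ := rfl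

/-- The filtration of the group of sections. -/
def SecS.fil : Fil (SecS P U m N₁ E₁) where
  B i :=
    { carrier := {Ψ | IsPoly (lcsFil m P) (E₁.shift i) (fun u : P => (Ψ : G → N₁) u)}
      one_mem' := IsPoly.const _ ((E₁.shift i).B 0).one_mem
      mul_mem' := fun h1 h2 => h1.mul h2
      inv_mem' := fun h1 => h1.inv }
  anti i := by
    intro Ψ h
    exact IsPoly.le (E := E₁.shift (i + 1)) h (fun j => by
      rw [Fil.shift_B, Fil.shift_B]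
      exact E₁.anti' (by omega))
  comm i j := by
    rw [Subgroup.commutator_le]
    intro Ψ h1 Ψ' h2
    exact IsPoly.comm h1 h2

lemma SecS.mem_fil (i : ℕ) (Ψ : SecS P U m N₁ E₁) :
    Ψ ∈ (SecS.fil (P := P) (U := U) (m := m) (N₁ := N₁) (E₁ := E₁)).B i ↔
      IsPoly (lcsFil m P) (E₁.shift i) (fun u : P => (Ψ : G → N₁) u) := Iff.rfl

end Sec


section Cross
variable {G : Type u} [Group G] {K P U : Subgroup G} {m : ℕ} {N₁ : Type u} [Group N₁]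
  [MulDistribMulAction U N₁] {E₁ : Fil N₁}

/-- The inclusion of `K ⊓ U` into `U`. -/
def cin (K U : Subgroup G) (n : ↥(K ⊓ U)) : U := ⟨n.1, n.2.2⟩

lemma cin_mul (n n' : ↥(K ⊓ U)) : cin K U (n * n') = cin K U n * cin K U n' := rfl

lemma cin_inv (n : ↥(K ⊓ U)) : cin K U n⁻¹ = (cin K U n)⁻¹ := rfl

lemma cin_mem (n : ↥(K ⊓ U)) : cin K U n ∈ K.subgroupOf U := n.2.1

/-- The affine action. -/
def aff1 (δ₁ : Z1 (K.subgroupOf U) N₁) (n : ↥(K ⊓ U)) (ν : N₁) : N₁ :=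
  δ₁.val (cin K U n) * cin K U n • ν

lemma aff1_mul (δ₁ : Z1 (K.subgroupOf U) N₁) (n n' : ↥(K ⊓ U)) (ν : N₁) :
    aff1 δ₁ (n * n') ν = aff1 δ₁ n (aff1 δ₁ n' ν) := by
  unfold aff1
  rw [cin_mul, δ₁.mul (cin_mem n) (cin_mem n'), mul_smul, smul_mul', mul_assoc]

lemma aff1_diff (δ₁ : Z1 (K.subgroupOf U) N₁) (n : ↥(K ⊓ U)) (ν ν' : N₁) :
    (aff1 δ₁ n ν)⁻¹ * aff1 δ₁ n ν' = cin K U n • (ν⁻¹ * ν') := by
  unfold aff1
  rw [smul_mul', smul_inv']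
  group

/-- The affine section. -/
lemma exists_aff [K.Normal] [P.Normal] (hm : 1 ≤ m) (hPK : P ≤ K)
    (hPU : ∀ g : G, ∃ u ∈ P, ∃ n ∈ U, g = u * n)
    (hst : ∀ (g : U) (i : ℕ), ∀ x ∈ E₁.B i, g • x ∈ E₁.B i) (h0 : E₁.B 0 = ⊤)
    (δ₁ : Z1 (K.subgroupOf U) N₁) (ψ : P → N₁) (hψ : IsPoly (lcsFil m P) E₁ ψ)
    (hψ' : ∀ (u p₀ : P) (h : (p₀ : G) ∈ K ⊓ U),
      ψ (u * p₀) = aff1 δ₁ (⟨(p₀ : G), h⟩ : ↥(K ⊓ U))⁻¹ (ψ u)) :
    ∃ Ψ₀ : G → N₁, (∀ u : P, Ψ₀ u = ψ u) ∧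
      (∀ h ∈ K, ∀ n : ↥(K ⊓ U), Ψ₀ (h * n) = aff1 δ₁ n⁻¹ (Ψ₀ h)) ∧
      ∀ k ∈ K, IsPoly (lcsFil m P) E₁ (fun u : P => Ψ₀ (k * u)) := by
  obtain ⟨Ψ₀, hΨ⟩ := step_ext P (K ⊓ U) (aff1 δ₁) (aff1_mul δ₁) ψ hψ'
  have hone : ∀ ν, aff1 δ₁ (1 : ↥(K ⊓ U))⁻¹ ν = ν := by
    intro ν
    rw [inv_one]
    have e : cin K U 1 = 1 := rfl
    unfold aff1
    rw [e, δ₁.one, one_smul, one_mul]
  have h1 : ∀ u : P, Ψ₀ u = ψ u := by
    intro u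
    have := hΨ u 1
    rwa [OneMemClass.coe_one, mul_one, hone] at this
  have hdec : ∀ k ∈ K, ∃ u : P, ∃ n : ↥(K ⊓ U), k = u * n := by
    intro k hk
    obtain ⟨u, hu, n, hn, rfl⟩ := hPU k
    refine ⟨⟨u, hu⟩, ⟨n, ?_, hn⟩, rfl⟩
    have := K.mul_mem (K.inv_mem (hPK hu)) hk
    rwa [inv_mul_cancel_left] at this
  refine ⟨Ψ₀, h1, ?_, ?_⟩
  · intro h hh n
    obtain ⟨u, n', rfl⟩ := hdec h hh
    have h2 := hΨ u (n' * n)
    rw [mul_inv_rev, aff1_mul, ← hΨ u n'] at h2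
    rw [← h2, Subgroup.coe_mul, mul_assoc]
  · intro k hk
    obtain ⟨u₀, n₀, rfl⟩ := hdec k hk
    have h3 : IsPoly (lcsFil m P) E₁ (fun u : P => δ₁.val (cin K U n₀⁻¹) *
        cin K U n₀⁻¹ • ψ (u₀ * MulAut.conjNormal (n₀ : G) u)) := by
      refine IsPoly.mul (IsPoly.const _ ?_) (smul_poly _ (fun i x hx => hst _ _ x hx)
        (trans_poly P hm hψ u₀ n₀))
      rw [h0]
      exact Subgroup.mem_top _
    refine h3.congr ?_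
    intro u
    have h4 := hΨ (u₀ * MulAut.conjNormal (n₀ : G) u) n₀
    change _ = aff1 δ₁ n₀⁻¹ (ψ (u₀ * MulAut.conjNormal (n₀ : G) u))
    rw [← h4]
    congr 1
    rw [Subgroup.coe_mul, MulAut.conjNormal_apply]
    group

/-- The crossed homomorphism into the group of sections. -/
lemma exists_cross [K.Normal] [P.Normal] (hm : 1 ≤ m) (hPK : P ≤ K)
    (hPU : ∀ g : G, ∃ u ∈ P, ∃ n ∈ U, g = u * n)
    (hst : ∀ (g : U) (i : ℕ), ∀ x ∈ E₁.B i, g • x ∈ E₁.B i) (h0 : E₁.B 0 = ⊤)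
    (δ₁ : Z1 (K.subgroupOf U) N₁) (ψ : P → N₁) (hψ : IsPoly (lcsFil m P) E₁ ψ)
    (hψ' : ∀ (u p₀ : P) (h : (p₀ : G) ∈ K ⊓ U),
      ψ (u * p₀) = aff1 δ₁ (⟨(p₀ : G), h⟩ : ↥(K ⊓ U))⁻¹ (ψ u)) :
    letI := SecS.act (P := P) (U := U) (m := m) (N₁ := N₁) (E₁ := E₁) hm hPU hst
    ∃ δ : Z1 K (SecS P U m N₁ E₁), ∀ (x u : P),
      (δ.val (x : G) : G → N₁) u = (ψ u)⁻¹ * ψ (x⁻¹ * u) := by
  classical
  letI := SecS.act (P := P) (U := U) (m := m) (N₁ := N₁) (E₁ := E₁) hm hPU hst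
  obtain ⟨Ψ₀, h1, h2, h3⟩ := exists_aff hm hPK hPU hst h0 δ₁ ψ hψ hψ'
  have key : ∀ k : K, ∃ Ψ ∈ SecS P U m N₁ E₁, ∀ u : P,
      Ψ u = (Ψ₀ u)⁻¹ * Ψ₀ ((k : G)⁻¹ * u) := by
    intro k
    apply SecS.exists hPU (fun u : P => (Ψ₀ u)⁻¹ * Ψ₀ ((k : G)⁻¹ * u))
    · refine IsPoly.mul (IsPoly.inv ?_) (h3 _ (K.inv_mem k.2))
      exact hψ.congr h1
    · intro u p₀ h
      have hp : (p₀ : G) ∈ K := hPK p₀.2
      have e1 := h2 u (hPK u.2) ⟨p₀, hp, h⟩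
      have e2 := h2 ((k : G)⁻¹ * u) (K.mul_mem (K.inv_mem k.2) (hPK u.2)) ⟨p₀, hp, h⟩
      rw [mul_assoc] at e2
      change (Ψ₀ (((u : G)) * (p₀ : G)))⁻¹ * Ψ₀ ((k : G)⁻¹ * ((u : G) * (p₀ : G))) = _
      change Ψ₀ ((u : G) * (p₀ : G)) = _ at e1
      change Ψ₀ ((k : G)⁻¹ * ((u : G) * (p₀ : G))) = _ at e2
      rw [e1, e2, aff1_diff]
      rfl
  choose Δ hΔ hΔ' using key
  -- the values at all elements of `K`
  have hval : ∀ (k : K), ∀ h ∈ K, Δ k h = (Ψ₀ h)⁻¹ * Ψ₀ ((k : G)⁻¹ * h) := by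
    intro k h hh
    obtain ⟨u, hu, n, hn, rfl⟩ := hPU h
    have hnK : n ∈ K := by
      have := K.mul_mem (K.inv_mem (hPK hu)) hh
      rwa [inv_mul_cancel_left] at this
    have e0 := SecS.eqv (hΔ k) u ⟨n, hn⟩
    have e1 := h2 u (hPK hu) ⟨n, hnK, hn⟩
    have e2 := h2 ((k : G)⁻¹ * u) (K.mul_mem (K.inv_mem k.2) (hPK hu)) ⟨n, hnK, hn⟩
    rw [mul_assoc] at e2
    change Δ k (u * n) = _ at e0
    change Ψ₀ (u * n) = _ at e1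
    change Ψ₀ ((k : G)⁻¹ * (u * n)) = _ at e2
    have e3 := hΔ' k ⟨u, hu⟩
    change Δ k u = _ at e3
    rw [e0, e1, e2, aff1_diff, e3]
    rfl
  let δ : Z1 K (SecS P U m N₁ E₁) := ⟨fun g => if h : g ∈ K then ⟨Δ ⟨g, h⟩, hΔ _⟩ else 1, by
    refine ⟨?_, fun g hg => dif_neg hg⟩
    intro k hk k' hk'
    beta_reduce
    rw [dif_pos hk, dif_pos hk', dif_pos (K.mul_mem hk hk')]
    apply Subtype.ext
    refine SecS.ext hPU (hΔ _) (Subtype.mem _) ?_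
    intro u
    change Δ ⟨k * k', _⟩ u = Δ ⟨k, hk⟩ u * Δ ⟨k', hk'⟩ (k⁻¹ * u)
    rw [hval _ _ (hPK u.2), hval _ _ (hPK u.2),
      hval _ _ (K.mul_mem (K.inv_mem hk) (hPK u.2))]
    change (Ψ₀ u)⁻¹ * Ψ₀ ((k * k')⁻¹ * u) =
      (Ψ₀ u)⁻¹ * Ψ₀ (k⁻¹ * u) * ((Ψ₀ (k⁻¹ * u))⁻¹ * Ψ₀ (k'⁻¹ * (k⁻¹ * u)))
    rw [mul_inv_rev, mul_assoc k'⁻¹ k⁻¹]
    group⟩
  refine ⟨δ, ?_⟩
  intro x u
  have e1 : δ.val (x : G) = ⟨Δ ⟨x, hPK x.2⟩, hΔ _⟩ := dif_pos (hPK x.2)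
  rw [e1]
  change Δ ⟨x, hPK x.2⟩ u = _
  rw [hΔ', h1]
  congr 1
  exact h1 (x⁻¹ * u)

end Cross

theorem stepT {G : Type u} [Group G] [Finite G] (K P U : Subgroup G) [K.Normal] [P.Normal]
    {p m : ℕ} (hm : 1 ≤ m) (hPK : P ≤ K) (hPU : ∀ g : G, ∃ u ∈ P, ∃ n ∈ U, g = u * n)
    (hPmax : ∀ T : Subgroup G, T.Normal → T ≤ K → IsPGroup p T → T ≤ P)
    (r : P → P) (hr : IsPoly (lcsFil m P) (lcsFil m P) r) (hrU : ∀ u, (r u : G) ∈ U)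
    (hrm : ∀ u p₀ : P, (p₀ : G) ∈ U → r (u * p₀) = r u * p₀) (hr1 : r 1 = 1)
    {N₁ : Type u} [Group N₁] [Finite N₁] [MulDistribMulAction U N₁]
    (δ₁ : Z1 (K.subgroupOf U) N₁) (E₁ : Fil N₁) {c s e n : ℕ} (hc : Nil c N₁)
    (he : Nat.card N₁ ≤ 2 ^ e) (hn : Nat.card G ≤ 2 ^ n) (h0 : E₁.B 0 = ⊤)
    (hs : E₁.B (s + 1) = ⊥) (hst : ∀ (g : U) (i : ℕ), ∀ x ∈ E₁.B i, g • x ∈ E₁.B i)
    (hb : IsPoly ((lcsFil m P).comap (U.subgroupOf P).subtype) E₁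
      (fun x : U.subgroupOf P => δ₁.val (⟨((x : P) : G), x.2⟩ : U)))
    (z : P)
    (hdet : (∃ ψ : P → N₁, IsPoly (lcsFil m P) E₁ ψ ∧
        (∀ (u p₀ : P) (h : (p₀ : G) ∈ U), ψ (u * p₀) = (⟨(p₀ : G), h⟩ : U)⁻¹ • ψ u) ∧
        ψ z⁻¹ ≠ ψ 1) ∨
      ∃ h : (z : G) ∈ U, δ₁.val (⟨(z : G), h⟩ : U) ≠ 1) :
    Det G K p m s (e * (n + 1) ^ (s + 1)) c (z : G) := by
  letI := SecS.act (P := P) (U := U) (m := m) (N₁ := N₁) (E₁ := E₁) hm hPU hst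
  let r' : P → U.subgroupOf P := fun u => ⟨r u, hrU u⟩
  have hr' : IsPoly (lcsFil m P) ((lcsFil m P).comap (U.subgroupOf P).subtype) r' :=
    (isPoly_comap (U.subgroupOf P).subtype (fun i x => Iff.rfl)).mpr hr
  let ψ : P → N₁ := fun u => δ₁.val (⟨(((r' u)⁻¹ : U.subgroupOf P) : P), (r' u)⁻¹.2⟩ : U)
  have hψ : IsPoly (lcsFil m P) E₁ ψ := hb.comp hr'.inv
  have hψ' : ∀ (u p₀ : P) (h : (p₀ : G) ∈ K ⊓ U),
      ψ (u * p₀) = aff1 δ₁ (⟨(p₀ : G), h⟩ : ↥(K ⊓ U))⁻¹ (ψ u) := by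
    intro u p₀ h
    have e1 := hrm u p₀ h.2
    change δ₁.val (⟨((((r (u * p₀)) : P) : G))⁻¹, _⟩ : U) =
      δ₁.val (⟨(p₀ : G)⁻¹, _⟩ : U) *
        (⟨(p₀ : G)⁻¹, _⟩ : U) • δ₁.val (⟨(((r u) : P) : G)⁻¹, _⟩ : U)
    rw [← δ₁.mul (K.inv_mem h.1) (K.inv_mem (hPK (r u).2))]
    congr 1
    apply Subtype.ext
    change (((r (u * p₀)) : P) : G)⁻¹ = (p₀ : G)⁻¹ * ((r u : P) : G)⁻¹
    rw [e1, Subgroup.coe_mul, mul_inv_rev]
  obtain ⟨δ, hδ⟩ := exists_cross hm hPK hPU hst h0 δ₁ ψ hψ hψ'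
  have hψ1 : ψ 1 = 1 := by
    change δ₁.val (⟨(((r 1) : P) : G)⁻¹, _⟩ : U) = 1
    rw [← δ₁.one]
    congr 1
    apply Subtype.ext
    change (((r 1) : P) : G)⁻¹ = 1
    rw [hr1, OneMemClass.coe_one, inv_one]
  have hfin : Finite (SecS P U m N₁ E₁) := inferInstance
  let ev : SecS P U m N₁ E₁ →* (P → N₁) :=
    { toFun := fun Ψ u => (Ψ : G → N₁) u
      map_one' := rfl
      map_mul' := fun _ _ => rfl }
  refine ⟨SecS P U m N₁ E₁, inferInstance, hfin, _, δ, SecS.fil, ?_, ?_, ?_, ?_, ?_, ?_, ?_⟩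
  · exact Nil.joint (fun h : G => (Pi.evalMonoidHom (fun _ : G => N₁) h).comp
      (SecS P U m N₁ E₁).subtype) (fun Ψ h => Subtype.ext (funext h)) (fun _ => hc)
  · obtain ⟨S, hS⟩ := exists_gen_top (A := P) ((Subgroup.card_le_card_group P).trans hn)
    refine le_trans ?_ (card_polyF S hS he (s + 1))
    refine Nat.card_le_card_of_injective (fun Ψ : SecS P U m N₁ E₁ =>
      (⟨fun u : P => (Ψ : G → N₁) u, IsPoly.polyF (lcsFil_top hm P (Nat.zero_le m))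
        (lcsFil_top hm P hm) hs (SecS.poly Ψ.2)⟩ : {f : P → N₁ // PolyF (s + 1) f})) ?_
    intro Ψ Ψ' h
    apply Subtype.ext
    apply SecS.ext hPU Ψ.2 Ψ'.2
    intro u
    exact congrFun (congrArg Subtype.val h) u
  · rw [eq_top_iff]
    intro Ψ _
    rw [SecS.mem_fil, Fil.shift_zero]
    exact SecS.poly Ψ.2
  · rw [eq_bot_iff]
    intro Ψ hΨ
    rw [SecS.mem_fil] at hΨ
    rw [Subgroup.mem_bot]
    apply Subtype.ext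
    apply SecS.ext hPU Ψ.2 (SecS P U m N₁ E₁).one_mem
    intro u
    have h1 := hΨ.apply (x := u) (by
      rw [lcsFil_top hm P (Nat.zero_le m)]; exact Subgroup.mem_top _)
    rw [Fil.shift_B, Nat.add_zero, hs, Subgroup.mem_bot] at h1
    exact h1
  · intro g i Ψ hΨ
    exact SecS.trans hm hPU hst i (SecS.eqv Ψ.2) hΨ g⁻¹
  · intro X _ FX φ T hT hTK hTp hφ hX
    have hTP := hPmax T hT hTK hTp
    let φ' : X →* P := φ.codRestrict P (fun x => hTP (hφ x))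
    have hφ' : IsPoly (FX.prod (lcsFil m P)) (lcsFil m P)
        (fun y : X × P => (φ' y.1)⁻¹ * y.2) := by
      refine IsPoly.mul (IsPoly.inv ?_) ?_
      · exact IsPoly.hom (φ'.comp (MonoidHom.fst X P)) (fun i x hx => lcsFil_hom hm hX φ' i hx.1)
      · exact IsPoly.hom (MonoidHom.snd X P) (fun i x hx => hx.2)
    constructor
    · intro Ψ
      refine isPoly_curry (F := lcsFil m P) ev (fun i Ψ => Iff.rfl) ?_
      exact (SecS.poly Ψ.2).comp hφ'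
    · refine isPoly_curry (F := lcsFil m P) ev (fun i Ψ => Iff.rfl) ?_
      have h1 : IsPoly (FX.prod (lcsFil m P)) E₁
          (fun y : X × P => (ψ y.2)⁻¹ * ψ ((φ' y.1)⁻¹ * y.2)) := by
        refine IsPoly.mul (IsPoly.inv ?_) (hψ.comp hφ')
        exact hψ.comp (IsPoly.hom (MonoidHom.snd X P) (fun i x hx => hx.2))
      refine h1.congr ?_
      intro y
      exact hδ (φ' y.1) y.2
  · rcases hdet with ⟨ψ', h1, h2, h3⟩ | ⟨h, h1⟩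
    · left
      obtain ⟨Ψ, hΨ, hΨ'⟩ := SecS.exists hPU ψ' h1 h2
      refine ⟨⟨Ψ, hΨ⟩, ?_⟩
      intro h
      apply h3
      have h4 := congrFun (congrArg Subtype.val h) 1
      change Ψ ((z : G)⁻¹ * 1) = Ψ 1 at h4
      rw [mul_one] at h4
      have h5 := hΨ' z⁻¹
      have h6 := hΨ' 1
      rw [← h5, ← h6]
      exact h4
    · right
      intro h2
      apply h1
      have h3 := hδ z 1
      rw [h2] at h3
      change (1 : N₁) = _ at h3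
      rw [hψ1, inv_one, one_mul, mul_one] at h3
      rw [h3]
      change _ = δ₁.val (⟨(((r z⁻¹) : P) : G)⁻¹, _⟩ : U)
      congr 1
      apply Subtype.ext
      change (z : G) = (((r z⁻¹) : P) : G)⁻¹
      have h4 := hrm 1 z⁻¹ (U.inv_mem h)
      rw [one_mul, hr1, one_mul] at h4
      rw [h4]
      simp

end Pool.Agent.BBX
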