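import Pool.Agent.BBX.Retr
import Pool.Agent.BBX.Frat
import Pool.Agent.BBX.Pull
import Pool.Agent.BBX.Step
import Pool.Agent.BBX.Cent
import Pool.Agent.BBX.Core
import Pool.Agent.BBX.InhA
import Pool.Agent.BBX.InhM
import Pool.Agent.BBX.InhZ
import Pool.Agent.BBX.InhB

/-!
The construction of the detecting group.
-/

namespace Pool.Agent.BBX

open scoped commutatorElement
open Pool.Agent.BBN

universe u v

/-- The action by conjugation on a normal subgroup. -/
@[instance_reducible]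
def cjAct (G : Type u) [Group G] (K : Subgroup G) [K.Normal] : MulDistribMulAction G K where
  smul g v := MulAut.conjNormal g v
  one_smul v := by
    change MulAut.conjNormal (1 : G) v = v
    rw [map_one]; rfl
  mul_smul g h v := by
    change MulAut.conjNormal (g * h) v = _
    rw [map_mul]; rfl
  smul_one g := by
    change MulAut.conjNormal g (1 : K) = 1
    rw [map_one]
  smul_mul g v v' := by
    change MulAut.conjNormal g (v * v') = _
    rw [map_mul]; rfl

/-- The inversion as a crossed homomorphism. -/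
lemma exists_invZ (G : Type u) [Group G] (K : Subgroup G) [K.Normal] :
    letI := cjAct G K
    ∃ δ : Z1 K K, ∀ k : K, δ.val (k : G) = k⁻¹ := by
  classical
  let _ := cjAct G K
  refine ⟨⟨fun y => if h : y ∈ K then (⟨y, h⟩ : K)⁻¹ else 1, ?_, ?_⟩, ?_⟩
  · intro k hk k' hk'
    have hkk : k * k' ∈ K := K.mul_mem hk hk'
    simp only [hk, hk', hkk, dif_pos]
    apply Subtype.ext
    change (k * k')⁻¹ = k⁻¹ * ((MulAut.conjNormal k ((⟨k', hk'⟩ : K)⁻¹) : K) : G)
    rw [MulAut.conjNormal_apply]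
    change (k * k')⁻¹ = k⁻¹ * (k * k'⁻¹ * k⁻¹)
    group
  · intro g hg
    simp only [hg, dif_neg, not_false_iff]
  · intro k
    change (if h : (k : G) ∈ K then (⟨k, h⟩ : K)⁻¹ else 1) = k⁻¹
    rw [dif_pos k.2]

lemma ic_base {G : Type u} [Group G] [Finite G] {p m d n : ℕ} (hm : 1 ≤ m) (K : Subgroup G)
    (hK : K.Normal) (hn : Nat.card G ≤ 2 ^ n) (hnil : Nil (d + 1) K) {z : G} (hz : z ∈ K)
    (hz1 : z ≠ 1) : Det G K p m (m * (d + 1)) ((n + 1) ^ 1) (d + 1) z := by
  letI := cjAct G K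
  obtain ⟨δ, hδ⟩ := exists_invZ G K
  refine ⟨K, inferInstance, inferInstance, cjAct G K, δ, lcsFil m K, hnil, ?_,
    lcsFil_top hm K (Nat.zero_le m), lcsFil_bot hm hnil, ?_, ?_, ?_⟩
  · refine (Subgroup.card_le_card_group K).trans (hn.trans ?_)
    rw [pow_one]
    exact Nat.pow_le_pow_right (by norm_num) (by omega)
  · intro g i x hx
    exact lcsFil_map m ((MulAut.conjNormal g).toMonoidHom : K →* K) i hx
  · intro X _ FX φ T _ hTK _ hφ hX
    let φ' : X →* K := φ.codRestrict K (fun x => hTK (hφ x))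
    have h1 : IsPoly FX (lcsFil m K) φ' :=
      IsPoly.hom φ' (fun i x hx => lcsFil_hom hm hX φ' i hx)
    constructor
    · intro ν
      have h2 : IsPoly FX (lcsFil m K) (fun x => φ' x * ν * (φ' x)⁻¹) := by
        refine (h1.mul (IsPoly.const FX ?_)).mul h1.inv
        rw [lcsFil_top hm K (Nat.zero_le m)]
        exact Subgroup.mem_top _
      refine h2.congr ?_
      intro x
      apply Subtype.ext
      change ((MulAut.conjNormal (φ x) ν : K) : G) = _
      rw [MulAut.conjNormal_apply]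
      rfl
    · refine h1.inv.congr ?_
      intro x
      exact hδ (φ' x)
  · right
    have := hδ ⟨z, hz⟩
    change δ.val z = _ at this
    rw [this]
    intro h
    apply hz1
    rw [inv_eq_one] at h
    exact congrArg Subtype.val h


lemma mem_norm_of_comm {G : Type u} [Group G] {D : Subgroup G} {x : G}
    (h : ∀ y ∈ D, y * x = x * y) : x ∈ Subgroup.normalizer (D : Set G) := by
  rw [Subgroup.mem_normalizer_iff]
  intro y
  constructor
  · intro hy
    have h1 : x * y * x⁻¹ = y := by rw [← h y hy]; group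
    rw [h1]
    exact hy
  · intro hy
    have h1 := h _ hy
    have h2 : y = x⁻¹ * (x * y * x⁻¹ * x) := by group
    rw [h1] at h2
    have h3 : y = x * y * x⁻¹ := by rw [inv_mul_cancel_left] at h2; exact h2
    rw [h3]
    exact hy

/-- Case I of the induction step: the element `z` does not commute with the complement. -/
lemma ic_one {G : Type u} [Group G] [Finite G] {p m d n : ℕ} (hm : 1 ≤ m)
    (K P D : Subgroup G) (hK : K.Normal) (hPn : P.Normal) (hn : Nat.card G ≤ 2 ^ n)
    (hPK : P ≤ K) (hPmax : ∀ T : Subgroup G, T.Normal → T ≤ K → IsPGroup p T → T ≤ P)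
    (hnil : Nil (d + 1) P) (U : Subgroup G)
    (hPU : ∀ g : G, ∃ u ∈ P, ∃ n ∈ U, g = u * n)
    (r : P → P) (hr : IsPoly (lcsFil m P) (lcsFil m P) r) (hrU : ∀ u, (r u : G) ∈ U)
    (hrm : ∀ u p₀ : P, (p₀ : G) ∈ U → r (u * p₀) = r u * p₀) (hr1 : r 1 = 1)
    (z : P) (hz : (z : G) ∉ U) :
    Det G K p m (m * (d + 1)) (n * (n + 1) ^ (m * (d + 1) + 1)) (d + 1) (z : G) := by
  letI := cjAct G P
  letI : MulDistribMulAction U P := MulDistribMulAction.compHom P U.subtype
  have hact : ∀ (g : U) (v : P), ((g • v : P) : G) = (g : G) * v * (g : G)⁻¹ := by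
    intro g v
    change ((MulAut.conjNormal (g : G) v : P) : G) = _
    exact MulAut.conjNormal_apply _ _
  refine stepT K P U hm hPK hPU hPmax r hr hrU hrm hr1 (Z1.triv (K.subgroupOf U) P)
    (lcsFil m P) hnil ((Subgroup.card_le_card_group P).trans hn) hn
    (lcsFil_top hm P (Nat.zero_le m)) (lcsFil_bot hm hnil) ?_ ?_ z (Or.inl ?_)
  · intro g i x hx
    exact lcsFil_map m ((MulAut.conjNormal (g : G)).toMonoidHom : P →* P) i hx
  · exact IsPoly.const _ (Subgroup.one_mem _)
  · refine ⟨fun u => (r u)⁻¹ * u, hr.inv.mul (IsPoly.id _), ?_, ?_⟩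
    · intro u p₀ h
      apply Subtype.ext
      refine Eq.trans ?_ (hact (⟨(p₀ : G), h⟩ : U)⁻¹ ((r u)⁻¹ * u)).symm
      beta_reduce
      rw [hrm u p₀ h]
      simp only [Subgroup.coe_mul, Subgroup.coe_inv, mul_inv_rev, inv_inv]
      group
    · intro h
      beta_reduce at h
      rw [hr1, inv_one, one_mul, inv_mul_eq_one] at h
      apply hz
      have h1 := hrU z⁻¹
      rw [h, Subgroup.coe_inv] at h1
      exact (U.inv_mem_iff).mp h1

/-- Case II of the induction step. -/
lemma ic_two {G : Type u} [Group G] [Finite G] {p m d n c s e : ℕ} [Fact p.Prime] (hm : 1 ≤ m)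
    (K P : Subgroup G) (hK : K.Normal) (hPn : P.Normal) (hn : Nat.card G ≤ 2 ^ n)
    (hPK : P ≤ K) (hPp : IsPGroup p P)
    (hPmax : ∀ T : Subgroup G, T.Normal → T ≤ K → IsPGroup p T → T ≤ P)
    (hnil : Nil (d + 1) P) (U : Subgroup G)
    (hPU : ∀ g : G, ∃ u ∈ P, ∃ n ∈ U, g = u * n)
    (r : P → P) (hr : IsPoly (lcsFil m P) (lcsFil m P) r) (hrU : ∀ u, (r u : G) ∈ U)
    (hrm : ∀ u p₀ : P, (p₀ : G) ∈ U → r (u * p₀) = r u * p₀) (hr1 : r 1 = 1)
    (z : P) (hz : (z : G) ∈ U)
    (h : Det U (K.subgroupOf U) p (m * (d + 1)) s e c (⟨(z : G), hz⟩ : U)) :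
    Det G K p m s (e * (n + 1) ^ (s + 1)) c (z : G) := by
  obtain ⟨N₁, i1, i2, i3, δ₁, E₁, h1, h2, h3, h4, h5, h6, h7⟩ := h
  let X : Subgroup P := U.subgroupOf P
  let φ : X →* U := (P.subtype.comp X.subtype).codRestrict U (fun x => x.2)
  have hTn : (P.subgroupOf U).Normal := inferInstance
  have hTp : IsPGroup p (P.subgroupOf U) := hPp.comap_subtype
  have hFX : ((lcsFil m P).comap X.subtype).B (m * (d + 1) + 1) = ⊥ := by
    change ((lcsFil m P).B (m * (d + 1) + 1)).comap X.subtype = ⊥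
    rw [lcsFil_bot hm hnil, MonoidHom.comap_bot, Subgroup.ker_subtype]
  obtain ⟨ha, hb⟩ := h6 X ((lcsFil m P).comap X.subtype) φ (P.subgroupOf U) hTn
    (Subgroup.comap_mono hPK) hTp (fun x => (x : P).2) hFX
  refine stepT K P U hm hPK hPU hPmax r hr hrU hrm hr1 δ₁ E₁ h1 h2 hn h3 h4 h5 hb z ?_
  rcases h7 with ⟨ν, hν⟩ | h7
  · left
    let r' : P → X := fun u => ⟨r u, hrU u⟩
    have hr' : IsPoly (lcsFil m P) ((lcsFil m P).comap X.subtype) r' :=
      (isPoly_comap X.subtype (fun i x => Iff.rfl)).mpr hr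
    refine ⟨fun u => φ ((r' u)⁻¹) • ν, (ha ν).comp hr'.inv, ?_, ?_⟩
    · intro u p₀ h
      beta_reduce
      rw [← mul_smul]
      have e0 : φ ((r' (u * p₀))⁻¹) = (⟨(p₀ : G), h⟩ : U)⁻¹ * φ ((r' u)⁻¹) := by
        apply Subtype.ext
        change (((r (u * p₀)) : P) : G)⁻¹ = (p₀ : G)⁻¹ * ((r u : P) : G)⁻¹
        rw [hrm u p₀ h, Subgroup.coe_mul, mul_inv_rev]
      rw [e0]
    · have e1 : r z⁻¹ = z⁻¹ := by
        have := hrm 1 z⁻¹ (U.inv_mem hz)
        rwa [one_mul, hr1, one_mul] at this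
      have e2 : φ ((r' z⁻¹)⁻¹) = ⟨(z : G), hz⟩ := by
        apply Subtype.ext
        change (((r z⁻¹) : P) : G)⁻¹ = z
        rw [e1]
        simp
      have e3 : φ ((r' 1)⁻¹) = 1 := by
        apply Subtype.ext
        change (((r 1) : P) : G)⁻¹ = 1
        rw [hr1]
        simp
      beta_reduce
      rw [e2, e3, one_smul]
      exact hν
  · right
    exact ⟨hz, h7⟩

theorem ic (d : ℕ) : ∀ j m : ℕ, 1 ≤ m → ∃ s a : ℕ, ∀ (p : ℕ) [Fact p.Prime] (G : Type u)
    [Group G] [Finite G] [Group.IsSolvable G] (K Z : Subgroup G) (n : ℕ) (z : G), K.Normal →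
    Z.Normal → Nat.card G ≤ 2 ^ n → Z ≤ K → IsPGroup p Z →
    (∀ Y : Subgroup G, Y.Normal → Y ≤ Z → Y = ⊥ ∨ Y = Z) → z ∈ Z → z ≠ 1 →
    (∀ Y : Subgroup G, Y.Normal → Y ≤ K → (Nat.card Y).Coprime p → Y = ⊥) →
    (∀ X : Subgroup G, X ≤ K → IsPGroup p X → X.lowerCentralSeries d ≤ Z) →
    HH K p j → Det G K p m s ((n + 1) ^ a) (d + 1) z := by
  intro j
  induction j with
  | zero =>
    intro m hm
    refine ⟨m * (d + 1), 1, ?_⟩
    intro p _ G _ _ _ K Z n z hK hZ hn hZK hZp hmin hz hz1 h1 h3 hH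
    have hne : Z ≠ ⊥ := by
      rintro rfl
      exact hz1 (Subgroup.mem_bot.mp hz)
    exact ic_base hm K hK hn
      (nil_pp K Z (h3 K le_rfl hH) (central_min p K Z hK hZ hH hZp hne hmin)) (hZK hz) hz1
  | succ j ih =>
    intro m hm
    obtain ⟨s₁, a₁, ih⟩ := ih (m * (d + 1)) (Nat.mul_pos hm (Nat.succ_pos d))
    refine ⟨m * (d + 1) + s₁, m * (d + 1) + s₁ + a₁ + 2, ?_⟩
    intro p _ G _ _ _ K Z n z hK hZ hn hZK hZp hmin hz hz1 h1 h3 hH
    have hne : Z ≠ ⊥ := by
      rintro rfl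
      exact hz1 (Subgroup.mem_bot.mp hz)
    obtain ⟨P, hPn, hPK, hPp, hPmax⟩ := exists_core p K
    obtain ⟨R, hRn, hPR, hRK, hRp, hRmax⟩ := exists_topp p K P hPn hPK
    obtain ⟨D, hDR, hDp, -, hdec⟩ := comp_pp p P R hPn hPR hPp hRp
    have hZP : Z ≤ P := hPmax Z hZ hZK hZp
    have hcen := central_min p P Z hPn hZ hPp hZp hne hmin
    have hnil : Nil (d + 1) P := nil_pp P Z (h3 P hPK hPp) hcen
    have hco : Nat.Coprime (Nat.card D) (Nat.card P) := by
      obtain ⟨k, hk⟩ := IsPGroup.iff_card.mp hPp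
      rw [hk]
      exact hDp.pow_right k
    have hPU := frattini P R D hnil hDR hdec hco
    set U : Subgroup G := Subgroup.normalizer (D : Set G) with hU
    have hDn : ∀ n ∈ U, ∀ y ∈ D, n * y * n⁻¹ ∈ D := by
      intro n hn y hy
      exact (Subgroup.mem_normalizer_iff.mp hn y).mp hy
    -- elements of `P ∩ U` commute with `D`
    have hfix : ∀ u ∈ P, u ∈ U → ∀ y ∈ D, y * u = u * y := by
      intro u hu huU y hy
      have h1 : u * y * u⁻¹ * y⁻¹ ∈ D := D.mul_mem (hDn u huU y hy) (D.inv_mem hy)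
      have h2 : u * y * u⁻¹ * y⁻¹ ∈ P := by
        have : u * (y * u⁻¹ * y⁻¹) ∈ P := P.mul_mem hu (hPn.conj_mem _ (P.inv_mem hu) y)
        rwa [← mul_assoc, ← mul_assoc] at this
      have h3 : u * y * u⁻¹ * y⁻¹ ∈ (D ⊓ P : Subgroup G) := ⟨h1, h2⟩
      rw [(Subgroup.disjoint_of_coprime_natCard hco).eq_bot, Subgroup.mem_bot] at h3
      have h4 : u * y = y * u := by
        have : u * y * u⁻¹ * y⁻¹ * (y * u) = y * u := by rw [h3, one_mul]
        rw [← this]; group
      exact h4.symm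
    letI := cjAct G P
    letI : MulDistribMulAction D P := MulDistribMulAction.compHom P D.subtype
    have hact : ∀ (g : D) (v : P), ((g • v : P) : G) = (g : G) * v * (g : G)⁻¹ := by
      intro g v
      change ((MulAut.conjNormal (g : G) v : P) : G) = _
      exact MulAut.conjNormal_apply _ _
    obtain ⟨r, hr, hrD, hrm', hr1⟩ := exists_retr (D := D) hm hnil hco
    have hrU : ∀ u, (r u : G) ∈ U := by
      intro u
      apply mem_norm_of_comm
      intro y hy
      have h1 : y * (r u : G) * y⁻¹ = r u :=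
        (hact ⟨y, hy⟩ (r u)).symm.trans (congrArg Subtype.val (hrD u ⟨y, hy⟩))
      rw [mul_inv_eq_iff_eq_mul] at h1
      exact h1
    have hrm : ∀ u p₀ : P, (p₀ : G) ∈ U → r (u * p₀) = r u * p₀ := by
      intro u p₀ h
      apply hrm'
      intro y
      apply Subtype.ext
      refine (hact y p₀).trans ?_
      rw [hfix p₀ p₀.2 h y y.2]
      group
    by_cases hzU : z ∈ U
    · -- Case II
      have hzR : ∀ y ∈ R, z * y = y * z := by
        intro y hy
        obtain ⟨u, hu, t, ht, rfl⟩ := hdec y hy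
        rw [← mul_assoc, hcen z hz u hu, mul_assoc, ← hfix z (hZP hz) hzU t ht, mul_assoc]
      let Y : Subgroup G := Z ⊓ Subgroup.centralizer (R : Set G)
      have hYn : Y.Normal := by
        have : (Subgroup.centralizer (R : Set G)).Normal := inferInstance
        infer_instance
      have hYne : Y ≠ ⊥ := by
        intro h
        apply hz1
        rw [← Subgroup.mem_bot, ← h]
        exact ⟨hz, Subgroup.mem_centralizer_iff.mpr (fun y hy => (hzR y hy).symm)⟩
      have hYZ : Y = Z := (hmin Y hYn inf_le_left).resolve_left hYne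
      have hZR : ∀ x ∈ Z, ∀ y ∈ R, y * x = x * y := by
        intro x hx y hy
        rw [← hYZ] at hx
        exact (Subgroup.mem_centralizer_iff.mp hx.2) y hy
      have hZU : Z ≤ U := by
        intro x hx
        exact mem_norm_of_comm (fun y hy => hZR x hx y (hDR hy))
      have hDU : D ≤ U := Subgroup.le_normalizer
      have hDn' : (D.subgroupOf U).Normal := by
        rw [hU]; infer_instance
      let π : U →* U ⧸ (D.subgroupOf U) := QuotientGroup.mk' _
      have S : Sit p K P R D Z U π := by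
        refine ⟨hK, hPn, hRn, hZ, hPR, hRK, hPp, hPmax, hRp, hRmax, hDR, hDp, hdec, hDU, hDn,
          hPU, QuotientGroup.mk'_surjective _, ?_, hZU, hZP, hcen⟩
        intro n
        exact (QuotientGroup.eq_one_iff n).trans Iff.rfl
      have hKn₁ : ((K.subgroupOf U).map π).Normal :=
        Subgroup.Normal.map inferInstance _ S.hπ
      have hZn₁ : ((Z.subgroupOf U).map π).Normal :=
        Subgroup.Normal.map inferInstance _ S.hπ
      have hc₁ : Nat.card (U ⧸ (D.subgroupOf U)) ≤ 2 ^ n :=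
        (Nat.card_le_card_of_surjective _ S.hπ).trans
          ((Subgroup.card_le_card_group U).trans hn)
      have hZp₁ : IsPGroup p ((Z.subgroupOf U).map π) := (hZp.comap_subtype).map π
      have hz₁ : π ⟨z, hzU⟩ ≠ 1 := by
        intro h
        have h1 : z ∈ D := (S.hker _).mp h
        have h3 : z ∈ (D ⊓ P : Subgroup G) := ⟨h1, hZP hz⟩
        rw [(Subgroup.disjoint_of_coprime_natCard hco).eq_bot, Subgroup.mem_bot] at h3
        exact hz1 h3
      have hH₁ : HH ((K.subgroupOf U).map π) p j := by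
        cases j with
        | zero => exact inh_HH0 S hH
        | succ j => exact inh_HHs S hH
      have hdet := ih p (U ⧸ (D.subgroupOf U)) ((K.subgroupOf U).map π)
        ((Z.subgroupOf U).map π) n (π ⟨z, hzU⟩) hKn₁ hZn₁ hc₁
        (Subgroup.map_mono (Subgroup.comap_mono hZK)) hZp₁ (inh_min S hmin)
        (Subgroup.mem_map_of_mem π hz) hz₁ (inh_h1 S) (inh_h3 S h3) hH₁
      have hdet' := Det.pullback π S.hπ (inh_comap S) hdet
      have h4 := ic_two hm K P hK hPn hn hPK hPp hPmax hnil U hPU r hr hrU hrm hr1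
        ⟨z, hZP hz⟩ hzU hdet'
      refine Det.mono h4 (by omega) ?_
      rw [← pow_add]
      exact Nat.pow_le_pow_right (by omega) (by omega)
    · -- Case I
      have h4 := ic_one (p := p) hm K P D hK hPn hn hPK hPmax hnil U hPU r hr hrU hrm hr1
        ⟨z, hZP hz⟩ hzU
      refine Det.mono h4 (by omega) ?_
      calc n * (n + 1) ^ (m * (d + 1) + 1) ≤ (n + 1) * (n + 1) ^ (m * (d + 1) + 1) :=
            Nat.mul_le_mul_right _ (by omega)
        _ = (n + 1) ^ (m * (d + 1) + 2) := by ring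
        _ ≤ _ := Nat.pow_le_pow_right (by omega) (by omega)


theorem det_main (d : ℕ) : ∃ s a : ℕ, ∀ (p : ℕ) [Fact p.Prime] (G : Type u)
    [Group G] [Finite G] [Group.IsSolvable G] (K Z : Subgroup G) (n : ℕ) (z : G), K.Normal →
    Z.Normal → Nat.card G ≤ 2 ^ n → Z ≤ K → IsPGroup p Z →
    (∀ Y : Subgroup G, Y.Normal → Y ≤ Z → Y = ⊥ ∨ Y = Z) → z ∈ Z → z ≠ 1 →
    (∀ X : Subgroup G, X ≤ K → IsPGroup p X → X.lowerCentralSeries d ≤ Z) →
    Det G K p 1 s ((n + 1) ^ a) (d + 1) z := by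
  obtain ⟨s, a, h⟩ := ic.{u} d (d + 1) 1 le_rfl
  refine ⟨s, a, ?_⟩
  intro p _ G _ _ _ K Z n z hK hZ hn hZK hZp hmin hz hz1 h3
  obtain ⟨L, hL, -, hLK, hLp, hLmax⟩ := exists_topp p K ⊥ inferInstance bot_le
  rw [Subgroup.relIndex_bot_left] at hLp
  let q : G →* G ⧸ L := QuotientGroup.mk' L
  have hq : Function.Surjective q := QuotientGroup.mk'_surjective L
  have hker : q.ker = L := QuotientGroup.ker_mk' L
  have hKn₁ : (K.map q).Normal := hK.map q hq
  have hZn₁ : (Z.map q).Normal := hZ.map q hq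
  have hKc : (K.map q).comap q = K := by
    rw [Subgroup.comap_map_eq, hker, sup_eq_left]
    exact hLK
  have hc₁ : Nat.card (G ⧸ L) ≤ 2 ^ n := (Nat.card_le_card_of_surjective _ hq).trans hn
  have hZp₁ : IsPGroup p (Z.map q) := hZp.map q
  have hz₁ : q z ≠ 1 := by
    intro h
    have h1 : z ∈ L := (QuotientGroup.eq_one_iff z).mp h
    have hco : Nat.Coprime (Nat.card L) (Nat.card Z) := by
      obtain ⟨k, hk⟩ := IsPGroup.iff_card.mp hZp
      rw [hk]
      exact hLp.pow_right k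
    have h2 : z ∈ (L ⊓ Z : Subgroup G) := ⟨h1, hz⟩
    rw [(Subgroup.disjoint_of_coprime_natCard hco).eq_bot, Subgroup.mem_bot] at h2
    exact hz1 h2
  have hmin₁ : ∀ Y : Subgroup (G ⧸ L), Y.Normal → Y ≤ Z.map q → Y = ⊥ ∨ Y = Z.map q := by
    intro Y hY hYZ
    have hW : (Z ⊓ Y.comap q).Normal := by
      have : (Y.comap q).Normal := hY.comap q
      infer_instance
    have hYW : Y = (Z ⊓ Y.comap q).map q := by
      apply le_antisymm
      · intro y hy
        obtain ⟨x, hx, rfl⟩ := hYZ hy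
        exact Subgroup.mem_map_of_mem q ⟨hx, hy⟩
      · rw [Subgroup.map_le_iff_le_comap]
        exact inf_le_right
    rcases hmin _ hW inf_le_left with h4 | h4
    · left
      rw [hYW, h4, Subgroup.map_bot]
    · right
      rw [h4] at hYW
      exact hYW
  have h1₁ : ∀ Y : Subgroup (G ⧸ L), Y.Normal → Y ≤ K.map q → (Nat.card Y).Coprime p →
      Y = ⊥ := by
    intro Y hY hYK hYp
    have hYm : (Y.comap q).map q = Y := Subgroup.map_comap_eq_self_of_surjective hq Y
    have hLY : L ≤ Y.comap q := hker.ge.trans (Subgroup.ker_le_comap q Y)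
    have hYK' : Y.comap q ≤ K := by
      rw [← hKc]
      exact Subgroup.comap_mono hYK
    have hcard : Nat.card (Y.comap q) = Nat.card L * Nat.card Y := by
      have e1 := Subgroup.relIndex_mul_relIndex (⊥ : Subgroup G) L (Y.comap q) bot_le hLY
      rw [Subgroup.relIndex_bot_left, Subgroup.relIndex_bot_left] at e1
      have e2 : L.relIndex (Y.comap q) = Nat.card Y := by
        have e3 := Subgroup.relIndex_ker (Y.comap q) q
        rw [hker, hYm] at e3
        exact e3
      rw [← e1, e2]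
    have h4 := hLmax (Y.comap q) (hY.comap q) hLY hYK' (by
      rw [Subgroup.relIndex_bot_left, hcard]
      exact Nat.Coprime.mul_left hLp hYp)
    rw [← hYm, h4]
    exact (Subgroup.map_eq_bot_iff L).mpr hker.ge
  have h3₁ : ∀ X : Subgroup (G ⧸ L), X ≤ K.map q → IsPGroup p X →
      X.lowerCentralSeries d ≤ Z.map q := by
    intro X₁ hX hXp
    let α : K →* G ⧸ L := q.comp K.subtype
    have hα : α.range = K.map q := by
      rw [MonoidHom.range_comp, Subgroup.range_subtype]
    obtain ⟨S, hS⟩ := lift_p p α X₁ (by rw [hα]; exact hX) hXp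
    have hX2 : IsPGroup p ((S : Subgroup K).map K.subtype) := S.2.map _
    have h4 := h3 ((S : Subgroup K).map K.subtype) (by
      rintro _ ⟨x, _, rfl⟩
      exact x.2) hX2
    have h5 : (S : Subgroup K).map α = ((S : Subgroup K).map K.subtype).map q :=
      (Subgroup.map_map _ _ _).symm
    rw [h5] at hS
    refine (Subgroup.lowerCentralSeries_mono d hS).trans ?_
    beta_reduce
    rw [← Subgroup.map_lowerCentralSeries]
    exact Subgroup.map_mono h4
  have hdet := h p (G ⧸ L) (K.map q) (Z.map q) n (q z) hKn₁ hZn₁ hc₁ (Subgroup.map_mono hZK)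
    hZp₁ hmin₁ (Subgroup.mem_map_of_mem q hz) hz₁ h1₁ h3₁
    ⟨Z.map q, hZn₁, Subgroup.map_mono hZK, hZp₁, h3₁⟩
  exact Det.pullback q hq hKc hdet

end Pool.Agent.BBX
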