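import Pool.Agent.BBX.Defs
import Pool.Agent.BBN.Main

/-!
# Words with values in a normal subgroup (difficulty 3)

`PZ.all` is the analogue of `Pool.Agent.BBN.PV.all` (`Pool/Agent/BBN/Main.lean`) for words whose
values lie in a normal subgroup `Z`; only the elements of `Z ∩ M` have to be detected, where
`M = (mShape c).sub G`. The proof is a copy of the proof for `PV`:

1. `dens_Z`: for `w ∈ (mShape c).sub (FreeGroup (ι ⊕ ℕ))`. Copy of the proof of
`Pool.Agent.BBN.dens_U` (`Pool/Agent/BBN/Dens.lean`, with `s = mShape c`, `κ = ℕ`). If all values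
are `1` we are done. Otherwise let `z = wv p x₀ a w ≠ 1`; `z ∈ Z` and `z ∈ (mShape c).sub G`
(`Shape.mem_of_mem`), so the hypothesis gives `N`, `δ`; the hypothesis `hinj` of `dens_U` is used
only once, to show that `fb 1 ≠ 1`, and here this follows from the detection of `z = wv p x₀ a w`
(if `fb 1 = 1` then `z` acts trivially on `N` and `δ z = 1`). (It is convenient to prove first
a version of `dens_U` with a given point `x₀` and the hypothesis
`(∃ ν, wv p x₀ a w • ν ≠ ν) ∨ δ.val (wv p x₀ a w) ≠ 1` instead of `hinj`.)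
2. `PZ.undo`: copy of `PV.undo` (`Pool/Agent/BBN/Reduce.lean`): the values of
`(h * w * h⁻¹)⁻¹ * sg s (h * w * h⁻¹)` at the parameters `az z` are
`(v x)⁻¹ * v (x * z)` where `v x = wv p x a (h * w * h⁻¹) ∈ Z` because `Z` is normal.
3. `PZ.kill`, `PZ.mem`, `PZ.all`: copy of the proofs in `Pool/Agent/BBN/Main.lean`.
-/

namespace Pool.Agent.BBX

open scoped commutatorElement
open Pool.Agent.BBN

universe u v

/-- The element `z` is detected by a small nilpotent group with operators. -/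
def DetN (G : Type u) [Group G] (K : Subgroup G) (e c : ℕ) (z : G) : Prop :=
  ∃ (N : Type u) (_ : Group N) (_ : Finite N) (_ : MulDistribMulAction G N) (δ : Z1 K N),
    Nil c N ∧ Nat.card N ≤ 2 ^ e ∧ ((∃ ν : N, z • ν ≠ ν) ∨ δ.val z ≠ 1)

lemma Det.toN {G : Type u} [Group G] {K : Subgroup G} {p m s e c : ℕ} {z : G}
    (h : Det G K p m s e c z) : DetN G K e c z := by
  obtain ⟨N, i1, i2, i3, δ, E, h1, h2, h3, h4, h5, h6, h7⟩ := h
  exact ⟨N, i1, i2, i3, δ, h1, h2, h7⟩

/-- A word with parameters whose values lie in a normal subgroup `Z`, the elements of which are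
detected, vanishes identically or is violated often. -/
def PZ {ι : Type} (d c : ℕ) (w : FreeGroup (ι ⊕ ℕ)) : Prop :=
  ∃ C : ℕ, ∀ (G : Type u) [Group G] [Finite G] (X : Type u) [Group X] [Finite X]
    (p : ι → X →* G) (Z : Subgroup G) (n e : ℕ), Z.Normal →
    (∀ z ∈ Z, z ∈ (mShape c).sub G → z ≠ 1 → DetN G ((mShape c).sub G) e d z) →
    Nat.card G ≤ 2 ^ n → ∀ a : ℕ → G, (∀ x : X, wv p x a w ∈ Z) →
      (∀ x : X, wv p x a w = 1) ∨
        Nat.card X ≤ (n + e + 2) ^ C * Nat.card {x : X // wv p x a w ≠ 1}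

section
open Pool.Agent.BBG
set_option linter.unusedSectionVars false

section PzU
variable {ι κ : Type}

/-- version of `dens_U` with a given point -/
theorem pz_dens (d : ℕ) (s : Shape) (w : FreeGroup (ι ⊕ κ))
    (hw : w ∈ s.sub (FreeGroup (ι ⊕ κ))) :
    ∃ C : ℕ, ∀ (G : Type u) [Group G] [Finite G] (X : Type u) [Group X] [Finite X]
      (p : ι → X →* G) (N : Type u) [Group N] [Finite N]
      [MulDistribMulAction G N] (δ : Z1 (s.sub G) N) (n e : ℕ), Nil d N →
      Nat.card G ≤ 2 ^ n → Nat.card N ≤ 2 ^ e → ∀ (a : κ → G) (x₀ : X),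
        ((∃ ν : N, wv p x₀ a w • ν ≠ ν) ∨ δ.val (wv p x₀ a w) ≠ 1) →
          Nat.card X ≤ (n + e + 2) ^ C * Nat.card {x : X // wv p x a w ≠ 1} := by
  obtain ⟨C₁, hC₁⟩ := MC.all.{u} d (plus w)
  obtain ⟨C₂, hC₂⟩ := Good.all.{u} d s (plus w) (s.mem_of_mem plus hw)
  refine ⟨eS 1 (C₁ + 1 + 1) (d + 2) + C₂ + 1, ?_⟩
  intro G _ _ X _ _ p N _ _ _ δ n e hN hG hE a x₀ hx₀
  have hm : 2 ≤ n + e + 2 := by omega
  set m := n + e + 2 with hm'
  have he : e ≤ m ^ 1 := by rw [pow_one]; omega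
  let E' := (N → N) × N
  let Ψ : G → E' := fun y => (fun ν => (y • ν) * ν⁻¹, δ.val y)
  let fb : X → X → E' := fun b x => Ψ (wv p (b * x) a w)
  have s1 : Small (m ^ C₁) (Set.range fun (b : X) (y : X × N) =>
      wv p (b * y.1) a w • y.2) := by
    refine Small.mono (hC₁ G X p N n e hN hG hE) ?_ le_rfl
    rintro _ ⟨b, rfl⟩
    refine ⟨Sum.elim a fun i => p i b, ?_⟩
    funext y
    beta_reduce
    rw [wv_plus]
  have s2 : Gen (m ^ 1) ({fun y : X × N => y.2⁻¹} : Set (X × N → N)) :=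
    Gen.mono (Small.single hE (F := {fun y : X × N => y.2⁻¹}) (fun y : X × N => y.2⁻¹)
      (fun f hf => hf)).gen subset_rfl he
  have s12 := Gen.toSmall hm hN hE he (pow_bd hm) (s1.gen.mul s2
    (F'' := Set.range fun (b : X) (y : X × N) => (wv p (b * y.1) a w • y.2) * y.2⁻¹) (by
      rintro _ ⟨b, rfl⟩
      exact ⟨_, ⟨b, rfl⟩, _, rfl, rfl⟩))
  have s3 : Small (m ^ C₂) (Set.range fun (b x : X) => δ.val (wv p (b * x) a w)) := by
    let θ : (X × Z1 (s.sub G) N → N) →* (X → N) :=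
      { toFun := fun f x => f (x, δ)
        map_one' := rfl
        map_mul' := fun _ _ => rfl }
    refine (hC₂ G X p N n e hN hG hE).map θ ?_
    rintro _ ⟨b, rfl⟩
    refine ⟨_, ⟨Sum.elim a fun i => p i b, rfl⟩, ?_⟩
    funext x
    change _ = δ.val (wv p x (Sum.elim a fun i => p i b) (plus w))
    rw [wv_plus]
  let θ₁ : (X → E') →* (X × N → N) :=
    { toFun := fun f y => (f y.1).1 y.2
      map_one' := rfl
      map_mul' := fun _ _ => rfl }
  let θ₂ : (X → E') →* (X → N) :=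
    { toFun := fun f y => (f y).2
      map_one' := rfl
      map_mul' := fun _ _ => rfl }
  have s4 : Small (m ^ (eS 1 (C₁ + 1 + 1) (d + 2) + C₂ + 1)) (Set.range fb) := by
    refine Small.mono (Small.pair θ₁ θ₂ ?_ (Small.mono s12 ?_ le_rfl) (Small.mono s3 ?_ le_rfl))
      subset_rfl (pow_bd hm)
    · intro f h1 h2
      funext x
      refine Prod.ext ?_ (congrFun h2 x)
      funext ν
      exact congrFun h1 (x, ν)
    · rintro _ ⟨_, ⟨b, rfl⟩, rfl⟩
      exact ⟨b, rfl⟩
    · rintro _ ⟨_, ⟨b, rfl⟩, rfl⟩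
      exact ⟨b, rfl⟩
  obtain ⟨L₀, hL₀, hL₀f, hL₀c⟩ := s4
  let L : Subgroup (X → E') := Subgroup.closure (Set.range fb)
  have hLL : L ≤ L₀ := (Subgroup.closure_le L₀).mpr hL₀
  have hLc : Nat.card L ≤ 2 ^ (m ^ (eS 1 (C₁ + 1 + 1) (d + 2) + C₂ + 1)) :=
    (Subgroup.card_le_of_le hLL).trans hL₀c
  have htr : ∀ f ∈ L, ∀ y : X, (fun x => f (y * x)) ∈ L := by
    intro f hf y
    induction hf using Subgroup.closure_induction with
    | mem f hf =>
      obtain ⟨b, rfl⟩ := hf
      apply Subgroup.subset_closure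
      refine ⟨b * y, ?_⟩
      funext x
      change Ψ (wv p (b * y * x) a w) = Ψ (wv p (b * (y * x)) a w)
      rw [mul_assoc]
    | one => exact L.one_mem
    | mul f g _ _ h1 h2 => exact L.mul_mem h1 h2
    | inv f _ h1 => exact L.inv_mem h1
  have hne : fb 1 ≠ 1 := by
    intro h
    have h0 := congrFun h x₀
    change Ψ (wv p (1 * x₀) a w) = 1 at h0
    rw [one_mul] at h0
    have h1 : (fun ν => (wv p x₀ a w • ν) * ν⁻¹) = (1 : N → N) := congrArg Prod.fst h0
    have h2 : δ.val (wv p x₀ a w) = 1 := congrArg Prod.snd h0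
    rcases hx₀ with ⟨ν, hν⟩ | h3
    · exact hν (mul_inv_eq_one.mp (congrFun h1 ν))
    · exact h3 h2
  have hu := uncertainty L hLc htr (fb 1) (Subgroup.subset_closure ⟨1, rfl⟩) hne
  refine hu.trans (Nat.mul_le_mul_left _ ?_)
  refine Nat.card_le_card_of_injective
    (fun x : {x // fb 1 x ≠ 1} => (⟨x.1, ?_⟩ : {x : X // wv p x a w ≠ 1})) ?_
  · intro h
    apply x.2
    change Ψ (wv p (1 * x.1) a w) = 1
    rw [one_mul, h]
    refine Prod.ext ?_ δ.one
    funext ν
    change ((1 : G) • ν) * ν⁻¹ = 1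
    rw [one_smul, mul_inv_cancel]
  · intro x y hxy
    apply Subtype.ext
    have h := congrArg Subtype.val hxy
    exact h


end PzU

/-- the words of `[γ_c F, γ_c F]` -/
theorem pz_U {ι : Type} (d c : ℕ) (w : FreeGroup (ι ⊕ ℕ))
    (hw : w ∈ (mShape c).sub (FreeGroup (ι ⊕ ℕ))) : PZ.{u} d c w := by
  obtain ⟨C, hC⟩ := pz_dens.{u} d (mShape c) w hw
  refine ⟨C, ?_⟩
  intro G _ _ X _ _ p Z n e _ hdet hG a hval
  by_cases hlaw : ∀ x : X, wv p x a w = 1
  · exact Or.inl hlaw
  right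
  push Not at hlaw
  obtain ⟨x₀, hx₀⟩ := hlaw
  obtain ⟨N, i1, i2, i3, δ, h1, h2, h3⟩ := hdet _ (hval x₀) ((mShape c).mem_of_mem (wv p x₀ a) hw) hx₀
  exact hC G X p N δ n e h1 hG h2 a x₀ h3

section PzM
variable {ι : Type} [Finite ι]

/-- Undoing a difference. -/
theorem PZ.undo {d c : ℕ} (w h : FreeGroup (ι ⊕ ℕ))
    (H : ∀ s : ι → ℕ, PZ.{u} d c ((h * w * h⁻¹)⁻¹ * sg s (h * w * h⁻¹))) : PZ.{u} d c w := by
  set v := h * w * h⁻¹ with hv
  obtain ⟨N, hN⟩ := exists_fresh.{u} v
  obtain ⟨m, ⟨e⟩⟩ := Finite.exists_equiv_fin ι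
  let s : ι → ℕ := fun i => N + (e i : ℕ)
  have hs : Function.Injective s := by
    intro i j hij
    have h1 : N + (e i : ℕ) = N + (e j : ℕ) := hij
    have : (e i : ℕ) = e j := by omega
    exact e.injective (Fin.ext this)
  obtain ⟨C, hC⟩ := H s
  refine ⟨C + 1, ?_⟩
  intro G _ _ X _ _ p Z n e' hZn hdet hG a hZw
  have hvw : ∀ x : X, wv p x a v = 1 ↔ wv p x a w = 1 := by
    intro x
    rw [hv, map_mul, map_mul, map_inv]
    constructor
    · intro h1
      have h2 : wv p x a h * wv p x a w = wv p x a h := by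
        rwa [mul_inv_eq_one] at h1
      exact mul_eq_left.mp h2
    · intro h1
      rw [h1, mul_one, mul_inv_cancel]
  have hvZ : ∀ x : X, wv p x a v ∈ Z := by
    intro x
    rw [hv, map_mul, map_mul, map_inv]
    exact hZn.conj_mem _ (hZw x) _
  by_cases hlaw : ∀ x : X, wv p x a w = 1
  · exact Or.inl hlaw
  right
  push Not at hlaw
  obtain ⟨x₀, hx₀⟩ := hlaw
  let az : X → ℕ → G := fun z => Function.extend s (fun i => p i z) a
  have haz : ∀ (z : X) (i : ι), az z (s i) = p i z := fun z i =>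
    hs.extend_apply (fun i => p i z) a i
  have haz' : ∀ (z : X) (k : ℕ), k < N → a k = az z k := by
    intro z k hk
    refine (Function.extend_apply' (fun i => p i z) a k ?_).symm
    rintro ⟨i, hi⟩
    have : N + (e i : ℕ) = k := hi
    omega
  have hval : ∀ z x : X, wv p x (az z) (v⁻¹ * sg s v) =
      (wv p x a v)⁻¹ * wv p (x * z) a v := by
    intro z x
    rw [map_mul, map_inv, wv_sg p x z (az z) s (haz z), ← hN G X p x a (az z) (haz' z),
      ← hN G X p (x * z) a (az z) (haz' z)]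
  by_cases hz : ∀ z x : X, wv p x (az z) (v⁻¹ * sg s v) = 1
  · -- `v` is constant
    have hall : ∀ x : X, wv p x a w ≠ 1 := by
      intro x hx
      apply hx₀
      have h1 := hz (x₀⁻¹ * x) x₀
      rw [hval, mul_inv_cancel_left, inv_mul_eq_one] at h1
      rw [← hvw, h1, hvw]
      exact hx
    have h2 : Nat.card X ≤ Nat.card {x : X // wv p x a w ≠ 1} :=
      Nat.card_le_card_of_injective (fun x => ⟨x, hall x⟩) (fun x y hxy => by
        have := congrArg Subtype.val hxy
        exact this)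
    refine h2.trans (Nat.le_mul_of_pos_left _ ?_)
    positivity
  · push Not at hz
    obtain ⟨z, x₁, hx₁⟩ := hz
    have hZz : ∀ x : X, wv p x (az z) (v⁻¹ * sg s v) ∈ Z := by
      intro x
      rw [hval]
      exact Z.mul_mem (Z.inv_mem (hvZ x)) (hvZ (x * z))
    rcases hC G X p Z n e' hZn hdet hG (az z) hZz with h | h
    · exact absurd (h x₁) hx₁
    have h3 : Nat.card {x : X // wv p x (az z) (v⁻¹ * sg s v) ≠ 1} ≤
        2 * Nat.card {x : X // wv p x a w ≠ 1} := by
      have key : ∀ x : X, wv p x (az z) (v⁻¹ * sg s v) ≠ 1 →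
          wv p x a w ≠ 1 ∨ wv p (x * z) a w ≠ 1 := by
        intro x hx
        by_contra hcon
        push Not at hcon
        apply hx
        rw [hval, (hvw x).mpr hcon.1, (hvw (x * z)).mpr hcon.2, inv_one, one_mul]
      classical
      let f : {x : X // wv p x (az z) (v⁻¹ * sg s v) ≠ 1} →
          {x : X // wv p x a w ≠ 1} ⊕ {x : X // wv p x a w ≠ 1} := fun x =>
        if hx : wv p x.1 a w ≠ 1 then Sum.inl ⟨x.1, hx⟩
        else Sum.inr ⟨x.1 * z, (key x.1 x.2).resolve_left hx⟩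
      have hf : Function.Injective f := by
        intro x y hxy
        simp only [f] at hxy
        apply Subtype.ext
        split_ifs at hxy with h1 h2 h2
        · have h5 := Sum.inl.inj hxy
          have h6 := congrArg Subtype.val h5
          exact h6
        · have h5 := Sum.inr.inj hxy
          have h6 := congrArg Subtype.val h5
          exact mul_right_cancel h6
      have h4 := Nat.card_le_card_of_injective f hf
      rw [Nat.card_sum] at h4
      omega
    calc Nat.card X ≤ (n + e' + 2) ^ C *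
          Nat.card {x : X // wv p x (az z) (v⁻¹ * sg s v) ≠ 1} := h
      _ ≤ (n + e' + 2) ^ C * (2 * Nat.card {x : X // wv p x a w ≠ 1}) :=
          Nat.mul_le_mul_left _ h3
      _ ≤ (n + e' + 2) ^ C * ((n + e' + 2) * Nat.card {x : X // wv p x a w ≠ 1}) :=
          Nat.mul_le_mul_left _ (Nat.mul_le_mul_right _ (by omega))
      _ = _ := by ring


variable (c : ℕ)

/-- Evaluation of killing strategies. -/
lemma PZ.kill (d : ℕ) {Z : Set (Fx (Qn ι c) (ι ⊕ ℕ))}
    (hZ : ∀ w ∈ Aa ι c, fox (Aa ι c) w ∈ Z → PZ.{u} d c w) :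
    ∀ N, ∀ w ∈ Aa ι c,
      Kill (fun s : ι → ℕ => ta c s) (⊤ : Subgroup (Qn ι c)) Z N (fox (Aa ι c) w) →
        PZ.{u} d c w := by
  intro N
  induction N with
  | zero => exact hZ
  | succ N ih =>
    intro w hw hk
    obtain ⟨x, -, hk⟩ := hk
    obtain ⟨h, rfl⟩ := QuotientGroup.mk'_surjective (Aa ι c) x
    apply PZ.undo w h
    intro s
    set v := h * w * h⁻¹ with hv
    have hvA : v ∈ Aa ι c := (inferInstance : (Aa ι c).Normal).conj_mem w hw h
    have hsv : sg s v ∈ Aa ι c := (lcsShape c).mem_of_mem (sg s) hvA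
    have hDv : fox (Aa ι c) v = QuotientGroup.mk' (Aa ι c) h • fox (Aa ι c) w := by
      rw [hv, fox_mul, fox_mul, map_mul, mk_eq_one c hw, mul_one, fox_inv, smul_neg,
        smul_smul, mul_inv_cancel, one_smul]
      abel
    apply ih
    · exact (Aa ι c).mul_mem ((Aa ι c).inv_mem hvA) hsv
    · have e : fox (Aa ι c) (v⁻¹ * sg s v) =
          ta c s (QuotientGroup.mk' (Aa ι c) h • fox (Aa ι c) w) -
            QuotientGroup.mk' (Aa ι c) h • fox (Aa ι c) w := by
        rw [fox_mul, fox_inv, map_inv, mk_eq_one c hvA, inv_one, one_smul, one_smul, ← hDv,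
          ta_fox]
        abel
      rw [e]
      exact hk s

theorem PZ.mem (d : ℕ) {w : Ph ι} (hw : w ∈ Aa ι c) : PZ.{u} d c w := by
  have hchain := chain_Q (ι := ι) c
  have h0 : ∀ w ∈ Aa ι c, fox (Aa ι c) w ∈ ({0} : Set (Fx (Qn ι c) (ι ⊕ ℕ))) → PZ.{u} d c w := by
    intro w hw h
    have h1 : w ∈ ⁅Aa ι c, Aa ι c⁆ := magnus (Aa ι c) hw h
    exact pz_U.{u} d c w h1
  have h1 : ∀ q', ∀ w ∈ Aa ι c, fox (Aa ι c) w ∈ Re2 ι c q' → PZ.{u} d c w := by
    intro q' w hw h
    exact PZ.kill c d h0 _ w hw (kill_chain (frameA c) hchain q' _ h)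
  obtain ⟨q, hq⟩ := fox_mem c w
  exact PZ.kill c d (h1 _) _ w hw (kill_chain (frameB c) hchain q _ hq)


end PzM
end

theorem PZ.all {ι : Type} [Finite ι] (d c : ℕ) (w : FreeGroup (ι ⊕ ℕ)) : PZ.{u} d c w := by
  have hchain := chain_Q (ι := ι) c
  have key : ∀ (i : ℕ) (K : Subgroup (Qn ι c)), Pool.Agent.BBG.Chain (fun s : ι → ℕ => sq c s) i K →
      ∀ w : Ph ι, QuotientGroup.mk' (Aa ι c) w ∈ K → PZ.{u} d c w := by
    intro i K hK
    induction hK with
    | bot =>
      intro w hw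
      exact PZ.mem c d ((QuotientGroup.eq_one_iff w).mp (Subgroup.mem_bot.mp hw))
    | step h1 h2 h3 ih =>
      intro w hw
      apply PZ.undo w 1
      intro s
      apply ih
      rw [one_mul, inv_one, mul_one, map_mul, map_inv]
      exact h3 _ hw s
  exact key _ _ hchain w (Subgroup.mem_top _)


end Pool.Agent.BBX
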