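import Pool.Agent.BBX.IC
import Pool.Agent.BBX.PZ
import Pool.Agent.BBX.Core

/-!
# Reduction to monolithic groups

`mono_fam`. PROOF. Let `s`, `a'` be given by `det_main d` and `C₀` by `PZ.all (d+1) c w`; let
`C` be such that `(n + (n+1)^a' + 2) ^ C₀ ≤ (n + 2) ^ C` (e.g. `C = (a' + 2) * C₀`). Suppose that
some value `wv p x a w` is not `1`. Let `M` be a normal subgroup of `G` of maximal order among
those that do not contain all values (`⊥` is one). Let `q = QuotientGroup.mk' M`, `H = G ⧸ M`,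
`p' i = q.comp (p i)`, `a' = q ∘ a`: `wv p' x a' w = q (wv p x a w)` (`FreeGroup.ext_hom`).
`H` is not trivial. Let `Z` be a minimal normal subgroup of `H` (`exists_minn` with `K = ⊤`); it is
a `ℓ`-group for a prime `ℓ` (`exists_pr`). `M' = Z.comap q` is normal and strictly larger than `M`,
so it contains all values: `wv p' x a' w ∈ Z` for all `x`. Let `K = (mShape c).sub H`. Detection:
let `z ∈ Z`, `z ∈ K`, `z ≠ 1`. `Z ⊓ K` is normal and nontrivial, so `Z ≤ K`. If `X ≤ K` is an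
`ℓ`-subgroup, then `X` is nilpotent (`IsPGroup.isNilpotent`), its image `Y` in `G ⧸ M'` under
`H → G ⧸ M'` (`QuotientGroup.map` with the identity, kernel `Z`) is nilpotent and inside
`(mShape c).sub (G ⧸ M')` (`Shape.mem_of_mem`), so `Y.lowerCentralSeries d = ⊥` by hypothesis, i.e.
`X.lowerCentralSeries d ≤ Z`. So `det_main` and `Det.toN` give
`DetN H K ((n+1)^a') (d+1) z`. Now `PZ.all (d+1) c w` for `H`, `X`, `p'`, `Z`, `a'`
(`card H ≤ card G ≤ 2 ^ n`): the first alternative would mean that all values are in `M`; the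
second gives the claim, because `{x | wv p' x a' w ≠ 1} ⊆ {x | wv p x a w ≠ 1}`.
-/

namespace Pool.Agent.BBX

open scoped commutatorElement
open Pool.Agent.BBN

universe u v

/-- The value of a word in a quotient. -/
lemma Mono_wv {ι : Type} {G X : Type u} {H : Type u} [Group G] [Group X] [Group H] (p : ι → X →* G) (x : X)
    (a : ℕ → G) (q : G →* H) (w : FreeGroup (ι ⊕ ℕ)) :
    wv (fun i => q.comp (p i)) x (fun j => q (a j)) w = q (wv p x a w) := by
  have : wv (fun i => q.comp (p i)) x (fun j => q (a j)) = q.comp (wv p x a) := by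
    apply FreeGroup.ext_hom
    intro j
    rcases j with i | j
    · simp
    · simp
  exact DFunLike.congr_fun this w

lemma Mono_bd (n a C : ℕ) : (n + (n + 1) ^ a + 2) ^ C ≤ (n + 2) ^ ((a + 2) * C) := by
  rw [pow_mul]
  apply Nat.pow_le_pow_left
  have h1 : (n + 1) ^ a ≤ (n + 2) ^ a := Nat.pow_le_pow_left (by omega) a
  have h2 := pow_bd (m := n + 2) (a := 1) (b := a) (by omega)
  have e : 1 + a + 1 = a + 2 := by omega
  rw [e, pow_one] at h2
  omega

/-- The analogue of `PZ` for an arbitrary outer commutator subgroup. -/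
def PZs {ι : Type} (d : ℕ) (s : Shape) (w : FreeGroup (ι ⊕ ℕ)) : Prop :=
  ∃ C : ℕ, ∀ (G : Type u) [Group G] [Finite G] (X : Type u) [Group X] [Finite X]
    (p : ι → X →* G) (Z : Subgroup G) (n e : ℕ), Z.Normal →
    (∀ z ∈ Z, z ∈ s.sub G → z ≠ 1 → DetN G (s.sub G) e d z) →
    Nat.card G ≤ 2 ^ n → ∀ a : ℕ → G, (∀ x : X, wv p x a w ∈ Z) →
      (∀ x : X, wv p x a w = 1) ∨
        Nat.card X ≤ (n + e + 2) ^ C * Nat.card {x : X // wv p x a w ≠ 1}

lemma PZ.toS {ι : Type} {d c : ℕ} {w : FreeGroup (ι ⊕ ℕ)} (h : PZ.{u} d c w) :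
    PZs.{u} d (mShape c) w := h

lemma PZs.outer {ι : Type} (d : ℕ) (s : Shape) (w : FreeGroup (ι ⊕ ℕ))
    (hw : w ∈ s.sub (FreeGroup (ι ⊕ ℕ))) : PZs.{u} d s w := by
  obtain ⟨C, hC⟩ := pz_dens.{u} d s w hw
  refine ⟨C, ?_⟩
  intro G _ _ X _ _ p Z n e _ hdet hG a hval
  by_cases hlaw : ∀ x : X, wv p x a w = 1
  · exact Or.inl hlaw
  right
  push Not at hlaw
  obtain ⟨x₀, hx₀⟩ := hlaw
  obtain ⟨N, i1, i2, i3, δ, h1, h2, h3⟩ := hdet _ (hval x₀) (s.mem_of_mem (wv p x₀ a) hw) hx₀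
  exact hC G X p N δ n e h1 hG h2 a x₀ h3

theorem mono_shape {ι κ : Type} [Finite κ] (d : ℕ) (sh : Shape) (w : κ → FreeGroup (ι ⊕ ℕ))
    (hw : ∀ k, PZs.{u} (d + 1) sh (w k)) :
    ∃ C : ℕ, ∀ (G : Type u) [Group G] [Finite G] [Group.IsSolvable G] (X : Type u) [Group X]
      [Finite X] (p : ι → X →* G) (n : ℕ) (a : ℕ → G), Nat.card G ≤ 2 ^ n →
      (∀ (M : Subgroup G) [M.Normal], (∀ k, ∀ x : X, wv p x a (w k) ∈ M) →
        ∀ Y : Subgroup (G ⧸ M), Y ≤ sh.sub (G ⧸ M) → Group.IsNilpotent Y →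
          Y.lowerCentralSeries d = ⊥) →
      (∀ k, ∀ x : X, wv p x a (w k) = 1) ∨
        ∃ k, Nat.card X ≤ (n + 2) ^ C * Nat.card {x : X // wv p x a (w k) ≠ 1} := by
  obtain ⟨s, a', hdet⟩ := det_main.{u} d
  choose C₀ hPZ using hw
  have : Fintype κ := Fintype.ofFinite κ
  refine ⟨(a' + 2) * ∑ k, C₀ k, ?_⟩
  intro G _ _ _ X _ _ p n a hG hyp
  by_cases hlaw : ∀ k, ∀ x : X, wv p x a (w k) = 1
  · exact Or.inl hlaw
  right
  have hfin : Set.Finite {M : Subgroup G | M.Normal ∧ ¬ ∀ k, ∀ x : X, wv p x a (w k) ∈ M} :=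
    Set.toFinite _
  obtain ⟨M, ⟨hMn, hMv⟩, hMmax⟩ := hfin.exists_maximal ⟨⊥, inferInstance, by simpa using hlaw⟩
  have := hMn
  set q : G →* G ⧸ M := QuotientGroup.mk' M with hq
  have hker : q.ker = M := QuotientGroup.ker_mk' M
  have hqs : Function.Surjective q := QuotientGroup.mk'_surjective M
  have hH : (⊤ : Subgroup (G ⧸ M)) ≠ ⊥ := by
    intro h0
    apply hMv
    intro k x
    have h1 : q (wv p x a (w k)) ∈ (⊤ : Subgroup (G ⧸ M)) := Subgroup.mem_top _
    rw [h0, Subgroup.mem_bot, ← MonoidHom.mem_ker, hker] at h1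
    exact h1
  obtain ⟨Z, hZn, hZb, -, hmin⟩ := exists_minn (⊤ : Subgroup (G ⧸ M)) inferInstance hH
  obtain ⟨ℓ, hℓ, hZℓ⟩ := exists_pr Z hZn hZb hmin
  have : Fact ℓ.Prime := ⟨hℓ⟩
  have := hZn
  set M' : Subgroup G := Z.comap q with hM'
  have hM'n : M'.Normal := hZn.comap q
  have hMM' : M ≤ M' := by
    intro g hg
    rw [hM', Subgroup.mem_comap]
    have : q g = 1 := by
      rw [← MonoidHom.mem_ker, hker]
      exact hg
    rw [this]
    exact Z.one_mem
  have hvals' : ∀ k, ∀ x : X, wv p x a (w k) ∈ M' := by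
    by_contra hc
    have h1 : M' ≤ M := hMmax ⟨hM'n, hc⟩ hMM'
    apply hZb
    rw [eq_bot_iff]
    intro z hz
    obtain ⟨g, rfl⟩ := hqs z
    have h2 : g ∈ M := h1 (Subgroup.mem_comap.2 hz)
    rw [Subgroup.mem_bot, ← MonoidHom.mem_ker, hker]
    exact h2
  have hcard : Nat.card (G ⧸ M) ≤ 2 ^ n :=
    (Nat.card_le_card_of_surjective q hqs).trans hG
  have hdetN : ∀ z ∈ Z, z ∈ sh.sub (G ⧸ M) → z ≠ 1 →
      DetN (G ⧸ M) (sh.sub (G ⧸ M)) ((n + 1) ^ a') (d + 1) z := by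
    intro z hz hzK hz1
    have hKn : (sh.sub (G ⧸ M)).Normal := Shape.normal _ _
    have hZK : Z ≤ sh.sub (G ⧸ M) := by
      rcases hmin (Z ⊓ sh.sub (G ⧸ M)) inferInstance inf_le_left with h1 | h1
      · exfalso
        have h2 : z ∈ Z ⊓ sh.sub (G ⧸ M) := ⟨hz, hzK⟩
        rw [h1, Subgroup.mem_bot] at h2
        exact hz1 h2
      · rw [← h1]
        exact inf_le_right
    refine (hdet ℓ (G ⧸ M) (sh.sub (G ⧸ M)) Z n z hKn hZn hcard hZK hZℓ hmin hz hz1 ?_).toN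
    intro Y hYK hYp
    let r : G ⧸ M →* G ⧸ M' := QuotientGroup.map M M' (MonoidHom.id G) (by simpa using hMM')
    have hr : ∀ y : G ⧸ M, r y = 1 → y ∈ Z := by
      intro y hy
      obtain ⟨g, rfl⟩ := hqs y
      have h2 : r (q g) = QuotientGroup.mk' M' g := rfl
      rw [h2, ← MonoidHom.mem_ker, QuotientGroup.ker_mk'] at hy
      exact Subgroup.mem_comap.1 hy
    have : Finite Y := inferInstance
    have hYnil : Group.IsNilpotent Y := hYp.isNilpotent
    have hYn : Group.IsNilpotent (Y.map r) := by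
      have hs : Function.Surjective (r.subgroupMap Y) := r.subgroupMap_surjective Y
      exact Group.nilpotent_of_surjective (r.subgroupMap Y) hs
    have hYK' : Y.map r ≤ sh.sub (G ⧸ M') :=
      (Subgroup.map_mono hYK).trans (Shape.map_le _ r)
    have h3 := hyp M' hvals' (Y.map r) hYK' hYn
    intro y hy
    apply hr
    have h4 : r y ∈ (Y.lowerCentralSeries d).map r := Subgroup.mem_map_of_mem r hy
    rw [Subgroup.map_lowerCentralSeries, h3, Subgroup.mem_bot] at h4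
    exact h4
  push Not at hMv
  obtain ⟨k, x₀, hx₀⟩ := hMv
  refine ⟨k, ?_⟩
  rcases hPZ k (G ⧸ M) X (fun i => q.comp (p i)) Z n ((n + 1) ^ a') hZn hdetN hcard
    (fun j => q (a j)) (fun x => by rw [Mono_wv]; exact hvals' k x) with h1 | h1
  · exfalso
    apply hx₀
    have h2 := h1 x₀
    rw [Mono_wv, ← MonoidHom.mem_ker, hker] at h2
    exact h2
  · refine h1.trans ?_
    refine Nat.mul_le_mul ((Mono_bd n a' (C₀ k)).trans ?_) ?_
    · refine Nat.pow_le_pow_right (by omega) (Nat.mul_le_mul_left _ ?_)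
      exact Finset.single_le_sum (f := C₀) (fun _ _ => Nat.zero_le _) (Finset.mem_univ k)
    refine Nat.card_le_card_of_injective (fun x => ⟨x.1, fun h2 => x.2 (by rw [Mono_wv, h2, map_one])⟩) ?_
    intro x y hxy
    exact Subtype.ext (congrArg (fun z : {x : X // wv p x a (w k) ≠ 1} => z.1) hxy)

theorem mono_fam {ι κ : Type} [Finite ι] [Finite κ] (d c : ℕ) (w : κ → FreeGroup (ι ⊕ ℕ)) :
    ∃ C : ℕ, ∀ (G : Type u) [Group G] [Finite G] [Group.IsSolvable G] (X : Type u) [Group X]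
      [Finite X] (p : ι → X →* G) (n : ℕ) (a : ℕ → G), Nat.card G ≤ 2 ^ n →
      (∀ (M : Subgroup G) [M.Normal], (∀ k, ∀ x : X, wv p x a (w k) ∈ M) →
        ∀ Y : Subgroup (G ⧸ M), Y ≤ (mShape c).sub (G ⧸ M) → Group.IsNilpotent Y →
          Y.lowerCentralSeries d = ⊥) →
      (∀ k, ∀ x : X, wv p x a (w k) = 1) ∨
        ∃ k, Nat.card X ≤ (n + 2) ^ C * Nat.card {x : X // wv p x a (w k) ≠ 1} :=
  mono_shape.{u} d (mShape c) w (fun k => (PZ.all.{u} (d + 1) c (w k)).toS)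

end Pool.Agent.BBX
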