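import Pool.Agent.BBX.Mono

/-!
The density theorem for finite subsets of an outer commutator subgroup.
-/

namespace Pool.Agent.BBX

open scoped commutatorElement
open Pool.Agent.BBG
open Pool.Agent.BBN

universe u

theorem outer_fam (s : Shape) (d k : ℕ) (W : Finset (FreeGroup (Fin k)))
    (hW : ∀ w ∈ W, w ∈ s.sub (FreeGroup (Fin k))) :
    ∃ C : ℕ, ∀ (G : Type u) [Group G] [Finite G] [Group.IsSolvable G] (n : ℕ),
      Nat.card G ≤ 2 ^ n → ∀ (Y : Subgroup (Fin k → G)) (g : Fin k → G),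
      (∀ (M : Subgroup G) [M.Normal],
        (∀ w ∈ W, ∀ h ∈ Y, FreeGroup.lift (fun i => g i * h i) w ∈ M) →
        ∀ X : Subgroup (G ⧸ M), X ≤ s.sub (G ⧸ M) → Group.IsNilpotent X →
          X.lowerCentralSeries d = ⊥) →
        (∀ w ∈ W, ∀ h ∈ Y, FreeGroup.lift (fun i => g i * h i) w = 1) ∨
          ∃ w ∈ W, Nat.card Y ≤ (n + 2) ^ C *
            Nat.card {h : Fin k → G // h ∈ Y ∧ FreeGroup.lift (fun i => g i * h i) w ≠ 1} := by
  classical
  let κ : Type := {w // w ∈ W}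
  let θ : FreeGroup (Fin k) →* FreeGroup (Fin k ⊕ ℕ) :=
    FreeGroup.lift fun i => FreeGroup.of (Sum.inr (i : ℕ)) * FreeGroup.of (Sum.inl i)
  obtain ⟨C, hC⟩ := mono_shape.{u} (ι := Fin k) (κ := κ) d s (fun w => θ w)
    (fun w => PZs.outer (d + 1) s (θ w) (s.mem_of_mem θ (hW w w.2)))
  refine ⟨C, ?_⟩
  intro G _ _ _ n hn Y g hyp
  let p : Fin k → Y →* G := fun i => (Pi.evalMonoidHom (fun _ : Fin k => G) i).comp Y.subtype
  let a : ℕ → G := fun m => if h : m < k then g ⟨m, h⟩ else 1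
  have ha : ∀ i : Fin k, a (i : ℕ) = g i := fun i => dif_pos i.2
  have hval : ∀ (w : FreeGroup (Fin k)) (h : Y),
      wv p h a (θ w) = FreeGroup.lift (fun i => g i * h.1 i) w := by
    intro w h
    have : (wv p h a).comp θ = FreeGroup.lift (fun i => g i * h.1 i) := by
      apply FreeGroup.ext_hom
      intro i
      simp [θ, p, ha]
    exact DFunLike.congr_fun this w
  rcases hC G Y p n a hn (by
    intro M _ hM X hX hXn
    refine hyp M ?_ X hX hXn
    intro w hw h hh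
    rw [← hval w ⟨h, hh⟩]
    exact hM ⟨w, hw⟩ ⟨h, hh⟩) with h1 | ⟨w, h1⟩
  · left
    intro w hw h hh
    rw [← hval w ⟨h, hh⟩]
    exact h1 ⟨w, hw⟩ ⟨h, hh⟩
  · right
    refine ⟨w, w.2, h1.trans (Nat.mul_le_mul_left _ ?_)⟩
    refine Nat.card_le_card_of_injective (fun x => ⟨x.1.1, x.1.2, ?_⟩) ?_
    · rw [← hval w x.1]
      exact x.2
    · intro x y hxy
      apply Subtype.ext
      apply Subtype.ext
      have := congrArg Subtype.val hxy
      exact this

end Pool.Agent.BBX
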