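import Pool.Agent.BBX.Fil

/-!
Calculus of polynomial maps: commutators, currying, vanishing of iterated differences.
-/

namespace Pool.Agent.BBX

open scoped commutatorElement
open Pool.Agent.BBN

universe u v w

lemma Fil.ext' {A : Type u} [Group A] {E E' : Fil A} (h : ∀ i, E.B i = E'.B i) : E = E' := by
  cases E with
  | mk B a c =>
    cases E' with
    | mk B' a' c' =>
      have : B = B' := funext h
      subst this
      rfl

lemma Fil.shift_zero {A : Type u} [Group A] (E : Fil A) : E.shift 0 = E :=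
  Fil.ext' fun i => by rw [Fil.shift_B, Nat.zero_add]

lemma Fil.shift_shift {A : Type u} [Group A] (E : Fil A) (i j : ℕ) :
    (E.shift i).shift j = E.shift (i + j) :=
  Fil.ext' fun k => by rw [Fil.shift_B, Fil.shift_B, Fil.shift_B, Nat.add_assoc]

lemma Fil.sq_shift {A : Type u} [Group A] (E : Fil A) (i : ℕ) :
    (E.shift i).sq = E.sq.shift i := Fil.ext' fun _ => rfl

section IsPoly
variable {Γ : Type u} {A : Type v} [Group Γ] [Group A] {F : Fil Γ} {E : Fil A}

lemma IsPoly.comp {Γ' : Type w} [Group Γ'] {F' : Fil Γ'} {f : Γ' → A} {g : Γ → Γ'}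
    (hf : IsPoly F' E f) (hg : IsPoly F F' g) : IsPoly F E (fun x => f (g x)) :=
  fun n => (hf n).comp (hg n)

lemma IsPoly.mul {f g : Γ → A} (hf : IsPoly F E f) (hg : IsPoly F E g) :
    IsPoly F E (fun x => f x * g x) := fun n => (hf n).mul (hg n)

lemma IsPoly.inv {f : Γ → A} (hf : IsPoly F E f) : IsPoly F E (fun x => (f x)⁻¹) :=
  fun n => (hf n).inv

lemma IsPoly.const (F : Fil Γ) {c : A} (hc : c ∈ E.B 0) : IsPoly F E (fun _ => c) :=
  fun n => Pol.const n F hc

lemma IsPoly.hom (φ : Γ →* A) (hφ : ∀ i, ∀ x ∈ F.B i, φ x ∈ E.B i) : IsPoly F E φ :=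
  fun n => Pol.hom n φ hφ

lemma IsPoly.id (F : Fil Γ) : IsPoly F F (fun x => x) :=
  IsPoly.hom (MonoidHom.id Γ) (fun _ _ h => h)

lemma IsPoly.congr {f g : Γ → A} (hf : IsPoly F E f) (h : ∀ x, g x = f x) : IsPoly F E g := by
  have : g = f := funext h
  rwa [this]

lemma IsPoly.squ {f : Γ → A} (hf : IsPoly F E f) : IsPoly F.sq E.sq (Prod.map f f) :=
  fun n => hf (n + 1)

lemma isPoly_comap {A' : Type w} [Group A'] {E' : Fil A'} (φ : A' →* A)
    (hφ : ∀ i x, x ∈ E'.B i ↔ φ x ∈ E.B i) {f : Γ → A'} :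
    IsPoly F E' f ↔ IsPoly F E (fun x => φ (f x)) :=
  forall_congr' fun _ => pol_comap φ hφ

lemma isPoly_pair {f g : Γ → A} : IsPoly F E.sq (fun x => (f x, g x)) ↔
    IsPoly F E f ∧ IsPoly F (E.shift 1) (fun x => (f x)⁻¹ * g x) := by
  constructor
  · intro h
    exact ⟨fun n => (pol_pair.mp (h n)).1, fun n => (pol_pair.mp (h n)).2⟩
  · intro h n
    exact pol_pair.mpr ⟨h.1 n, h.2 n⟩

lemma IsPoly.le {E' : Fil A} {f : Γ → A} (hf : IsPoly F E f) (h : ∀ i, E.B i ≤ E'.B i) :
    IsPoly F E' f :=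
  (IsPoly.hom (MonoidHom.id A) (fun i _ hx => h i hx)).comp hf

lemma IsPoly.apply {f : Γ → A} (hf : IsPoly F E f) {x : Γ} (hx : x ∈ F.B 0) : f x ∈ E.B 0 :=
  hf 0 x hx

lemma Pol.comm {n : ℕ} {Γ : Type u} {A : Type v} [Group Γ] [Group A] {F : Fil Γ} {E : Fil A}
    {i j : ℕ} {f g : Γ → A} (hf : Pol n Γ A F (E.shift i) f) (hg : Pol n Γ A F (E.shift j) g) :
    Pol n Γ A F (E.shift (i + j)) (fun x => ⁅f x, g x⁆) := by
  induction n generalizing Γ A with
  | zero =>
    intro x hx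
    have h1 := hf x hx
    have h2 := hg x hx
    rw [Fil.shift_B, Nat.add_zero] at *
    exact E.comm i j (Subgroup.commutator_mem_commutator h1 h2)
  | succ n ih =>
    have h1 : Pol n (Γ × Γ) (A × A) F.sq (E.shift i).sq (Prod.map f f) := hf
    have h2 : Pol n (Γ × Γ) (A × A) F.sq (E.shift j).sq (Prod.map g g) := hg
    rw [Fil.sq_shift] at h1 h2
    have h3 := ih h1 h2
    rw [← Fil.sq_shift] at h3
    exact h3

lemma IsPoly.comm {i j : ℕ} {f g : Γ → A} (hf : IsPoly F (E.shift i) f)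
    (hg : IsPoly F (E.shift j) g) : IsPoly F (E.shift (i + j)) (fun x => ⁅f x, g x⁆) :=
  fun n => (hf n).comm (hg n)

end IsPoly

section Curry

/-- Polynomial families of polynomial maps. -/
lemma curry {P : Type u} [Group P] {F : Fil P} :
    ∀ (n : ℕ) (X : Type v) [Group X] (FX : Fil X) (N A : Type w) [Group N] [Group A]
      (E : Fil A) (EN : Fil N) (ev : N →* (P → A))
      (_ : ∀ i Ψ, Ψ ∈ EN.B i ↔ IsPoly F (E.shift i) (ev Ψ)) (h : X → N)
      (_ : IsPoly (FX.prod F) E (fun y => ev (h y.1) y.2)), Pol n X N FX EN h := by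
  intro n
  induction n with
  | zero =>
    intro X _ FX N A _ _ E EN ev hEN h hh x hx
    rw [hEN, Fil.shift_zero]
    have h1 : IsPoly F (FX.prod F) (fun u : P => ((x, 1) : X × P) * (1, u)) := by
      refine IsPoly.mul (IsPoly.const F (c := ((x, 1) : X × P)) ⟨hx, (F.B 0).one_mem⟩)
        (IsPoly.hom (MonoidHom.inr X P) ?_)
      intro i u hu
      exact ⟨(FX.B i).one_mem, hu⟩
    refine (hh.comp h1).congr ?_
    intro u
    simp
  | succ n ih =>
    intro X _ FX N A _ _ E EN ev hEN h hh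
    let ev2 : N × N →* (P → A × A) :=
      { toFun := fun Ψ u => (ev Ψ.1 u, ev Ψ.2 u)
        map_one' := by
          funext u
          simp
        map_mul' := by
          intro Ψ Ψ'
          funext u
          simp }
    refine ih (X × X) FX.sq (N × N) (A × A) E.sq EN.sq ev2 ?_ (Prod.map h h) ?_
    · intro i Ψ
      rw [Fil.mem_sq, hEN, hEN]
      have h1 : IsPoly F (E.sq.shift i) (ev2 Ψ) ↔
          IsPoly F (E.shift i).sq (fun u => (ev Ψ.1 u, ev Ψ.2 u)) := by
        rw [Fil.sq_shift]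
        exact Iff.rfl
      rw [h1, isPoly_pair, Fil.shift_shift]
      refine and_congr Iff.rfl ?_
      have h2 : (ev (Ψ.1⁻¹ * Ψ.2) : P → A) = fun u => (ev Ψ.1 u)⁻¹ * ev Ψ.2 u := by
        rw [map_mul, map_inv]
        rfl
      rw [h2]
    · let τ : (X × X) × P →* (X × P) × (X × P) :=
        { toFun := fun y => ((y.1.1, y.2), (y.1.2, y.2))
          map_one' := rfl
          map_mul' := fun _ _ => rfl }
      have hτ : IsPoly (FX.sq.prod F) (FX.prod F).sq τ := by
        refine IsPoly.hom τ ?_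
        rintro i ⟨⟨x, x'⟩, u⟩ ⟨⟨h1, h2⟩, h3⟩
        refine ⟨⟨h1, h3⟩, ?_⟩
        refine ⟨h2, ?_⟩
        change u⁻¹ * u ∈ F.B (i + 1)
        rw [inv_mul_cancel]
        exact (F.B (i + 1)).one_mem
      exact hh.squ.comp hτ

lemma isPoly_curry {P : Type u} [Group P] {F : Fil P} {X : Type v} [Group X] {FX : Fil X}
    {N A : Type w} [Group N] [Group A] {E : Fil A} {EN : Fil N} (ev : N →* (P → A))
    (hev : ∀ i Ψ, Ψ ∈ EN.B i ↔ IsPoly F (E.shift i) (ev Ψ)) {h : X → N}
    (hh : IsPoly (FX.prod F) E (fun y => ev (h y.1) y.2)) : IsPoly FX EN h :=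
  fun n => curry n X FX N A E EN ev hev h hh

end Curry

section Diff

/-- Maps all of whose `n`-fold differences lie in a subgroup. -/
def PolyV {Γ : Type u} {A : Type v} [Group Γ] [Group A] : ℕ → Subgroup A → (Γ → A) → Prop
  | 0, T, f => ∀ x, f x ∈ T
  | n + 1, T, f => ∀ s : Γ, PolyV n T (fun x => (f x)⁻¹ * f (x * s))

lemma polyF_of_polyV {Γ : Type u} {A : Type v} [Group Γ] [Group A] :
    ∀ (n : ℕ) (f : Γ → A), PolyV n (⊥ : Subgroup A) f → PolyF n f := by
  intro n
  induction n with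
  | zero => exact fun f h x => h x
  | succ n ih => exact fun f h s => ih _ (h s)

lemma Pol.polyV {Γ : Type u} {A : Type v} [Group Γ] [Group A] {F : Fil Γ} (h0 : F.B 0 = ⊤)
    (h1 : F.B 1 = ⊤) : ∀ (n : ℕ) (E : Fil A) (f : Γ → A), Pol n Γ A F E f →
      PolyV n (E.B n) f := by
  intro n
  induction n with
  | zero =>
    intro E f h x
    exact h x (by rw [h0]; trivial)
  | succ n ih =>
    intro E f h s
    have h2 : Pol n Γ (Γ × Γ) F F.sq (fun x => (x, x * s)) := by
      rw [pol_pair]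
      refine ⟨Pol.hom n (MonoidHom.id Γ) (fun _ _ h => h), ?_⟩
      have h3 : Pol n Γ Γ F (F.shift 1) (fun _ => s) :=
        Pol.const n F (by
          rw [Fil.shift_B, Nat.add_zero, h1]
          trivial)
      have e : (fun x : Γ => x⁻¹ * (x * s)) = fun _ => s := by
        funext x
        group
      rw [e]
      exact h3
    have h4 : Pol n (Γ × Γ) (A × A) F.sq E.sq (Prod.map f f) := h
    have h5 := h4.comp h2
    have h6 : Pol n Γ (A × A) F E.sq (fun x => (f x, f (x * s))) := h5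
    rw [pol_pair] at h6
    have h7 := ih (E.shift 1) _ h6.2
    rw [Fil.shift_B, Nat.add_comm 1 n] at h7
    exact h7

lemma IsPoly.polyF {Γ : Type u} {A : Type v} [Group Γ] [Group A] {F : Fil Γ} {E : Fil A}
    (h0 : F.B 0 = ⊤) (h1 : F.B 1 = ⊤) {s : ℕ} (hs : E.B s = ⊥) {f : Γ → A}
    (hf : IsPoly F E f) : PolyF s f := by
  apply polyF_of_polyV
  rw [← hs]
  exact (hf s).polyV h0 h1 s E f

end Diff

end Pool.Agent.BBX
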