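import Pool.Agent.BBX.Defs

/-!
# Retraction (difficulty 2)

`exists_retr`: a finite group `D` acts on a finite nilpotent group `P` of coprime order. There is
a polynomial retraction of `P` onto the fixed points of `D` which commutes with right translations
by fixed points.

PROOF. Let `F = lcsFil m P` and let `S` be the subgroup of `P → P` of all `σ` with `IsPoly F F σ`
and `σ (u * p₀) = σ u` for all `u` and all fixed points `p₀`. (`IsPoly.mul`, `IsPoly.inv`,
`IsPoly.const` with `1`.) It is nilpotent of class `≤ c` (`Nil.joint` with the evaluations at the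
points of `P`) and its order divides `card (P → P) = card P ^ card P`, so it is coprime to
`card D` (`Subgroup.card_subgroup_dvd_card`, `Nat.Coprime.pow_right`, `Nat.card_fun`).
`D` acts on `S` by automorphisms: `(d • σ) u = d • σ u` (polynomial: `IsPoly.comp` with
`IsPoly.hom (MulDistribMulAction.toMonoidHom P d)`, `lcsFil_smul`). Define
`f : D → S`, `f d u = u * (d • u)⁻¹`: it is polynomial (`IsPoly.id`, `IsPoly.hom`, `IsPoly.inv`),
`f d (u * p₀) = u * p₀ * (d • u * p₀)⁻¹ = f d u`, and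
`f (d * d') u = u * (d • d' • u)⁻¹ = (u * (d • u)⁻¹) * (d • (u * (d' • u)⁻¹))`.
By `h1_trivial` there is `σ ∈ S` with `f d = σ * (d • σ)⁻¹` for all `d`. Put
`r₀ u = (σ u)⁻¹ * u` and `r u = (r₀ 1)⁻¹ * r₀ u`. Then `d • r₀ u = (d • σ u)⁻¹ * (d • u)`, and
`u * (d • u)⁻¹ = σ u * (d • σ u)⁻¹` gives `d • r₀ u = r₀ u`; and
`r₀ (u * p₀) = (σ u)⁻¹ * u * p₀ = r₀ u * p₀`. (`IsPoly.mul`, `IsPoly.inv`, `IsPoly.const`:
`(lcsFil m P).B 0 = ⊤` by `lcsFil_top`.)
-/

namespace Pool.Agent.BBX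

open scoped commutatorElement
open Pool.Agent.BBN

universe u

/-- the group of polynomial maps invariant under right translations by fixed points -/
def retrS (D P : Type u) [Group P] [Group D] [MulDistribMulAction D P] (m : ℕ) :
    Subgroup (P → P) where
  carrier := {σ | IsPoly (lcsFil m P) (lcsFil m P) σ ∧
    ∀ u p₀, (∀ d : D, d • p₀ = p₀) → σ (u * p₀) = σ u}
  one_mem' := ⟨IsPoly.const _ (Subgroup.one_mem _), fun _ _ _ => rfl⟩
  mul_mem' := by
    rintro σ τ ⟨h1, h2⟩ ⟨h3, h4⟩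
    refine ⟨h1.mul h3, fun u p₀ hp => ?_⟩
    show σ (u * p₀) * τ (u * p₀) = σ u * τ u
    rw [h2 u p₀ hp, h4 u p₀ hp]
  inv_mem' := by
    rintro σ ⟨h1, h2⟩
    refine ⟨h1.inv, fun u p₀ hp => ?_⟩
    show (σ (u * p₀))⁻¹ = (σ u)⁻¹
    rw [h2 u p₀ hp]

lemma retr_smul_mem {D P : Type u} [Group P] [Group D] [MulDistribMulAction D P] (m : ℕ)
    (d : D) {σ : P → P} (hσ : σ ∈ retrS D P m) : (fun u => d • σ u) ∈ retrS D P m := by
  refine ⟨?_, fun u p₀ hp => ?_⟩
  · exact (IsPoly.hom (MulDistribMulAction.toMonoidHom P d)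
      (fun i x hx => lcsFil_smul m i d hx)).comp hσ.1
  · show d • σ (u * p₀) = d • σ u
    rw [hσ.2 u p₀ hp]

instance retrAct (D P : Type u) [Group P] [Group D] [MulDistribMulAction D P] (m : ℕ) :
    MulDistribMulAction D (retrS D P m) where
  smul d σ := ⟨fun u => d • (σ : P → P) u, retr_smul_mem m d σ.2⟩
  one_smul σ := Subtype.ext (funext fun u => one_smul D ((σ : P → P) u))
  mul_smul d d' σ := Subtype.ext (funext fun u => mul_smul d d' ((σ : P → P) u))
  smul_one d := Subtype.ext (funext fun u => smul_one d)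
  smul_mul d σ τ := Subtype.ext (funext fun u => smul_mul' d ((σ : P → P) u) ((τ : P → P) u))

lemma retr_smul_apply {D P : Type u} [Group P] [Group D] [MulDistribMulAction D P] (m : ℕ)
    (d : D) (σ : retrS D P m) (u : P) : ((d • σ : retrS D P m) : P → P) u = d • (σ : P → P) u := rfl

theorem exists_retr {P D : Type u} [Group P] [Finite P] [Group D] [Finite D]
    [MulDistribMulAction D P] {c m : ℕ} (hm : 1 ≤ m) (hP : Nil c P)
    (hco : Nat.Coprime (Nat.card D) (Nat.card P)) :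
    ∃ r : P → P, IsPoly (lcsFil m P) (lcsFil m P) r ∧ (∀ u, ∀ d : D, d • r u = r u) ∧
      (∀ u p₀, (∀ d : D, d • p₀ = p₀) → r (u * p₀) = r u * p₀) ∧ r 1 = 1 := by
  have hN : Nil c (retrS D P m) :=
    Nil.joint (fun u : P => (Pi.evalMonoidHom (fun _ : P => P) u).comp (retrS D P m).subtype)
      (fun x hx => Subtype.ext (funext fun u => hx u)) (fun _ => hP)
  have hc2 : Nat.Coprime (Nat.card D) (Nat.card (retrS D P m)) := by
    have h1 : Nat.card (retrS D P m) ∣ Nat.card (P → P) := Subgroup.card_subgroup_dvd_card _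
    rw [Nat.card_fun] at h1
    exact Nat.Coprime.coprime_dvd_right h1 (Nat.Coprime.pow_right _ hco)
  have hfm : ∀ d : D, (fun u : P => u * (d • u)⁻¹) ∈ retrS D P m := by
    intro d
    refine ⟨?_, fun u p₀ hp => ?_⟩
    · exact (IsPoly.id _).mul (IsPoly.hom (MulDistribMulAction.toMonoidHom P d)
        (fun i x hx => lcsFil_smul m i d hx)).inv
    · show u * p₀ * (d • (u * p₀))⁻¹ = u * (d • u)⁻¹
      rw [smul_mul', hp d]
      group
  obtain ⟨σ, hσ⟩ := h1_trivial hN hc2 (fun d => (⟨_, hfm d⟩ : retrS D P m)) (by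
    intro d d'
    apply Subtype.ext
    funext u
    show u * ((d * d') • u)⁻¹ = (u * (d • u)⁻¹) * d • (u * (d' • u)⁻¹)
    rw [smul_mul', smul_inv', mul_smul]
    group)
  have hσ' : ∀ (d : D) (u : P), u * (d • u)⁻¹ = (σ : P → P) u * (d • (σ : P → P) u)⁻¹ := by
    intro d u
    have h1 := congrArg (fun x : retrS D P m => (x : P → P) u) (hσ d)
    exact h1
  have hfix : ∀ (u : P) (d : D), d • (((σ : P → P) u)⁻¹ * u) = ((σ : P → P) u)⁻¹ * u := by
    intro u d
    rw [smul_mul', smul_inv']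
    have h1 := hσ' d u
    have h2 : (d • (σ : P → P) u)⁻¹ = ((σ : P → P) u)⁻¹ * (u * (d • u)⁻¹) := by
      rw [h1]; group
    rw [h2]
    group
  refine ⟨fun u => (((σ : P → P) 1)⁻¹ * 1)⁻¹ * (((σ : P → P) u)⁻¹ * u), ?_, ?_, ?_, ?_⟩
  · refine (IsPoly.const _ ?_).mul (σ.2.1.inv.mul (IsPoly.id _))
    rw [lcsFil_top hm P (Nat.zero_le m)]
    exact Subgroup.mem_top _
  · intro u d
    rw [smul_mul', smul_inv', hfix, hfix]
  · intro u p₀ hp
    show (((σ : P → P) 1)⁻¹ * 1)⁻¹ * (((σ : P → P) (u * p₀))⁻¹ * (u * p₀)) =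
      (((σ : P → P) 1)⁻¹ * 1)⁻¹ * (((σ : P → P) u)⁻¹ * u) * p₀
    rw [σ.2.2 u p₀ hp]
    group
  · exact inv_mul_cancel _

end Pool.Agent.BBX
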