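import Pool.Agent.BBX.Defs

/-!
The situation of the induction step.
-/

namespace Pool.Agent.BBX

open scoped commutatorElement
open Pool.Agent.BBN

universe u

/-- The situation of the induction step: `P` is the largest normal `p`-subgroup of `G` inside `K`,
`R / P` the largest normal `p'`-subgroup of `G / P` inside `K / P`, `D` is a complement of `P` in
`R`, `U` is the normalizer of `D` and `π : U → U / D` the projection; the minimal normal
subgroup `Z` lies in `U`. -/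
structure Sit {G : Type u} [Group G] (p : ℕ) (K P R D Z U : Subgroup G) {G₁ : Type u}
    [Group G₁] (π : U →* G₁) : Prop where
  hK : K.Normal
  hP : P.Normal
  hR : R.Normal
  hZ : Z.Normal
  hPR : P ≤ R
  hRK : R ≤ K
  hPp : IsPGroup p P
  hPmax : ∀ T : Subgroup G, T.Normal → T ≤ K → IsPGroup p T → T ≤ P
  hRp : (P.relIndex R).Coprime p
  hRmax : ∀ R' : Subgroup G, R'.Normal → R ≤ R' → R' ≤ K → (P.relIndex R').Coprime p → R' = R
  hDR : D ≤ R
  hDp : (Nat.card D).Coprime p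
  hdec : ∀ x ∈ R, ∃ u ∈ P, ∃ y ∈ D, x = u * y
  hDU : D ≤ U
  hDn : ∀ n ∈ U, ∀ y ∈ D, n * y * n⁻¹ ∈ D
  hPU : ∀ g : G, ∃ u ∈ P, ∃ n ∈ U, g = u * n
  hπ : Function.Surjective π
  hker : ∀ n : U, π n = 1 ↔ (n : G) ∈ D
  hZU : Z ≤ U
  hZP : Z ≤ P
  hcen : ∀ z ∈ Z, ∀ u ∈ P, z * u = u * z

end Pool.Agent.BBX
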