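import Pool.Agent.BBX.Defs

/-!
# Normal subgroups of finite solvable groups (difficulty 3)

`solv_step`. PROOF. `C/Q` is a nontrivial solvable group. Let `D 0 = C`, `D (i+1) = ⁅D i, D i⁆` (all
normal in `G`, `Subgroup.commutator_normal`), eventually `⊥` (as `G` is solvable:
`D i ≤ derivedSeries G i`); let `i` be maximal with `¬ D i ≤ Q`. Put `B = Q ⊔ D i`. Then `B` is
normal, `Q < B ≤ C` and `⁅B, B⁆ ≤ Q` (compute in `G ⧸ Q`: the image of `B` is the image of `D i`,
and `⁅D i, D i⁆ ≤ Q`). If `(Q.relIndex B)` is coprime to `p` take `A = B`, second alternative.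
Otherwise `p` divides the order of the abelian group `B/Q`; let
`A = {x ∈ B | ∃ k, x ^ p ^ k ∈ Q}`; it is a subgroup because `B/Q` is abelian, normal in `G`,
contains `Q`, `A ≠ Q` by Cauchy's theorem (`exists_prime_orderOf_dvd_card`), and the first
alternative holds by definition.
-/

namespace Pool.Agent.BBX

open scoped commutatorElement
open Pool.Agent.BBN

universe u v

/-- the iterated commutator subgroups -/
def Solv_D {G : Type u} [Group G] (C : Subgroup G) : ℕ → Subgroup G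
  | 0 => C
  | i + 1 => ⁅Solv_D C i, Solv_D C i⁆

theorem Solv_normal {G : Type u} [Group G] (C : Subgroup G) [C.Normal] (i : ℕ) :
    (Solv_D C i).Normal := by
  induction i with
  | zero => exact inferInstanceAs C.Normal
  | succ i ih =>
    have := ih
    exact Subgroup.commutator_normal _ _

theorem Solv_le {G : Type u} [Group G] (C : Subgroup G) [C.Normal] (i : ℕ) : Solv_D C i ≤ C := by
  induction i with
  | zero => exact le_rfl
  | succ i ih =>
    have := Solv_normal C i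
    exact (Subgroup.commutator_le_left _ _).trans ih

theorem Solv_der {G : Type u} [Group G] (C : Subgroup G) (i : ℕ) :
    Solv_D C i ≤ derivedSeries G i := by
  induction i with
  | zero => exact le_top
  | succ i ih =>
    rw [derivedSeries_succ]
    exact Subgroup.commutator_mono ih ih

theorem Solv_ex {G : Type u} [Group G] [Group.IsSolvable G]
    (Q C : Subgroup G) [Q.Normal] [C.Normal] (h : Q < C) :
    ∃ E : Subgroup G, E.Normal ∧ E ≤ C ∧ ¬ E ≤ Q ∧ ⁅E, E⁆ ≤ Q := by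
  classical
  have h1 : ∃ n, Solv_D C n ≤ Q := by
    obtain ⟨n, hn⟩ := (inferInstance : Group.IsSolvable G).solvable
    refine ⟨n, (Solv_der C n).trans ?_⟩
    rw [hn]
    exact bot_le
  have h2 := Nat.find_spec h1
  have h3 : Nat.find h1 ≠ 0 := by
    intro h4
    rw [h4] at h2
    exact h.not_ge h2
  obtain ⟨i, hi⟩ := Nat.exists_eq_succ_of_ne_zero h3
  refine ⟨Solv_D C i, Solv_normal C i, Solv_le C i, ?_, ?_⟩
  · exact Nat.find_min h1 (by omega)
  · rw [hi] at h2
    exact h2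

theorem solv_step {G : Type u} [Group G] [Finite G] [Group.IsSolvable G] (p : ℕ)
    [Fact p.Prime] (Q C : Subgroup G) [Q.Normal] [C.Normal] (h : Q < C) :
    ∃ A : Subgroup G, A.Normal ∧ Q < A ∧ A ≤ C ∧
      ((∀ x ∈ A, ∃ k : ℕ, x ^ p ^ k ∈ Q) ∨ (Q.relIndex A).Coprime p) := by
  obtain ⟨E, hEn, hEC, hEQ, hEE⟩ := Solv_ex Q C h
  have hp : p.Prime := Fact.out
  set B : Subgroup G := Q ⊔ E with hB
  have hBn : B.Normal := Subgroup.sup_normal Q E
  have hQB : Q ≤ B := le_sup_left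
  have hQB' : Q < B := lt_of_le_of_ne hQB fun h1 => hEQ (by rw [h1]; exact le_sup_right)
  have hBC : B ≤ C := sup_le h.le hEC
  have hBB : ⁅B, B⁆ ≤ Q := by
    have hker : (QuotientGroup.mk' Q).ker = Q := QuotientGroup.ker_mk' Q
    have h1 : B.map (QuotientGroup.mk' Q) = E.map (QuotientGroup.mk' Q) := by
      rw [hB, Subgroup.map_sup, QuotientGroup.map_mk'_self, bot_sup_eq]
    have h2 : (⁅B, B⁆ : Subgroup G).map (QuotientGroup.mk' Q) = ⊥ := by
      rw [Subgroup.map_commutator, h1, ← Subgroup.map_commutator, Subgroup.map_eq_bot_iff, hker]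
      exact hEE
    rwa [Subgroup.map_eq_bot_iff, hker] at h2
  by_cases hcop : (Q.relIndex B).Coprime p
  · exact ⟨B, hBn, hQB', hBC, Or.inr hcop⟩
  have hdvd : p ∣ Q.relIndex B := by
    by_contra h1
    exact hcop ((Nat.Prime.coprime_iff_not_dvd hp).2 h1).symm
  have hcomm : ∀ x ∈ B, ∀ y ∈ B, Commute (x : G ⧸ Q) (y : G ⧸ Q) := by
    intro x hx y hy
    have h1 : ⁅x, y⁆ ∈ Q := hBB (Subgroup.commutator_mem_commutator hx hy)
    have h2 : ((⁅x, y⁆ : G) : G ⧸ Q) = 1 := (QuotientGroup.eq_one_iff _).2 h1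
    rw [commutatorElement_def] at h2
    have h3 : (x : G ⧸ Q) * y * (x : G ⧸ Q)⁻¹ * (y : G ⧸ Q)⁻¹ = 1 := h2
    have h4 : (x : G ⧸ Q) * y * (x : G ⧸ Q)⁻¹ = y := mul_inv_eq_one.1 h3
    exact mul_inv_eq_iff_eq_mul.1 h4
  let A : Subgroup G :=
    { carrier := {x | x ∈ B ∧ ∃ k : ℕ, x ^ p ^ k ∈ Q}
      mul_mem' := by
        rintro x y ⟨hx, a, ha⟩ ⟨hy, b, hb⟩
        refine ⟨B.mul_mem hx hy, a + b, ?_⟩
        have ha' : (x : G ⧸ Q) ^ p ^ a = 1 := (QuotientGroup.eq_one_iff _).2 ha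
        have hb' : (y : G ⧸ Q) ^ p ^ b = 1 := (QuotientGroup.eq_one_iff _).2 hb
        rw [← QuotientGroup.eq_one_iff]
        change ((x : G ⧸ Q) * y) ^ p ^ (a + b) = 1
        rw [(hcomm x hx y hy).mul_pow]
        have e1 : (x : G ⧸ Q) ^ p ^ (a + b) = 1 := by rw [pow_add, pow_mul, ha', one_pow]
        have e2 : (y : G ⧸ Q) ^ p ^ (a + b) = 1 := by
          rw [pow_add, mul_comm, pow_mul, hb', one_pow]
        rw [e1, e2, one_mul]
      one_mem' := ⟨B.one_mem, 0, by rw [one_pow]; exact Q.one_mem⟩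
      inv_mem' := by
        rintro x ⟨hx, a, ha⟩
        refine ⟨B.inv_mem hx, a, ?_⟩
        rw [inv_pow]
        exact Q.inv_mem ha }
  have hAn : A.Normal := by
    refine ⟨?_⟩
    rintro x ⟨hx, a, ha⟩ g
    refine ⟨hBn.conj_mem x hx g, a, ?_⟩
    rw [conj_pow]
    exact Subgroup.Normal.conj_mem inferInstance _ ha g
  have hQA : Q ≤ A := fun x hx => ⟨hQB hx, 0, by rw [pow_zero, pow_one]; exact hx⟩
  refine ⟨A, hAn, lt_of_le_of_ne hQA ?_, fun x hx => hBC hx.1, Or.inl fun x hx => hx.2⟩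
  intro hQA'
  have hcard : p ∣ Nat.card (B ⧸ Q.subgroupOf B) := hdvd
  obtain ⟨y, hy⟩ := exists_prime_orderOf_dvd_card' p hcard
  obtain ⟨b, rfl⟩ := QuotientGroup.mk_surjective y
  have h1 : (b : B ⧸ Q.subgroupOf B) ^ p = 1 := by rw [← hy]; exact pow_orderOf_eq_one _
  have h2 : b ^ p ∈ Q.subgroupOf B := (QuotientGroup.eq_one_iff _).1 h1
  have h3 : (b : G) ^ p ∈ Q := h2
  have h4 : (b : G) ∈ A := ⟨b.2, 1, by rw [pow_one]; exact h3⟩
  rw [← hQA'] at h4
  have h5 : (b : B ⧸ Q.subgroupOf B) = 1 := (QuotientGroup.eq_one_iff _).2 h4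
  rw [h5, orderOf_one] at hy
  exact hp.one_lt.ne hy

end Pool.Agent.BBX
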